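import Pool.Agent.Y837.SV.Pow2

set_option autoImplicit false
set_option linter.unusedSectionVars false
set_option linter.unusedVariables false

/-! # The general criterion and the two families (project SV, helper837) -/

namespace Pool.Agent.Y837.SV

open Finset Filter
open Pool.Agent.H256R2.SC (ff)
open Pool.Agent.H256R2.SC.LG (ana)

open scoped Classical

/-- the record function tends to infinity -/
theorem ff_large (K : ℝ) : ∃ X₀ : ℝ, ∀ X : ℝ, X₀ ≤ X → K ≤ ff X := by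
  obtain ⟨c, hc, X₀, h⟩ := ana (c := 1) (C := 1) (y₀ := 0) one_pos one_pos
  refine ⟨max X₀ (Real.exp (10 * (c * K))), fun X hX => ?_⟩
  obtain ⟨hX1, hX2⟩ := max_le_iff.1 hX
  obtain ⟨a1, a2, a3, a4, a5, a6, -⟩ := h X hX1 _ _ rfl rfl _ rfl
  have h1 : 10 * (c * K) ≤ Real.log X := by
    rw [← Real.log_exp (10 * (c * K))]
    exact Real.log_le_log (Real.exp_pos _) hX2
  have h2 : c * K ≤ c * ff X := by linarith
  exact le_of_mul_le_mul_left h2 hc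

/-- the criterion for polynomials -/
theorem criterion {ι : Type} [Fintype ι] (d : ℕ) (F : ι → MvPolynomial (Fin d) ℤ) (v : ι → ℤ)
    (u0 u1 : Fin d → ℤ) (hu0 : ∀ j, MvPolynomial.eval u0 (F j) = v j)
    (hu1 : ∀ j, |MvPolynomial.eval u1 (F j) - v j| = 1) (C δ : ℝ) (hδ : 0 < δ)
    (hU : ∀ p : ℕ, p.Prime → ∀ j, ∀ r : ZMod p, r ≠ (v j : ZMod p) →
      |(p : ℝ) * (Nat.card {x : Fin d → ZMod p // MvPolynomial.aeval x (F j) = r} : ℝ) - (p : ℝ) ^ d| ≤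
        C * (p : ℝ) ^ d * (p : ℝ) ^ (-δ))
    (hP : ∀ p : ℕ, p.Prime → ∀ i j, i ≠ j → ∀ r s : ZMod p, r ≠ (v i : ZMod p) → s ≠ (v j : ZMod p) →
      (p : ℝ) ^ 2 * (Nat.card {x : Fin d → ZMod p // MvPolynomial.aeval x (F i) = r ∧
        MvPolynomial.aeval x (F j) = s} : ℝ) ≤ C * (p : ℝ) ^ d) :
    ∃ c : ℝ, 0 < c ∧ ∃ Z₀ : ℝ, ∀ Z : ℕ, Z₀ ≤ Z → ∀ M : Fin d → ℤ, ∃ x : Fin d → ℤ,
      (∀ i, M i < x i ∧ x i ≤ M i + Z) ∧ ∀ j, ∀ n : ℤ, |(n : ℝ) - MvPolynomial.eval x (F j)| ≤ c * ff Z →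
        ∃ p : ℕ, p.Prime ∧ (p : ℝ) ≤ (Z : ℝ) ^ (1 / 10 : ℝ) ∧ (p : ℤ) ∣ n := by
  obtain ⟨c, hc, Z₀, h⟩ := gen0 d (fun j p x => MvPolynomial.aeval x (F j) - (v j : ZMod p))
    (fun j x => MvPolynomial.eval x (F j) - v j) (by
      intro j p x
      push_cast
      congr 1
      have h1 : (Int.castRingHom (ZMod p)) (MvPolynomial.eval x (F j)) =
          MvPolynomial.aeval (red d p x) (F j) := by
        rw [MvPolynomial.aeval_def, MvPolynomial.eval, MvPolynomial.coe_eval₂Hom,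
          MvPolynomial.hom_eval₂]
        congr 1
      exact h1) u0 u1 (fun j => by rw [hu0, sub_self]) hu1
    (|C|) (min δ (1 / 2)) (abs_nonneg C) (lt_min hδ (by norm_num)) (min_le_right _ _)
    (by
      intro p hp j r hr
      have hp1 : (1 : ℝ) ≤ p := by exact_mod_cast hp.one_lt.le
      have h1 := hU p hp j (r + (v j : ZMod p)) (by
        intro h
        apply hr
        have : r + (v j : ZMod p) - (v j : ZMod p) = 0 := by rw [h, sub_self]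
        rwa [add_sub_cancel_right] at this)
      have h2 : Nat.card {x : Fin d → ZMod p // MvPolynomial.aeval x (F j) - (v j : ZMod p) = r} =
          Nat.card {x : Fin d → ZMod p // MvPolynomial.aeval x (F j) = r + (v j : ZMod p)} := by
        congr 1
        have : ∀ x : Fin d → ZMod p, MvPolynomial.aeval x (F j) - (v j : ZMod p) = r ↔
            MvPolynomial.aeval x (F j) = r + (v j : ZMod p) := fun x => sub_eq_iff_eq_add
        simp_rw [this]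
      rw [h2]
      refine h1.trans ?_
      have hpd : (0 : ℝ) ≤ (p : ℝ) ^ d := by positivity
      have h3 : (p : ℝ) ^ (-δ) ≤ (p : ℝ) ^ (-min δ (1 / 2)) :=
        Real.rpow_le_rpow_of_exponent_le hp1 (neg_le_neg (min_le_left _ _))
      have h4 : (0 : ℝ) ≤ (p : ℝ) ^ (-δ) := by positivity
      calc C * (p : ℝ) ^ d * (p : ℝ) ^ (-δ) ≤ |C| * (p : ℝ) ^ d * (p : ℝ) ^ (-δ) := by
            apply mul_le_mul_of_nonneg_right _ h4
            exact mul_le_mul_of_nonneg_right (le_abs_self C) hpd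
        _ ≤ |C| * (p : ℝ) ^ d * (p : ℝ) ^ (-min δ (1 / 2)) :=
            mul_le_mul_of_nonneg_left h3 (by positivity))
    (by
      intro p hp i j hij r s hr hs
      have hr' : r + (v i : ZMod p) ≠ (v i : ZMod p) := by
        intro h
        apply hr
        have : r + (v i : ZMod p) - (v i : ZMod p) = 0 := by rw [h, sub_self]
        rwa [add_sub_cancel_right] at this
      have hs' : s + (v j : ZMod p) ≠ (v j : ZMod p) := by
        intro h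
        apply hs
        have : s + (v j : ZMod p) - (v j : ZMod p) = 0 := by rw [h, sub_self]
        rwa [add_sub_cancel_right] at this
      have h1 := hP p hp i j hij _ _ hr' hs'
      have h2 : Nat.card {x : Fin d → ZMod p // MvPolynomial.aeval x (F i) - (v i : ZMod p) = r ∧
          MvPolynomial.aeval x (F j) - (v j : ZMod p) = s} =
          Nat.card {x : Fin d → ZMod p // MvPolynomial.aeval x (F i) = r + (v i : ZMod p) ∧
            MvPolynomial.aeval x (F j) = s + (v j : ZMod p)} := by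
        congr 1
        have : ∀ x : Fin d → ZMod p, (MvPolynomial.aeval x (F i) - (v i : ZMod p) = r ∧
            MvPolynomial.aeval x (F j) - (v j : ZMod p) = s) ↔
            (MvPolynomial.aeval x (F i) = r + (v i : ZMod p) ∧
            MvPolynomial.aeval x (F j) = s + (v j : ZMod p)) := fun x => by
          rw [sub_eq_iff_eq_add, sub_eq_iff_eq_add]
        simp_rw [this]
      rw [h2]
      refine h1.trans ?_
      exact mul_le_mul_of_nonneg_right (le_abs_self C) (by positivity))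
  obtain ⟨Z₁, hZ₁⟩ := ff_large (2 * (∑ j : ι, |(v j : ℝ)|) / c)
  refine ⟨c / 2, by positivity, max Z₀ Z₁, fun Z hZ M => ?_⟩
  obtain ⟨hZa, hZb⟩ := max_le_iff.1 hZ
  obtain ⟨x, hx1, hx2⟩ := h Z hZa M
  refine ⟨x, hx1, fun j n hn => ?_⟩
  have hv : |(v j : ℝ)| ≤ c / 2 * ff Z := by
    have h1 : |(v j : ℝ)| ≤ ∑ j : ι, |(v j : ℝ)| :=
      Finset.single_le_sum (f := fun j : ι => |(v j : ℝ)|) (fun _ _ => abs_nonneg _) (mem_univ j)
    have h2 := hZ₁ Z hZb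
    rw [div_le_iff₀ hc] at h2
    linarith
  obtain ⟨p, hp1, hp2, hp3⟩ := hx2 j (n - (MvPolynomial.eval x (F j) - v j)) (by
    push_cast
    have e : (n : ℝ) - ((MvPolynomial.eval x (F j) : ℤ) - (v j : ℝ)) =
        ((n : ℝ) - (MvPolynomial.eval x (F j) : ℤ)) + (v j : ℝ) := by ring
    rw [e]
    refine (abs_add_le _ _).trans ?_
    linarith)
  refine ⟨p, hp1, hp2, ?_⟩
  have e : MvPolynomial.eval x (F j) - v j + (n - (MvPolynomial.eval x (F j) - v j)) = n := by ring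
  rwa [e] at hp3

/-- all monomials with coprime exponents up to `k` -/
theorem monomials (d k : ℕ) : ∃ c : ℝ, 0 < c ∧ ∃ Z₀ : ℝ, ∀ Z : ℕ, Z₀ ≤ Z → ∀ M : Fin d → ℤ,
    ∃ x : Fin d → ℤ, (∀ i, M i < x i ∧ x i ≤ M i + Z) ∧ ∀ e : Fin d → ℕ, (∀ i, e i ≤ k) →
      Finset.univ.gcd e = 1 → ∀ n : ℤ, |(n : ℝ) - ∏ i, (x i : ℝ) ^ e i| ≤ c * ff Z →
        ∃ p : ℕ, p.Prime ∧ (p : ℝ) ≤ (Z : ℝ) ^ (1 / 10 : ℝ) ∧ (p : ℤ) ∣ n := by
  obtain ⟨c, hc, Z₀, h⟩ := mono_main (ι := {e : Fin d → Fin (k + 1) //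
      Finset.univ.gcd (fun i => (e i : ℕ)) = 1}) d (fun e i => (e.1 i : ℕ)) (by
    intro e e' h
    apply Subtype.ext
    funext i
    exact Fin.ext (congrFun h i)) (fun e => e.2)
  refine ⟨c, hc, Z₀, fun Z hZ M => ?_⟩
  obtain ⟨x, hx1, hx2⟩ := h Z hZ M
  refine ⟨x, hx1, fun e he hg n hn => ?_⟩
  obtain ⟨p, hp1, hp2, hp3⟩ := hx2 ⟨fun i => ⟨e i, Nat.lt_succ_of_le (he i)⟩, hg⟩
    (n - ∏ i, x i ^ e i) (by push_cast; exact hn)
  refine ⟨p, hp1, hp2, ?_⟩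
  have e : (∏ i, x i ^ e i) + (n - ∏ i, x i ^ e i) = n := by ring
  simp only at hp3
  rwa [e] at hp3

/-- all `x ^ a + β y ^ b` with `a, b, |β|` up to `k` -/
theorem binomials (k : ℕ) : ∃ c : ℝ, 0 < c ∧ ∃ Z₀ : ℝ, ∀ Z : ℕ, Z₀ ≤ Z → ∀ M N : ℤ,
    ∃ x y : ℤ, (M < x ∧ x ≤ M + Z) ∧ (N < y ∧ y ≤ N + Z) ∧ ∀ a b : ℕ, ∀ β : ℤ, 1 ≤ a → a ≤ k →
      1 ≤ b → b ≤ k → β ≠ 0 → |β| ≤ k → ∀ n : ℤ, |(n : ℝ) - ((x : ℝ) ^ a + β * (y : ℝ) ^ b)| ≤ c * ff Z →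
        ∃ p : ℕ, p.Prime ∧ (p : ℝ) ≤ (Z : ℝ) ^ (1 / 10 : ℝ) ∧ (p : ℤ) ∣ n := by
  obtain ⟨T, hT⟩ : ∃ T : Finset (ℕ × ℕ × ℤ), T = (Icc 1 k) ×ˢ (Icc 1 k) ×ˢ
    ((Icc (-(k : ℤ)) k).filter (fun β => β ≠ 0)) := ⟨_, rfl⟩
  have hmem : ∀ t : ℕ × ℕ × ℤ, t ∈ T ↔ (1 ≤ t.1 ∧ t.1 ≤ k) ∧ (1 ≤ t.2.1 ∧ t.2.1 ≤ k) ∧
      (-(k : ℤ) ≤ t.2.2 ∧ t.2.2 ≤ k) ∧ t.2.2 ≠ 0 := by
    intro t
    rw [hT, mem_product, mem_product, mem_Icc, mem_Icc, mem_filter, mem_Icc]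
  obtain ⟨c, hc, Z₀, h⟩ := pow_main (ι := {t // t ∈ T}) (fun t => t.1.1) (fun t => t.1.2.1)
    (fun t => t.1.2.2) (fun t => ((hmem t.1).1 t.2).1.1) (fun t => ((hmem t.1).1 t.2).2.1.1)
    (fun t => ((hmem t.1).1 t.2).2.2.2) (by
      intro t t' h
      apply Subtype.ext
      simp only [Prod.mk.injEq] at h
      exact Prod.ext h.1 (Prod.ext h.2.1 h.2.2))
  refine ⟨c, hc, Z₀, fun Z hZ M N => ?_⟩
  obtain ⟨x, hx1, hx2⟩ := h Z hZ ![M, N]
  refine ⟨x 0, x 1, hx1 0, hx1 1, fun a b β ha1 ha2 hb1 hb2 hβ1 hβ2 n hn => ?_⟩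
  obtain ⟨p, hp1, hp2, hp3⟩ := hx2 ⟨(a, b, β), (hmem _).2 ⟨⟨ha1, ha2⟩, ⟨hb1, hb2⟩, abs_le.1 hβ2, hβ1⟩⟩
    (n - (x 0 ^ a + β * x 1 ^ b)) (by push_cast; exact hn)
  refine ⟨p, hp1, hp2, ?_⟩
  have e : (x 0 ^ a + β * x 1 ^ b) + (n - (x 0 ^ a + β * x 1 ^ b)) = n := by ring
  simp only at hp3
  rwa [e] at hp3

end Pool.Agent.Y837.SV
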