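import Pool.Agent.Y837.SV.Three

set_option autoImplicit false
set_option linter.unusedSectionVars false
set_option linter.unusedVariables false

/-! # Record neighbourhoods around sums of three polynomials in disjoint variables (project SV, helper837) -/

namespace Pool.Agent.Y837.SV

open Finset Filter
open Pool.Agent.H256R2.SC (ff)

open scoped Classical

section

variable {p : ℕ} [Fact p.Prime]

/-- the fibres of a nonconstant polynomial modulo `p` -/
theorem sz_count {m D : ℕ} (Q : MvPolynomial (Fin m) (ZMod p)) (hQ : Q.totalDegree ≤ D)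
    (hQc : ∀ c, Q ≠ MvPolynomial.C c) (r : ZMod p) :
    ((univ.filter (fun x : Fin m → ZMod p => MvPolynomial.eval x Q = r)).card : ℝ) * p ≤ D * (p : ℝ) ^ m := by
  have hp := (Fact.out : p.Prime)
  have h0 : Q - MvPolynomial.C r ≠ 0 := sub_ne_zero.2 (hQc r)
  have hdeg : (Q - MvPolynomial.C r).totalDegree ≤ D := by
    refine (MvPolynomial.totalDegree_sub _ _).trans ?_
    rw [MvPolynomial.totalDegree_C]
    exact max_le hQ (Nat.zero_le _)
  have h1 := MvPolynomial.schwartz_zippel_totalDegree h0 (univ : Finset (ZMod p))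
  rw [card_univ, ZMod.card] at h1
  have h2 : (Fintype.piFinset (fun _ : Fin m => (univ : Finset (ZMod p)))).filter
      (fun f => MvPolynomial.eval f (Q - MvPolynomial.C r) = 0) =
      univ.filter (fun x : Fin m → ZMod p => MvPolynomial.eval x Q = r) := by
    ext x
    simp [sub_eq_zero]
  have hpQ : (0 : ℚ≥0) < p := by exact_mod_cast hp.pos
  rw [div_le_div_iff₀ (by positivity) hpQ] at h1
  have h3 : (((Fintype.piFinset (fun _ : Fin m => (univ : Finset (ZMod p)))).filter
      (fun f => MvPolynomial.eval f (Q - MvPolynomial.C r) = 0)).card) * p ≤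
        (Q - MvPolynomial.C r).totalDegree * p ^ m := by
    exact_mod_cast h1
  rw [h2] at h3
  have h4 := h3.trans (Nat.mul_le_mul_right _ hdeg)
  exact_mod_cast h4

/-- reduction of an integer polynomial -/
noncomputable def rp (p : ℕ) [Fact p.Prime] {m : ℕ} (A : MvPolynomial (Fin m) ℤ) : MvPolynomial (Fin m) (ZMod p) :=
  MvPolynomial.map (Int.castRingHom (ZMod p)) A

theorem rp_eval {m : ℕ} (A : MvPolynomial (Fin m) ℤ) (x : Fin m → ZMod p) :
    MvPolynomial.eval x (rp p A) = MvPolynomial.aeval x A := by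
  rw [rp, MvPolynomial.eval_map, MvPolynomial.aeval_def]
  rfl

theorem rp_int {m : ℕ} (A : MvPolynomial (Fin m) ℤ) (x : Fin m → ℤ) :
    ((MvPolynomial.eval x A : ℤ) : ZMod p) = MvPolynomial.aeval (fun i => ((x i : ℤ) : ZMod p)) A := by
  have h1 : (Int.castRingHom (ZMod p)) (MvPolynomial.eval x A) =
      MvPolynomial.aeval (fun i => ((x i : ℤ) : ZMod p)) A := by
    rw [MvPolynomial.aeval_def, MvPolynomial.eval, MvPolynomial.coe_eval₂Hom,
      MvPolynomial.hom_eval₂]
    congr 1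
  exact h1

theorem rp_nonconst {m : ℕ} (A : MvPolynomial (Fin m) ℤ) (w v : Fin m → ℤ)
    (h : ¬ (p : ℤ) ∣ MvPolynomial.eval w A - MvPolynomial.eval v A) (c : ZMod p) :
    rp p A ≠ MvPolynomial.C c := by
  intro hc
  apply h
  rw [← ZMod.intCast_zmod_eq_zero_iff_dvd, Int.cast_sub, rp_int, rp_int, ← rp_eval, ← rp_eval, hc,
    MvPolynomial.eval_C, MvPolynomial.eval_C, sub_self]

theorem rp_degree {m : ℕ} (A : MvPolynomial (Fin m) ℤ) : (rp p A).totalDegree ≤ A.totalDegree :=
  Finset.sup_mono (MvPolynomial.support_map_subset _ _)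

/-- exponential sums of an integer polynomial -/
theorem EX_poly {m D : ℕ} (hD : 1 ≤ D) (hDp : D < p) (A : MvPolynomial (Fin m) ℤ) (hA : A.totalDegree ≤ D)
    (hnc : ∀ c, rp p A ≠ MvPolynomial.C c) (t : ZMod p) (ht : t ≠ 0) :
    ‖EX (fun x : Fin m → ZMod p => MvPolynomial.aeval x A) t‖ ≤
      ((D : ℝ) + 2) * (p : ℝ) ^ m * (p : ℝ) ^ (-(1 / 2 : ℝ) ^ D) := by
  have h1 := weyl_several D hD hDp m (rp p A * MvPolynomial.C t) (by
      refine (MvPolynomial.totalDegree_mul _ _).trans ?_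
      rw [MvPolynomial.totalDegree_C, add_zero]
      exact (rp_degree A).trans hA) (by
      intro c hc
      apply hnc (c * t⁻¹)
      rw [map_mul, ← hc, mul_assoc, ← map_mul, mul_inv_cancel₀ ht, map_one, mul_one])
  unfold EX
  simp_rw [map_mul, MvPolynomial.eval_C, rp_eval] at h1
  exact h1

end

/-- the solutions modulo `p` of `A(x) + B(y) + C(z) = r` -/
theorem three_U {a b c D p : ℕ} [Fact p.Prime] (hD : 1 ≤ D) (hDp : D < p) (A : MvPolynomial (Fin a) ℤ)
    (B : MvPolynomial (Fin b) ℤ) (C : MvPolynomial (Fin c) ℤ) (hA : A.totalDegree ≤ D)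
    (hB : B.totalDegree ≤ D) (hC : C.totalDegree ≤ D) (hAc : ∀ c, rp p A ≠ MvPolynomial.C c)
    (hBc : ∀ c, rp p B ≠ MvPolynomial.C c) (hCc : ∀ c, rp p C ≠ MvPolynomial.C c) (r : ZMod p) :
    |(p : ℝ) * (Nat.card {x : Fin (a + (b + c)) → ZMod p //
        MvPolynomial.aeval (fun i => x (Fin.castAdd (b + c) i)) A +
        MvPolynomial.aeval (fun i => x (Fin.natAdd a (Fin.castAdd c i))) B +
        MvPolynomial.aeval (fun i => x (Fin.natAdd a (Fin.natAdd b i))) C = r} : ℝ) -
      (p : ℝ) ^ (a + (b + c))| ≤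
      (2 * (D : ℝ) * (D + 2)) * (p : ℝ) ^ (a + (b + c)) * (p : ℝ) ^ (-(1 / 2 : ℝ) ^ D) := by
  have hp := (Fact.out : p.Prime)
  have hp0 : (0 : ℝ) < p := by exact_mod_cast hp.pos
  have h1 := three_conv (p := p) (fun x : Fin a → ZMod p => MvPolynomial.aeval x A)
    (fun x : Fin b → ZMod p => MvPolynomial.aeval x B) (fun x : Fin c → ZMod p => MvPolynomial.aeval x C)
    D D (((D : ℝ) + 2) * (p : ℝ) ^ c * (p : ℝ) ^ (-(1 / 2 : ℝ) ^ D)) (Nat.cast_nonneg _) (Nat.cast_nonneg _)
    (by positivity)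
    (by
      intro r
      have := sz_count (rp p A) ((rp_degree A).trans hA) hAc r
      simp_rw [rp_eval] at this
      rw [Fintype.card_fun, ZMod.card, Fintype.card_fin]
      push_cast
      exact this)
    (by
      intro r
      have := sz_count (rp p B) ((rp_degree B).trans hB) hBc r
      simp_rw [rp_eval] at this
      rw [Fintype.card_fun, ZMod.card, Fintype.card_fin]
      push_cast
      exact this)
    (fun t ht => EX_poly hD hDp C hC hCc t ht) r
  have h2 : Nat.card {x : Fin (a + (b + c)) → ZMod p //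
        MvPolynomial.aeval (fun i => x (Fin.castAdd (b + c) i)) A +
        MvPolynomial.aeval (fun i => x (Fin.natAdd a (Fin.castAdd c i))) B +
        MvPolynomial.aeval (fun i => x (Fin.natAdd a (Fin.natAdd b i))) C = r} =
      (univ.filter (fun z : (Fin a → ZMod p) × (Fin b → ZMod p) × (Fin c → ZMod p) =>
        MvPolynomial.aeval z.1 A + MvPolynomial.aeval z.2.1 B + MvPolynomial.aeval z.2.2 C = r)).card := by
    rw [Nat.card_eq_fintype_card, Fintype.card_subtype]
    refine Finset.card_bij' (fun x _ => ((fun i => x (Fin.castAdd (b + c) i)),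
      (fun i => x (Fin.natAdd a (Fin.castAdd c i))), (fun i => x (Fin.natAdd a (Fin.natAdd b i)))))
      (fun z _ => Fin.append z.1 (Fin.append z.2.1 z.2.2)) ?_ ?_ ?_ ?_
    · intro x hx
      rw [mem_filter] at hx ⊢
      exact ⟨mem_univ _, hx.2⟩
    · intro z hz
      rw [mem_filter] at hz ⊢
      refine ⟨mem_univ _, ?_⟩
      simp only [Fin.append_left, Fin.append_right]
      exact hz.2
    · intro x _
      funext i
      refine Fin.addCases (fun i => ?_) (fun i => ?_) i
      · simp only [Fin.append_left]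
      · simp only [Fin.append_right]
        refine Fin.addCases (fun i => ?_) (fun i => ?_) i
        · simp only [Fin.append_left]
        · simp only [Fin.append_right]
    · intro z _
      simp only [Fin.append_left, Fin.append_right]
  rw [h2]
  simp only [Fintype.card_fun, ZMod.card, Fintype.card_fin, Nat.cast_pow] at h1
  have e1 : (p : ℝ) ^ a * (p : ℝ) ^ b * (p : ℝ) ^ c = (p : ℝ) ^ (a + (b + c)) := by
    rw [pow_add, pow_add]; ring
  rw [e1] at h1
  refine h1.trans (le_of_eq ?_)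
  rw [← e1]
  ring

/-- the parameters at which an integer polynomial stays nonconstant -/
theorem nonconst_B {m : ℕ} (A : MvPolynomial (Fin m) ℤ) (hA : ∀ k, A ≠ MvPolynomial.C k) :
    ∃ w : Fin m → ℤ, MvPolynomial.eval w A ≠ MvPolynomial.eval 0 A ∧
      ∀ p : ℕ, (MvPolynomial.eval w A - MvPolynomial.eval 0 A).natAbs < p →
        ¬ (p : ℤ) ∣ MvPolynomial.eval w A - MvPolynomial.eval 0 A := by
  obtain ⟨w, hw⟩ := avoid (ι := Unit) m (fun _ => A) (fun _ => MvPolynomial.eval 0 A) (fun _ => hA _)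
  refine ⟨w, hw (), fun p hp hdvd => ?_⟩
  have h1 := Int.natAbs_dvd_natAbs.2 hdvd
  rw [Int.natAbs_natCast] at h1
  have h2 : 0 < (MvPolynomial.eval w A - MvPolynomial.eval 0 A).natAbs :=
    Int.natAbs_pos.2 (sub_ne_zero.2 (hw ()))
  have h3 := Nat.le_of_dvd h2 h1
  omega

/-- **Record neighbourhoods around sums of three polynomials in disjoint variables** -/
theorem three_main {a b c : ℕ} (A : MvPolynomial (Fin a) ℤ) (B : MvPolynomial (Fin b) ℤ)
    (C : MvPolynomial (Fin c) ℤ) (hA : ∀ k, A ≠ MvPolynomial.C k) (hB : ∀ k, B ≠ MvPolynomial.C k)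
    (hC : ∀ k, C ≠ MvPolynomial.C k) :
    ∃ κ : ℝ, 0 < κ ∧ ∃ Z₀ : ℝ, ∀ Z : ℕ, Z₀ ≤ Z → ∀ (M : Fin a → ℤ) (N : Fin b → ℤ) (K : Fin c → ℤ),
      ∃ (x : Fin a → ℤ) (y : Fin b → ℤ) (z : Fin c → ℤ),
        ((∀ i, M i < x i ∧ x i ≤ M i + Z) ∧ (∀ i, N i < y i ∧ y i ≤ N i + Z) ∧
          ∀ i, K i < z i ∧ z i ≤ K i + Z) ∧
        ∀ n : ℤ, |(n : ℝ) - ((MvPolynomial.eval x A : ℤ) + (MvPolynomial.eval y B : ℤ) +
          (MvPolynomial.eval z C : ℤ))| ≤ κ * ff Z →
          ∃ p : ℕ, p.Prime ∧ (p : ℝ) ≤ (Z : ℝ) ^ (1 / 10 : ℝ) ∧ (p : ℤ) ∣ n := by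
  obtain ⟨wA, hwA, hA2⟩ := nonconst_B A hA
  obtain ⟨wB, hwB, hB2⟩ := nonconst_B B hB
  obtain ⟨wC, hwC, hC2⟩ := nonconst_B C hC
  obtain ⟨D, hD⟩ : ∃ D : ℕ, D = A.totalDegree + B.totalDegree + C.totalDegree + 1 := ⟨_, rfl⟩
  obtain ⟨B₀, hB₀⟩ : ∃ B₀ : ℕ, B₀ = (MvPolynomial.eval wA A - MvPolynomial.eval 0 A).natAbs +
    (MvPolynomial.eval wB B - MvPolynomial.eval 0 B).natAbs +
    (MvPolynomial.eval wC C - MvPolynomial.eval 0 C).natAbs + D := ⟨_, rfl⟩
  have hδ : (0 : ℝ) < (1 / 2 : ℝ) ^ D := by positivity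
  have hδ2 : (1 / 2 : ℝ) ^ D ≤ 1 / 2 := by
    have h1 : (1 / 2 : ℝ) ^ D ≤ (1 / 2 : ℝ) ^ 1 :=
      pow_le_pow_of_le_one (by norm_num) (by norm_num) (by omega)
    simpa using h1
  obtain ⟨κ, hκ, Z₀, h⟩ := gen3t (ι := Unit) (a + (b + c))
    (fun _ p x => MvPolynomial.aeval (fun i => x (Fin.castAdd (b + c) i)) A +
        MvPolynomial.aeval (fun i => x (Fin.natAdd a (Fin.castAdd c i))) B +
        MvPolynomial.aeval (fun i => x (Fin.natAdd a (Fin.natAdd b i))) C)
    (fun _ x => MvPolynomial.eval (fun i => x (Fin.castAdd (b + c) i)) A +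
        MvPolynomial.eval (fun i => x (Fin.natAdd a (Fin.castAdd c i))) B +
        MvPolynomial.eval (fun i => x (Fin.natAdd a (Fin.natAdd b i))) C)
    (by
      intro _ p x
      have key : ∀ {m : ℕ} (Q : MvPolynomial (Fin m) ℤ) (v : Fin m → ℤ),
          ((MvPolynomial.eval v Q : ℤ) : ZMod p) = MvPolynomial.aeval (fun i => ((v i : ℤ) : ZMod p)) Q := by
        intro m Q v
        have h1 : (Int.castRingHom (ZMod p)) (MvPolynomial.eval v Q) =
            MvPolynomial.aeval (fun i => ((v i : ℤ) : ZMod p)) Q := by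
          rw [MvPolynomial.aeval_def, MvPolynomial.eval, MvPolynomial.coe_eval₂Hom,
            MvPolynomial.hom_eval₂]
          congr 1
        exact h1
      push_cast
      rw [key, key, key]
      rfl)
    B₀ (fun _ => MvPolynomial.eval 0 A + MvPolynomial.eval 0 B + MvPolynomial.eval 0 C) (fun _ => 0)
    (fun _ => Fin.append wA 0)
    (by
      intro p hp hBp _
      have e : MvPolynomial.eval (fun i => (0 : Fin (a + (b + c)) → ℤ) (Fin.castAdd (b + c) i)) A +
        MvPolynomial.eval (fun i => (0 : Fin (a + (b + c)) → ℤ) (Fin.natAdd a (Fin.castAdd c i))) B +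
        MvPolynomial.eval (fun i => (0 : Fin (a + (b + c)) → ℤ) (Fin.natAdd a (Fin.natAdd b i))) C -
        (MvPolynomial.eval 0 A + MvPolynomial.eval 0 B + MvPolynomial.eval 0 C) = 0 := by
        have e1 : (fun i => (0 : Fin (a + (b + c)) → ℤ) (Fin.castAdd (b + c) i)) = 0 := rfl
        have e2 : (fun i => (0 : Fin (a + (b + c)) → ℤ) (Fin.natAdd a (Fin.castAdd c i))) = 0 := rfl
        have e3 : (fun i => (0 : Fin (a + (b + c)) → ℤ) (Fin.natAdd a (Fin.natAdd b i))) = 0 := rfl
        rw [e1, e2, e3, sub_self]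
      rw [e]
      exact dvd_zero _)
    (by
      intro p hp hBp _ hdvd
      simp only [Fin.append_left, Fin.append_right] at hdvd
      have e2 : (fun i : Fin b => (0 : Fin (b + c) → ℤ) (Fin.castAdd c i)) = 0 := rfl
      have e3 : (fun i : Fin c => (0 : Fin (b + c) → ℤ) (Fin.natAdd b i)) = 0 := rfl
      rw [e2, e3] at hdvd
      refine hA2 p (by omega) ?_
      have e : MvPolynomial.eval (fun i => wA i) A + MvPolynomial.eval 0 B + MvPolynomial.eval 0 C -
        (MvPolynomial.eval 0 A + MvPolynomial.eval 0 B + MvPolynomial.eval 0 C) =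
        MvPolynomial.eval wA A - MvPolynomial.eval 0 A := by ring
      rwa [e] at hdvd)
    (fun _ => ∅) (by simp) (2 * (D : ℝ) * (D + 2)) ((1 / 2 : ℝ) ^ D) (by positivity) hδ hδ2
    (by
      intro p hp hBp _ r _
      have : Fact p.Prime := ⟨hp⟩
      exact three_U (by omega) (by omega) A B C (by omega) (by omega) (by omega)
        (rp_nonconst A wA 0 (hA2 p (by omega))) (rp_nonconst B wB 0 (hB2 p (by omega)))
        (rp_nonconst C wC 0 (hC2 p (by omega))) r)
    (by
      intro p hp hBp i j hij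
      exact absurd (Subsingleton.elim i j) hij)
  refine ⟨κ, hκ, Z₀, fun Z hZ M N K => ?_⟩
  obtain ⟨x, hx1, hx2⟩ := h Z hZ (Fin.append M (Fin.append N K))
  refine ⟨fun i => x (Fin.castAdd (b + c) i), fun i => x (Fin.natAdd a (Fin.castAdd c i)),
    fun i => x (Fin.natAdd a (Fin.natAdd b i)), ⟨fun i => ?_, fun i => ?_, fun i => ?_⟩, fun n hn => ?_⟩
  · have := hx1 (Fin.castAdd (b + c) i)
    rwa [Fin.append_left] at this
  · have := hx1 (Fin.natAdd a (Fin.castAdd c i))
    rwa [Fin.append_right, Fin.append_left] at this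
  · have := hx1 (Fin.natAdd a (Fin.natAdd b i))
    rwa [Fin.append_right, Fin.append_right] at this
  · refine hx2 () n ?_
    push_cast
    exact hn

end Pool.Agent.Y837.SV
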