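import Pool.Agent.Y837.SV.Fin1
import Pool.Agent.H226R2.ShanksGap

set_option autoImplicit false
set_option linter.unusedSectionVars false
set_option linter.unusedVariables false

/-! # Polynomials of weight one (project SV, helper837) -/

namespace Pool.Agent.Y837.SV

open Finset Filter MvPolynomial
open Pool.Agent.H256R2.SC (ff)

open scoped Classical

section

variable {d p : ℕ} [Fact p.Prime]

/-- scaling of a weighted homogeneous polynomial -/
theorem scale_aeval (F : MvPolynomial (Fin d) ℤ) (w : Fin d → ℤ) (D : ℤ)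
    (hw : ∀ e ∈ F.support, ∑ i, w i * (e i : ℤ) = D) (x : Fin d → ZMod p) (l : ZMod p) (hl : l ≠ 0) :
    aeval (fun i => x i * l ^ (w i)) F = l ^ D * aeval x F := by
  rw [aeval_def, aeval_def, eval₂_eq', eval₂_eq', Finset.mul_sum]
  refine Finset.sum_congr rfl fun e he => ?_
  have h1 : ∀ i, (x i * l ^ (w i)) ^ e i = x i ^ e i * l ^ (w i * (e i : ℤ)) := by
    intro i
    rw [mul_pow, zpow_mul, zpow_natCast]
  simp_rw [h1]
  rw [Finset.prod_mul_distrib, prod_zpow' univ l hl, hw e he]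
  ring

/-- the number of the zeros modulo `p` -/
theorem zero_count (F : MvPolynomial (Fin d) ℤ) (u : Fin d → ℤ) (hu : |eval u F| = 1) :
    ((univ.filter (fun x : Fin d → ZMod p => aeval x F = 0)).card : ℝ) * p ≤
      F.totalDegree * (p : ℝ) ^ d := by
  have hp := (Fact.out : p.Prime)
  have hpR : (0 : ℝ) < p := by exact_mod_cast hp.pos
  set G : MvPolynomial (Fin d) (ZMod p) := map (Int.castRingHom (ZMod p)) F with hG
  have hGe : ∀ x : Fin d → ZMod p, eval x G = aeval x F := by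
    intro x
    rw [hG, eval_map, aeval_def]
    rfl
  have hG0 : G ≠ 0 := by
    intro h
    have h1 : aeval (fun i => ((u i : ℤ) : ZMod p)) F = 0 := by
      rw [← hGe, h, map_zero]
    have h2 : (Int.castRingHom (ZMod p)) (eval u F) = aeval (fun i => ((u i : ℤ) : ZMod p)) F := by
      rw [aeval_def, eval, coe_eval₂Hom, hom_eval₂]
      congr 1
    rw [h1] at h2
    have h3 : ((eval u F : ℤ) : ZMod p) = 0 := h2
    rw [ZMod.intCast_zmod_eq_zero_iff_dvd] at h3
    have h4 := Int.natAbs_dvd_natAbs.2 h3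
    have h5 : (eval u F).natAbs = 1 := by
      have := hu
      rw [Int.abs_eq_natAbs] at this
      exact_mod_cast this
    rw [h5, Int.natAbs_natCast] at h4
    exact hp.one_lt.ne' (Nat.dvd_one.1 h4)
  have hdeg : G.totalDegree ≤ F.totalDegree := by
    rw [hG]
    exact Finset.sup_mono (support_map_subset _ _)
  have h1 := schwartz_zippel_totalDegree hG0 (univ : Finset (ZMod p))
  rw [card_univ, ZMod.card] at h1
  have h2 : (Fintype.piFinset (fun _ : Fin d => (univ : Finset (ZMod p)))).filter (fun f => eval f G = 0) =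
      univ.filter (fun x : Fin d → ZMod p => aeval x F = 0) := by
    ext x
    simp [hGe]
  have hpQ : (0 : ℚ≥0) < p := by exact_mod_cast hp.pos
  rw [div_le_div_iff₀ (by positivity) hpQ] at h1
  have h3 : (((Fintype.piFinset (fun _ : Fin d => (univ : Finset (ZMod p)))).filter
      (fun f => eval f G = 0)).card) * p ≤ G.totalDegree * p ^ d := by
    exact_mod_cast h1
  rw [h2] at h3
  have h4 : (univ.filter (fun x : Fin d → ZMod p => aeval x F = 0)).card * p ≤
      F.totalDegree * p ^ d := h3.trans (Nat.mul_le_mul_right _ hdeg)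
  exact_mod_cast h4

theorem weight_U (F : MvPolynomial (Fin d) ℤ) (w : Fin d → ℤ)
    (hw : ∀ e ∈ F.support, ∑ i, w i * (e i : ℤ) = 1) (u : Fin d → ℤ) (hu : |eval u F| = 1)
    (r : ZMod p) (hr : r ≠ 0) :
    |(p : ℝ) * ((univ.filter (fun x : Fin d → ZMod p => aeval x F = r)).card : ℝ) - (p : ℝ) ^ d| * p ≤
      ((F.totalDegree : ℝ) + 2) * (p : ℝ) ^ d := by
  have hp := (Fact.out : p.Prime)
  have hp2 : (2 : ℝ) ≤ p := by exact_mod_cast hp.two_le
  obtain ⟨N, hN⟩ : ∃ N : ZMod p → ℕ, N = fun r =>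
    (univ.filter (fun x : Fin d → ZMod p => aeval x F = r)).card := ⟨_, rfl⟩
  have hfib : ∀ s : ZMod p, s ≠ 0 → N s = N 1 := by
    intro s hs
    rw [hN]
    simp only
    have key : ∀ (t : ZMod p) (ht : t ≠ 0) (x : Fin d → ZMod p),
        aeval (fun i => x i * t ^ (w i)) F = t * aeval x F := by
      intro t ht x
      rw [scale_aeval F w 1 hw x t ht, zpow_one]
    refine Finset.card_bij' (fun x _ => fun i => x i * s⁻¹ ^ (w i)) (fun x _ => fun i => x i * s ^ (w i))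
      ?_ ?_ ?_ ?_
    · intro x hx
      rw [mem_filter] at hx ⊢
      refine ⟨mem_univ _, ?_⟩
      rw [key _ (inv_ne_zero hs), hx.2, inv_mul_cancel₀ hs]
    · intro x hx
      rw [mem_filter] at hx ⊢
      refine ⟨mem_univ _, ?_⟩
      rw [key _ hs, hx.2, mul_one]
    · intro x _
      funext i
      show x i * s⁻¹ ^ w i * s ^ w i = x i
      rw [inv_zpow, mul_assoc, inv_mul_cancel₀ (zpow_ne_zero _ hs), mul_one]
    · intro x _
      funext i
      show x i * s ^ w i * s⁻¹ ^ w i = x i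
      rw [inv_zpow, mul_assoc, mul_inv_cancel₀ (zpow_ne_zero _ hs), mul_one]
  have hsum : N 0 + (p - 1) * N 1 = p ^ d := by
    have h1 := sum_fib (p := p) (fun x : Fin d → ZMod p => aeval x F)
    rw [← Finset.add_sum_erase univ _ (mem_univ (0 : ZMod p))] at h1
    have h2 : ∑ s ∈ univ.erase (0 : ZMod p), (univ.filter
        (fun x : Fin d → ZMod p => aeval x F = s)).card = (p - 1) * N 1 := by
      have h3 : ∀ s ∈ univ.erase (0 : ZMod p), (univ.filter
          (fun x : Fin d → ZMod p => aeval x F = s)).card = N 1 := by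
        intro s hs
        have := hfib s (ne_of_mem_erase hs)
        rw [← this, hN]
      rw [Finset.sum_congr rfl h3, Finset.sum_const,
        card_erase_of_mem (mem_univ _), card_univ, ZMod.card, smul_eq_mul]
    rw [h2] at h1
    have h4 : N 0 = (univ.filter (fun x : Fin d → ZMod p => aeval x F = 0)).card := by rw [hN]
    rw [h4]
    exact h1
  have h2R : (N 0 : ℝ) * p ≤ F.totalDegree * (p : ℝ) ^ d := by
    have := zero_count (p := p) F u hu
    rw [hN]
    exact this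
  have h1R : (N 0 : ℝ) + ((p : ℝ) - 1) * N 1 = (p : ℝ) ^ d := by
    have h1 : ((N 0 + (p - 1) * N 1 : ℕ) : ℝ) = ((p ^ d : ℕ) : ℝ) := by rw [hsum]
    push_cast [Nat.cast_sub hp.one_lt.le] at h1
    exact h1
  have hN1 : (0 : ℝ) ≤ N 1 := Nat.cast_nonneg _
  have hN00 : (0 : ℝ) ≤ N 0 := Nat.cast_nonneg _
  have h3R : (N 1 : ℝ) * p ≤ 2 * (p : ℝ) ^ d := by
    have : (p : ℝ) ≤ 2 * ((p : ℝ) - 1) := by linarith
    calc (N 1 : ℝ) * p ≤ N 1 * (2 * ((p : ℝ) - 1)) := mul_le_mul_of_nonneg_left this hN1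
      _ = 2 * (((p : ℝ) - 1) * N 1) := by ring
      _ ≤ 2 * (p : ℝ) ^ d := by linarith
  have h4 : (((univ.filter (fun x : Fin d → ZMod p => aeval x F = r)).card : ℕ) : ℝ) = N 1 := by
    have := hfib r hr
    rw [← this, hN]
  rw [h4]
  have h5 : (p : ℝ) * N 1 - (p : ℝ) ^ d = (N 1 : ℝ) - N 0 := by
    rw [← h1R]; ring
  rw [h5]
  have h6 : |(N 1 : ℝ) - N 0| ≤ N 1 + N 0 := by
    rw [abs_le]
    constructor <;> linarith
  calc |(N 1 : ℝ) - N 0| * p ≤ (N 1 + N 0) * p := mul_le_mul_of_nonneg_right h6 (by linarith)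
    _ = N 1 * p + N 0 * p := by ring
    _ ≤ 2 * (p : ℝ) ^ d + F.totalDegree * (p : ℝ) ^ d := by linarith
    _ = ((F.totalDegree : ℝ) + 2) * (p : ℝ) ^ d := by ring

/-- at most `|D|` nonzero `l` have `l ^ D * r = s` -/
theorem card_zpow_mul (D : ℤ) (hD : D ≠ 0) (r s : ZMod p) (hr : r ≠ 0) :
    (univ.filter (fun l : ZMod p => l ≠ 0 ∧ l ^ D * r = s)).card ≤ D.natAbs := by
  refine le_trans (card_le_card ?_) (card_zpow_eq D hD (s / r))
  intro l hl
  rw [mem_filter] at hl ⊢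
  refine ⟨mem_univ _, hl.2.1, ?_⟩
  rw [eq_div_iff hr]
  exact hl.2.2

theorem weight_pair (F G : MvPolynomial (Fin d) ℤ) (w w' : Fin d → ℤ) (D D' : ℤ) (hD : D ≠ 0) (hD' : D' ≠ 0)
    (h1 : ∀ e ∈ F.support, ∑ i, w i * (e i : ℤ) = D) (h2 : ∀ e ∈ G.support, ∑ i, w i * (e i : ℤ) = 0)
    (h3 : ∀ e ∈ G.support, ∑ i, w' i * (e i : ℤ) = D') (h4 : ∀ e ∈ F.support, ∑ i, w' i * (e i : ℤ) = 0)
    (r s : ZMod p) (hr : r ≠ 0) (hs : s ≠ 0) :
    (p : ℝ) ^ 2 * ((univ.filter (fun x : Fin d → ZMod p => aeval x F = r ∧ aeval x G = s)).card : ℝ) ≤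
      4 * (D.natAbs * D'.natAbs : ℕ) * (p : ℝ) ^ d := by
  have hp := (Fact.out : p.Prime)
  have hp2 : (2 : ℝ) ≤ p := by exact_mod_cast hp.two_le
  obtain ⟨N, hN⟩ : ∃ N : ZMod p → ZMod p → ℕ, N = fun r s =>
    (univ.filter (fun x : Fin d → ZMod p => aeval x F = r ∧ aeval x G = s)).card := ⟨_, rfl⟩
  have key : ∀ (v : Fin d → ℤ) (E E' : ℤ) (hE : ∀ e ∈ F.support, ∑ i, v i * (e i : ℤ) = E)
      (hE' : ∀ e ∈ G.support, ∑ i, v i * (e i : ℤ) = E') (l : ZMod p) (hl : l ≠ 0) (a b : ZMod p),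
      N (l ^ E * a) (l ^ E' * b) = N a b := by
    intro v E E' hE hE' l hl a b
    rw [hN]
    simp only
    refine Finset.card_bij' (fun x _ => fun i => x i * l⁻¹ ^ (v i)) (fun x _ => fun i => x i * l ^ (v i))
      ?_ ?_ ?_ ?_
    · intro x hx
      rw [mem_filter] at hx ⊢
      refine ⟨mem_univ _, ?_, ?_⟩
      · rw [scale_aeval F v E hE x _ (inv_ne_zero hl), hx.2.1, inv_zpow, ← mul_assoc,
          inv_mul_cancel₀ (zpow_ne_zero _ hl), one_mul]
      · rw [scale_aeval G v E' hE' x _ (inv_ne_zero hl), hx.2.2, inv_zpow, ← mul_assoc,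
          inv_mul_cancel₀ (zpow_ne_zero _ hl), one_mul]
    · intro x hx
      rw [mem_filter] at hx ⊢
      refine ⟨mem_univ _, ?_, ?_⟩
      · rw [scale_aeval F v E hE x _ hl, hx.2.1]
      · rw [scale_aeval G v E' hE' x _ hl, hx.2.2]
    · intro x _
      funext i
      show x i * l⁻¹ ^ v i * l ^ v i = x i
      rw [inv_zpow, mul_assoc, inv_mul_cancel₀ (zpow_ne_zero _ hl), mul_one]
    · intro x _
      funext i
      show x i * l ^ v i * l⁻¹ ^ v i = x i
      rw [inv_zpow, mul_assoc, mul_inv_cancel₀ (zpow_ne_zero _ hl), mul_one]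
  have hinv : ∀ l m : ZMod p, l ≠ 0 → m ≠ 0 → N (l ^ D * r) (m ^ D' * s) = N r s := by
    intro l m hl hm
    have e1 := key w D 0 h1 h2 l hl r (m ^ D' * s)
    have e2 := key w' 0 D' h4 h3 m hm r s
    rw [zpow_zero, one_mul] at e1 e2
    rw [e1, e2]
  -- sum over the orbit
  obtain ⟨U, hU⟩ : ∃ U : Finset (ZMod p × ZMod p), U = univ.filter (fun z => z.1 ≠ 0 ∧ z.2 ≠ 0) := ⟨_, rfl⟩
  have hUc : (U.card : ℝ) = ((p : ℝ) - 1) ^ 2 := by
    have h5 : U = (univ.erase (0 : ZMod p)) ×ˢ (univ.erase (0 : ZMod p)) := by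
      rw [hU]
      ext z
      simp
    rw [h5, card_product, card_erase_of_mem (mem_univ _), card_univ, ZMod.card]
    push_cast [Nat.cast_sub hp.one_lt.le]
    ring
  have h5 : ∑ z ∈ U, N (z.1 ^ D * r) (z.2 ^ D' * s) = U.card * N r s := by
    have h0 : ∀ z ∈ U, N (z.1 ^ D * r) (z.2 ^ D' * s) = N r s := by
      intro z hz
      rw [hU, mem_filter] at hz
      exact hinv z.1 z.2 hz.2.1 hz.2.2
    rw [Finset.sum_congr rfl h0, Finset.sum_const, smul_eq_mul]
  have h6 : ∑ z ∈ U, N (z.1 ^ D * r) (z.2 ^ D' * s) ≤ (D.natAbs * D'.natAbs) *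
      ∑ q : ZMod p × ZMod p, N q.1 q.2 := by
    rw [← Finset.sum_fiberwise_of_maps_to (s := U) (t := univ)
      (g := fun z : ZMod p × ZMod p => (z.1 ^ D * r, z.2 ^ D' * s)) (fun x _ => mem_univ _),
      Finset.mul_sum]
    refine Finset.sum_le_sum fun q _ => ?_
    have h7 : ∀ z ∈ U.filter (fun z : ZMod p × ZMod p => (z.1 ^ D * r, z.2 ^ D' * s) = q),
        N (z.1 ^ D * r) (z.2 ^ D' * s) = N q.1 q.2 := by
      intro z hz
      have := (mem_filter.1 hz).2
      rw [← this]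
    rw [Finset.sum_congr rfl h7, Finset.sum_const, smul_eq_mul]
    apply Nat.mul_le_mul_right
    have h8 : U.filter (fun z : ZMod p × ZMod p => (z.1 ^ D * r, z.2 ^ D' * s) = q) ⊆
        (univ.filter (fun l : ZMod p => l ≠ 0 ∧ l ^ D * r = q.1)) ×ˢ
        (univ.filter (fun l : ZMod p => l ≠ 0 ∧ l ^ D' * s = q.2)) := by
      intro z hz
      rw [mem_filter, hU, mem_filter] at hz
      rw [mem_product, mem_filter, mem_filter]
      obtain ⟨⟨-, h9, h10⟩, h11⟩ := hz
      exact ⟨⟨mem_univ _, h9, by rw [← h11]⟩, ⟨mem_univ _, h10, by rw [← h11]⟩⟩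
    refine (card_le_card h8).trans ?_
    rw [card_product]
    exact Nat.mul_le_mul (card_zpow_mul D hD r _ hr) (card_zpow_mul D' hD' s _ hs)
  have h7 : ∑ q : ZMod p × ZMod p, N q.1 q.2 = p ^ d := by
    have h8 : (univ : Finset (Fin d → ZMod p)).card = p ^ d := by
      rw [card_univ, Fintype.card_fun, ZMod.card, Fintype.card_fin]
    rw [← h8, Finset.card_eq_sum_card_fiberwise (f := fun x : Fin d → ZMod p => (aeval x F, aeval x G))
      (s := univ) (t := (univ : Finset (ZMod p × ZMod p))) (fun x _ => by simp)]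
    refine Finset.sum_congr rfl fun q _ => ?_
    rw [hN]
    simp only
    congr 1
    ext x
    rw [mem_filter, mem_filter]
    constructor
    · rintro ⟨-, h9, h10⟩
      exact ⟨mem_univ _, Prod.ext h9 h10⟩
    · rintro ⟨-, h9⟩
      refine ⟨mem_univ _, ?_, ?_⟩
      · rw [← h9]
      · rw [← h9]
  rw [h5, h7] at h6
  have h8 : (U.card : ℝ) * N r s ≤ (D.natAbs * D'.natAbs : ℕ) * (p : ℝ) ^ d := by exact_mod_cast h6
  rw [hUc] at h8
  have h9 : ((univ.filter (fun x : Fin d → ZMod p => aeval x F = r ∧ aeval x G = s)).card : ℝ) = N r s := by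
    rw [hN]
  rw [h9]
  have h10 : (p : ℝ) ^ 2 ≤ 4 * ((p : ℝ) - 1) ^ 2 := by nlinarith
  have h11 : (0 : ℝ) ≤ N r s := Nat.cast_nonneg _
  calc (p : ℝ) ^ 2 * N r s ≤ (4 * ((p : ℝ) - 1) ^ 2) * N r s := mul_le_mul_of_nonneg_right h10 h11
    _ = 4 * (((p : ℝ) - 1) ^ 2 * N r s) := by ring
    _ ≤ 4 * ((D.natAbs * D'.natAbs : ℕ) * (p : ℝ) ^ d) := by linarith
    _ = _ := by ring

end

/-- record neighbourhoods around the values of polynomials of weight one -/
theorem weight_main {ι : Type} [Fintype ι] (d : ℕ) (F : ι → MvPolynomial (Fin d) ℤ)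
    (hw : ∀ j, ∃ w : Fin d → ℤ, ∀ e ∈ (F j).support, ∑ i, w i * (e i : ℤ) = 1)
    (hpair : ∀ i j, i ≠ j → ∃ w : Fin d → ℤ, ∃ D : ℤ, D ≠ 0 ∧
      (∀ e ∈ (F i).support, ∑ l, w l * (e l : ℤ) = D) ∧ ∀ e ∈ (F j).support, ∑ l, w l * (e l : ℤ) = 0)
    (u : Fin d → ℤ) (hu : ∀ j, |eval u (F j)| = 1) :
    ∃ c : ℝ, 0 < c ∧ ∃ Z₀ : ℝ, ∀ Z : ℕ, Z₀ ≤ Z → ∀ M : Fin d → ℤ, ∃ x : Fin d → ℤ,
      (∀ i, M i < x i ∧ x i ≤ M i + Z) ∧ ∀ j, ∀ n : ℤ, |(n : ℝ) - eval x (F j)| ≤ c * ff Z →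
        ∃ p : ℕ, p.Prime ∧ (p : ℝ) ≤ (Z : ℝ) ^ (1 / 10 : ℝ) ∧ (p : ℤ) ∣ n := by
  choose w hw using hw
  have hpair' : ∀ i j, ∃ w : Fin d → ℤ, ∃ D : ℤ, i ≠ j → (D ≠ 0 ∧
      (∀ e ∈ (F i).support, ∑ l, w l * (e l : ℤ) = D) ∧
      ∀ e ∈ (F j).support, ∑ l, w l * (e l : ℤ) = 0) := by
    intro i j
    by_cases h : i = j
    · exact ⟨0, 0, fun h' => absurd h h'⟩
    · obtain ⟨w, D, h1⟩ := hpair i j h
      exact ⟨w, D, fun _ => h1⟩
  choose v D hvD using hpair'
  obtain ⟨K, hK⟩ : ∃ K : ℝ, K = ∑ j : ι, (((F j).totalDegree : ℝ) + 2) +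
      ∑ i : ι, ∑ j : ι, 4 * (((D i j).natAbs * (D j i).natAbs : ℕ) : ℝ) := ⟨_, rfl⟩
  have hs1 : 0 ≤ ∑ j : ι, (((F j).totalDegree : ℝ) + 2) := Finset.sum_nonneg fun j _ => by positivity
  have hs2 : 0 ≤ ∑ i : ι, ∑ j : ι, 4 * (((D i j).natAbs * (D j i).natAbs : ℕ) : ℝ) :=
    Finset.sum_nonneg fun i _ => Finset.sum_nonneg fun j _ => by positivity
  refine criterion d F (fun _ => 0) 0 u ?_ (fun j => by rw [sub_zero]; exact hu j) K (1 / 2)
    (by norm_num) ?_ ?_
  · intro j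
    rw [eval_zero, constantCoeff_eq]
    by_contra h
    have h1 : (0 : Fin d →₀ ℕ) ∈ (F j).support := mem_support_iff.2 h
    have h2 := hw j 0 h1
    simp at h2
  · intro p hp j r hr
    have : Fact p.Prime := ⟨hp⟩
    have hp0 : (0 : ℝ) < p := by exact_mod_cast hp.pos
    have hp1 : (1 : ℝ) ≤ p := by exact_mod_cast hp.one_lt.le
    have hr' : r ≠ 0 := by
      intro h
      apply hr
      rw [h]
      simp
    have h1 := weight_U (p := p) (F j) (w j) (hw j) u (hu j) r hr'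
    rw [Nat.card_eq_fintype_card, Fintype.card_subtype]
    have h2 : |(p : ℝ) * ((univ.filter (fun x : Fin d → ZMod p => aeval x (F j) = r)).card : ℝ) -
        (p : ℝ) ^ d| ≤ (((F j).totalDegree : ℝ) + 2) * (p : ℝ) ^ d / p := by
      rw [le_div_iff₀ hp0]
      exact h1
    refine le_trans ?_ (h2.trans ?_)
    · exact le_rfl
    · have h3 : (1 : ℝ) / p ≤ (p : ℝ) ^ (-(1 / 2) : ℝ) := by
        have : (1 : ℝ) / p = (p : ℝ) ^ (-1 : ℝ) := by
          rw [Real.rpow_neg_one, one_div]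
        rw [this]
        exact Real.rpow_le_rpow_of_exponent_le hp1 (by norm_num)
      have h4 : ((F j).totalDegree : ℝ) + 2 ≤ K := by
        have h5 : ((F j).totalDegree : ℝ) + 2 ≤ ∑ j : ι, (((F j).totalDegree : ℝ) + 2) :=
          Finset.single_le_sum (f := fun j : ι => (((F j).totalDegree : ℝ) + 2))
          (fun _ _ => by positivity) (mem_univ j)
        rw [hK]
        linarith
      calc (((F j).totalDegree : ℝ) + 2) * (p : ℝ) ^ d / p =
            (((F j).totalDegree : ℝ) + 2) * (p : ℝ) ^ d * (1 / p) := by ring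
        _ ≤ K * (p : ℝ) ^ d * (p : ℝ) ^ (-(1 / 2) : ℝ) := by
            have hK0 : 0 ≤ K := le_trans (by positivity) h4
            apply mul_le_mul _ h3 (by positivity) (by positivity)
            exact mul_le_mul_of_nonneg_right h4 (by positivity)
  · intro p hp i j hij r s hr hs
    have : Fact p.Prime := ⟨hp⟩
    have hr' : r ≠ 0 := by
      intro h
      apply hr
      rw [h]
      simp
    have hs' : s ≠ 0 := by
      intro h
      apply hs
      rw [h]
      simp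
    obtain ⟨a1, a2, a3⟩ := hvD i j hij
    obtain ⟨b1, b2, b3⟩ := hvD j i hij.symm
    have h1 := weight_pair (p := p) (F i) (F j) (v i j) (v j i) (D i j) (D j i) a1 b1 a2 a3 b2 b3 r s hr' hs'
    rw [Nat.card_eq_fintype_card, Fintype.card_subtype]
    refine le_trans ?_ (h1.trans ?_)
    · exact le_rfl
    · apply mul_le_mul_of_nonneg_right _ (by positivity)
      have a4 := Finset.single_le_sum (f := fun j : ι => 4 * (((D i j).natAbs * (D j i).natAbs : ℕ) : ℝ))
        (fun _ _ => by positivity) (mem_univ j)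
      have a5 := Finset.single_le_sum (f := fun i : ι => ∑ j : ι,
        4 * (((D i j).natAbs * (D j i).natAbs : ℕ) : ℝ))
        (fun i _ => Finset.sum_nonneg fun j _ => by positivity) (mem_univ i)
      have a6 := a4.trans a5
      rw [hK]
      linarith

end Pool.Agent.Y837.SV
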