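import Pool.Agent.Y837.SV.Crit3
import Pool.Agent.Y837.SV.WtOne

set_option autoImplicit false
set_option linter.unusedSectionVars false
set_option linter.unusedVariables false

/-! # Families of polynomials of weight one, without local conditions (project SV, helper837) -/

namespace Pool.Agent.Y837.SV

open Finset Filter MvPolynomial
open Pool.Agent.H256R2.SC (ff)

open scoped Classical

section

variable {d p : ℕ} [Fact p.Prime]

/-- the number of the zeros modulo `p` -/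
theorem zero_count2 (F : MvPolynomial (Fin d) ℤ) (u : Fin d → ℤ) (hu : ¬ (p : ℤ) ∣ eval u F) :
    ((univ.filter (fun x : Fin d → ZMod p => aeval x F = 0)).card : ℝ) * p ≤
      F.totalDegree * (p : ℝ) ^ d := by
  have hp := (Fact.out : p.Prime)
  have hpR : (0 : ℝ) < p := by exact_mod_cast hp.pos
  set G : MvPolynomial (Fin d) (ZMod p) := map (Int.castRingHom (ZMod p)) F with hG
  have hGe : ∀ x : Fin d → ZMod p, eval x G = aeval x F := by
    intro x
    rw [hG, eval_map, aeval_def]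
    rfl
  have hG0 : G ≠ 0 := by
    intro h
    have h1 : aeval (fun i => ((u i : ℤ) : ZMod p)) F = 0 := by
      rw [← hGe, h, map_zero]
    have h2 : (Int.castRingHom (ZMod p)) (eval u F) = aeval (fun i => ((u i : ℤ) : ZMod p)) F := by
      rw [aeval_def, eval, coe_eval₂Hom, hom_eval₂]
      congr 1
    rw [h1] at h2
    have h3 : ((eval u F : ℤ) : ZMod p) = 0 := h2
    rw [ZMod.intCast_zmod_eq_zero_iff_dvd] at h3
    exact hu h3
  have hdeg : G.totalDegree ≤ F.totalDegree := by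
    rw [hG]
    exact Finset.sup_mono (support_map_subset _ _)
  have h1 := schwartz_zippel_totalDegree hG0 (univ : Finset (ZMod p))
  rw [card_univ, ZMod.card] at h1
  have h2 : (Fintype.piFinset (fun _ : Fin d => (univ : Finset (ZMod p)))).filter (fun f => eval f G = 0) =
      univ.filter (fun x : Fin d → ZMod p => aeval x F = 0) := by
    ext x
    simp [hGe]
  have hpQ : (0 : ℚ≥0) < p := by exact_mod_cast hp.pos
  rw [div_le_div_iff₀ (by positivity) hpQ] at h1
  have h3 : (((Fintype.piFinset (fun _ : Fin d => (univ : Finset (ZMod p)))).filter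
      (fun f => eval f G = 0)).card) * p ≤ G.totalDegree * p ^ d := by
    exact_mod_cast h1
  rw [h2] at h3
  have h4 : (univ.filter (fun x : Fin d → ZMod p => aeval x F = 0)).card * p ≤
      F.totalDegree * p ^ d := h3.trans (Nat.mul_le_mul_right _ hdeg)
  exact_mod_cast h4

theorem weight_U2 (F : MvPolynomial (Fin d) ℤ) (w : Fin d → ℤ)
    (hw : ∀ e ∈ F.support, ∑ i, w i * (e i : ℤ) = 1) (u : Fin d → ℤ) (hu : ¬ (p : ℤ) ∣ eval u F)
    (r : ZMod p) (hr : r ≠ 0) :
    |(p : ℝ) * ((univ.filter (fun x : Fin d → ZMod p => aeval x F = r)).card : ℝ) - (p : ℝ) ^ d| * p ≤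
      ((F.totalDegree : ℝ) + 2) * (p : ℝ) ^ d := by
  have hp := (Fact.out : p.Prime)
  have hp2 : (2 : ℝ) ≤ p := by exact_mod_cast hp.two_le
  obtain ⟨N, hN⟩ : ∃ N : ZMod p → ℕ, N = fun r =>
    (univ.filter (fun x : Fin d → ZMod p => aeval x F = r)).card := ⟨_, rfl⟩
  have hfib : ∀ s : ZMod p, s ≠ 0 → N s = N 1 := by
    intro s hs
    rw [hN]
    simp only
    have key : ∀ (t : ZMod p) (ht : t ≠ 0) (x : Fin d → ZMod p),
        aeval (fun i => x i * t ^ (w i)) F = t * aeval x F := by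
      intro t ht x
      rw [scale_aeval F w 1 hw x t ht, zpow_one]
    refine Finset.card_bij' (fun x _ => fun i => x i * s⁻¹ ^ (w i)) (fun x _ => fun i => x i * s ^ (w i))
      ?_ ?_ ?_ ?_
    · intro x hx
      rw [mem_filter] at hx ⊢
      refine ⟨mem_univ _, ?_⟩
      rw [key _ (inv_ne_zero hs), hx.2, inv_mul_cancel₀ hs]
    · intro x hx
      rw [mem_filter] at hx ⊢
      refine ⟨mem_univ _, ?_⟩
      rw [key _ hs, hx.2, mul_one]
    · intro x _
      funext i
      show x i * s⁻¹ ^ w i * s ^ w i = x i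
      rw [inv_zpow, mul_assoc, inv_mul_cancel₀ (zpow_ne_zero _ hs), mul_one]
    · intro x _
      funext i
      show x i * s ^ w i * s⁻¹ ^ w i = x i
      rw [inv_zpow, mul_assoc, mul_inv_cancel₀ (zpow_ne_zero _ hs), mul_one]
  have hsum : N 0 + (p - 1) * N 1 = p ^ d := by
    have h1 := sum_fib (p := p) (fun x : Fin d → ZMod p => aeval x F)
    rw [← Finset.add_sum_erase univ _ (mem_univ (0 : ZMod p))] at h1
    have h2 : ∑ s ∈ univ.erase (0 : ZMod p), (univ.filter
        (fun x : Fin d → ZMod p => aeval x F = s)).card = (p - 1) * N 1 := by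
      have h3 : ∀ s ∈ univ.erase (0 : ZMod p), (univ.filter
          (fun x : Fin d → ZMod p => aeval x F = s)).card = N 1 := by
        intro s hs
        have := hfib s (ne_of_mem_erase hs)
        rw [← this, hN]
      rw [Finset.sum_congr rfl h3, Finset.sum_const,
        card_erase_of_mem (mem_univ _), card_univ, ZMod.card, smul_eq_mul]
    rw [h2] at h1
    have h4 : N 0 = (univ.filter (fun x : Fin d → ZMod p => aeval x F = 0)).card := by rw [hN]
    rw [h4]
    exact h1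
  have h2R : (N 0 : ℝ) * p ≤ F.totalDegree * (p : ℝ) ^ d := by
    have := zero_count2 (p := p) F u hu
    rw [hN]
    exact this
  have h1R : (N 0 : ℝ) + ((p : ℝ) - 1) * N 1 = (p : ℝ) ^ d := by
    have h1 : ((N 0 + (p - 1) * N 1 : ℕ) : ℝ) = ((p ^ d : ℕ) : ℝ) := by rw [hsum]
    push_cast [Nat.cast_sub hp.one_lt.le] at h1
    exact h1
  have hN1 : (0 : ℝ) ≤ N 1 := Nat.cast_nonneg _
  have hN00 : (0 : ℝ) ≤ N 0 := Nat.cast_nonneg _
  have h3R : (N 1 : ℝ) * p ≤ 2 * (p : ℝ) ^ d := by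
    have : (p : ℝ) ≤ 2 * ((p : ℝ) - 1) := by linarith
    calc (N 1 : ℝ) * p ≤ N 1 * (2 * ((p : ℝ) - 1)) := mul_le_mul_of_nonneg_left this hN1
      _ = 2 * (((p : ℝ) - 1) * N 1) := by ring
      _ ≤ 2 * (p : ℝ) ^ d := by linarith
  have h4 : (((univ.filter (fun x : Fin d → ZMod p => aeval x F = r)).card : ℕ) : ℝ) = N 1 := by
    have := hfib r hr
    rw [← this, hN]
  rw [h4]
  have h5 : (p : ℝ) * N 1 - (p : ℝ) ^ d = (N 1 : ℝ) - N 0 := by
    rw [← h1R]; ring
  rw [h5]
  have h6 : |(N 1 : ℝ) - N 0| ≤ N 1 + N 0 := by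
    rw [abs_le]
    constructor <;> linarith
  calc |(N 1 : ℝ) - N 0| * p ≤ (N 1 + N 0) * p := mul_le_mul_of_nonneg_right h6 (by linarith)
    _ = N 1 * p + N 0 * p := by ring
    _ ≤ 2 * (p : ℝ) ^ d + F.totalDegree * (p : ℝ) ^ d := by linarith
    _ = ((F.totalDegree : ℝ) + 2) * (p : ℝ) ^ d := by ring


end

/-- record neighbourhoods around the values of polynomials of weight one -/
theorem weight_main3 {ι : Type} [Fintype ι] (d : ℕ) (F : ι → MvPolynomial (Fin d) ℤ)
    (hF0 : ∀ j, F j ≠ 0)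
    (hw : ∀ j, ∃ w : Fin d → ℤ, ∀ e ∈ (F j).support, ∑ i, w i * (e i : ℤ) = 1)
    (hpair : ∀ i j, i ≠ j → ∃ w : Fin d → ℤ, ∃ D : ℤ, D ≠ 0 ∧
      (∀ e ∈ (F i).support, ∑ l, w l * (e l : ℤ) = D) ∧ ∀ e ∈ (F j).support, ∑ l, w l * (e l : ℤ) = 0) :
    ∃ c : ℝ, 0 < c ∧ ∃ Z₀ : ℝ, ∀ Z : ℕ, Z₀ ≤ Z → ∀ M : Fin d → ℤ, ∃ x : Fin d → ℤ,
      (∀ i, M i < x i ∧ x i ≤ M i + Z) ∧ ∀ j, ∀ n : ℤ, |(n : ℝ) - eval x (F j)| ≤ c * ff Z →
        ∃ p : ℕ, p.Prime ∧ (p : ℝ) ≤ (Z : ℝ) ^ (1 / 10 : ℝ) ∧ (p : ℤ) ∣ n := by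
  choose w hw using hw
  have hpair' : ∀ i j, ∃ w : Fin d → ℤ, ∃ D : ℤ, i ≠ j → (D ≠ 0 ∧
      (∀ e ∈ (F i).support, ∑ l, w l * (e l : ℤ) = D) ∧
      ∀ e ∈ (F j).support, ∑ l, w l * (e l : ℤ) = 0) := by
    intro i j
    by_cases h : i = j
    · exact ⟨0, 0, fun h' => absurd h h'⟩
    · obtain ⟨w, D, h1⟩ := hpair i j h
      exact ⟨w, D, fun _ => h1⟩
  choose v D hvD using hpair'
  obtain ⟨K, hK⟩ : ∃ K : ℝ, K = ∑ j : ι, (((F j).totalDegree : ℝ) + 2) +
      ∑ i : ι, ∑ j : ι, 4 * (((D i j).natAbs * (D j i).natAbs : ℕ) : ℝ) := ⟨_, rfl⟩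
  have hs1 : 0 ≤ ∑ j : ι, (((F j).totalDegree : ℝ) + 2) := Finset.sum_nonneg fun j _ => by positivity
  have hs2 : 0 ≤ ∑ i : ι, ∑ j : ι, 4 * (((D i j).natAbs * (D j i).natAbs : ℕ) : ℝ) :=
    Finset.sum_nonneg fun i _ => Finset.sum_nonneg fun j _ => by positivity
  have hcc : ∀ j, constantCoeff (F j) = 0 := by
    intro j
    rw [constantCoeff_eq]
    by_contra h
    have h1 : (0 : Fin d →₀ ℕ) ∈ (F j).support := mem_support_iff.2 h
    have h2 := hw j 0 h1
    simp at h2
  obtain ⟨u, hu⟩ := avoid d F (fun _ => 0) (fun j => by rw [map_zero]; exact hF0 j)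
  obtain ⟨B₀, hB₀⟩ : ∃ B₀ : ℕ, B₀ = ∑ j : ι, (eval u (F j)).natAbs := ⟨_, rfl⟩
  have hnd : ∀ p : ℕ, B₀ < p → ∀ j, ¬ (p : ℤ) ∣ eval u (F j) := by
    intro p hp j hdvd
    have h1 := Int.natAbs_dvd_natAbs.2 hdvd
    rw [Int.natAbs_natCast] at h1
    have h2 : 0 < (eval u (F j)).natAbs := Int.natAbs_pos.2 (hu j)
    have h3 := Nat.le_of_dvd h2 h1
    have h4 : (eval u (F j)).natAbs ≤ ∑ j : ι, (eval u (F j)).natAbs :=
      Finset.single_le_sum (f := fun j : ι => (eval u (F j)).natAbs) (fun _ _ => Nat.zero_le _) (mem_univ j)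
    omega
  refine crit3 d F ?_ (fun _ => {0}) ?_ B₀ K (1 / 2) (by norm_num) ?_ ?_
  · intro j c hc
    apply hF0 j
    have h1 := hcc j
    rw [hc, constantCoeff_C] at h1
    rw [hc, h1, map_zero]
  · intro j r hr B
    rw [mem_singleton] at hr
    obtain ⟨p, hp1, hp2⟩ := Nat.exists_infinite_primes (B + 1)
    refine ⟨p, hp2, by omega, 0, ?_⟩
    rw [hr, sub_zero, eval_zero, hcc]
    exact dvd_zero _
  · intro p hp hBp j r hr
    have : Fact p.Prime := ⟨hp⟩
    have hp0 : (0 : ℝ) < p := by exact_mod_cast hp.pos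
    have hp1 : (1 : ℝ) ≤ p := by exact_mod_cast hp.one_lt.le
    have hr' : r ≠ 0 := by
      intro h
      refine hr 0 (mem_singleton_self _) ?_
      rw [h]
      simp
    have h1 := weight_U2 (p := p) (F j) (w j) (hw j) u (hnd p hBp j) r hr'
    rw [Nat.card_eq_fintype_card, Fintype.card_subtype]
    have h2 : |(p : ℝ) * ((univ.filter (fun x : Fin d → ZMod p => aeval x (F j) = r)).card : ℝ) -
        (p : ℝ) ^ d| ≤ (((F j).totalDegree : ℝ) + 2) * (p : ℝ) ^ d / p := by
      rw [le_div_iff₀ hp0]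
      exact h1
    refine le_trans ?_ (h2.trans ?_)
    · exact le_rfl
    · have h3 : (1 : ℝ) / p ≤ (p : ℝ) ^ (-(1 / 2) : ℝ) := by
        have : (1 : ℝ) / p = (p : ℝ) ^ (-1 : ℝ) := by
          rw [Real.rpow_neg_one, one_div]
        rw [this]
        exact Real.rpow_le_rpow_of_exponent_le hp1 (by norm_num)
      have h4 : ((F j).totalDegree : ℝ) + 2 ≤ K := by
        have h5 : ((F j).totalDegree : ℝ) + 2 ≤ ∑ j : ι, (((F j).totalDegree : ℝ) + 2) :=
          Finset.single_le_sum (f := fun j : ι => (((F j).totalDegree : ℝ) + 2))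
          (fun _ _ => by positivity) (mem_univ j)
        rw [hK]
        linarith
      calc (((F j).totalDegree : ℝ) + 2) * (p : ℝ) ^ d / p =
            (((F j).totalDegree : ℝ) + 2) * (p : ℝ) ^ d * (1 / p) := by ring
        _ ≤ K * (p : ℝ) ^ d * (p : ℝ) ^ (-(1 / 2) : ℝ) := by
            have hK0 : 0 ≤ K := le_trans (by positivity) h4
            apply mul_le_mul _ h3 (by positivity) (by positivity)
            exact mul_le_mul_of_nonneg_right h4 (by positivity)
  · intro p hp hBp i j hij r s hr hs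
    have : Fact p.Prime := ⟨hp⟩
    have hr' : r ≠ 0 := by
      intro h
      refine hr 0 (mem_singleton_self _) ?_
      rw [h]
      simp
    have hs' : s ≠ 0 := by
      intro h
      refine hs 0 (mem_singleton_self _) ?_
      rw [h]
      simp
    obtain ⟨a1, a2, a3⟩ := hvD i j hij
    obtain ⟨b1, b2, b3⟩ := hvD j i hij.symm
    have h1 := weight_pair (p := p) (F i) (F j) (v i j) (v j i) (D i j) (D j i) a1 b1 a2 a3 b2 b3 r s hr' hs'
    rw [Nat.card_eq_fintype_card, Fintype.card_subtype]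
    refine le_trans ?_ (h1.trans ?_)
    · exact le_rfl
    · apply mul_le_mul_of_nonneg_right _ (by positivity)
      have a4 := Finset.single_le_sum (f := fun j : ι => 4 * (((D i j).natAbs * (D j i).natAbs : ℕ) : ℝ))
        (fun _ _ => by positivity) (mem_univ j)
      have a5 := Finset.single_le_sum (f := fun i : ι => ∑ j : ι,
        4 * (((D i j).natAbs * (D j i).natAbs : ℕ) : ℝ))
        (fun i _ => Finset.sum_nonneg fun j _ => by positivity) (mem_univ i)
      have a6 := a4.trans a5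
      rw [hK]
      linarith

end Pool.Agent.Y837.SV
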