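import Pool.Agent.H378R2.QG.Defs
import Pool.Agent.H256R2.SC.V1
import Pool.Agent.H256R2.SC.G1

set_option autoImplicit false
set_option linter.unusedSectionVars false

/-! # Counting points of a box in residue classes to several moduli (project SV, helper837) -/

namespace Pool.Agent.Y837.SV

open Finset
open Pool.Agent.H256R2.SC (crt_int)
open Pool.Agent.H256R2.SC.LG (count_Ioc)

open scoped Classical

/-- a product of numbers close to `Y` -/
theorem prod_near {ι : Type} (s : Finset ι) (a : ι → ℝ) (Y : ℝ) (hY : 1 ≤ Y)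
    (h : ∀ i ∈ s, |a i - Y| ≤ 1) :
    (0 ≤ ∏ i ∈ s, a i ∧ ∏ i ∈ s, a i ≤ (2 * Y) ^ s.card) ∧
    |∏ i ∈ s, a i - Y ^ s.card| ≤ s.card * ((2 * Y) ^ s.card / Y) := by
  induction s using Finset.induction_on with
  | empty => simp
  | insert j s hj ih =>
    obtain ⟨⟨i1, i2⟩, i3⟩ := ih (fun i hi => h i (mem_insert_of_mem hi))
    have hj' := abs_le.1 (h j (mem_insert_self j s))
    rw [prod_insert hj, card_insert_of_notMem hj]
    have hY0 : 0 < Y := by linarith
    have haj : 0 ≤ a j := by linarith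
    have haj2 : a j ≤ 2 * Y := by linarith
    refine ⟨⟨mul_nonneg haj i1, ?_⟩, ?_⟩
    · rw [pow_succ, mul_comm]
      exact mul_le_mul i2 haj2 haj (by positivity)
    · have e : a j * ∏ i ∈ s, a i - Y ^ (s.card + 1) =
          (a j - Y) * ∏ i ∈ s, a i + Y * (∏ i ∈ s, a i - Y ^ s.card) := by ring
      rw [e]
      have e1 : |(a j - Y) * ∏ i ∈ s, a i| ≤ (2 * Y) ^ s.card := by
        rw [abs_mul, abs_of_nonneg i1]
        calc |a j - Y| * ∏ i ∈ s, a i ≤ 1 * (2 * Y) ^ s.card :=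
              mul_le_mul (h j (mem_insert_self j s)) i2 i1 zero_le_one
          _ = _ := one_mul _
      have e2 : |Y * (∏ i ∈ s, a i - Y ^ s.card)| ≤ s.card * (2 * Y) ^ s.card := by
        rw [abs_mul, abs_of_pos hY0]
        calc Y * |∏ i ∈ s, a i - Y ^ s.card| ≤ Y * (s.card * ((2 * Y) ^ s.card / Y)) :=
              mul_le_mul_of_nonneg_left i3 hY0.le
          _ = s.card * (2 * Y) ^ s.card := by field_simp
      have e3 : ((s.card + 1 : ℕ) : ℝ) * ((2 * Y) ^ (s.card + 1) / Y) =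
          2 * ((s.card : ℝ) * (2 * Y) ^ s.card + (2 * Y) ^ s.card) := by
        push_cast
        rw [pow_succ]
        field_simp
      rw [e3]
      have e4 : 0 ≤ (s.card : ℝ) * (2 * Y) ^ s.card + (2 * Y) ^ s.card := by positivity
      have := abs_add_le ((a j - Y) * ∏ i ∈ s, a i) (Y * (∏ i ∈ s, a i - Y ^ s.card))
      linarith

/-- the residues (in `[0, p)`) of a vector -/
def res (m p : ℕ) (x : Fin m → ℤ) : Fin m → ℕ := fun j => (x j % (p : ℤ)).toNat

/-- the vector modulo `p` -/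
def red (m p : ℕ) (x : Fin m → ℤ) : Fin m → ZMod p := fun j => (x j : ZMod p)

theorem res_lt {m p : ℕ} (hp : 0 < p) (x : Fin m → ℤ) (j : Fin m) : res m p x j < p := by
  unfold res
  have h1 := Int.emod_lt_of_pos (x j) (show (0 : ℤ) < p by exact_mod_cast hp)
  have h2 := Int.emod_nonneg (x j) (show (p : ℤ) ≠ 0 by exact_mod_cast hp.ne')
  omega

theorem res_eq_iff {m p : ℕ} (hp : 0 < p) (x : Fin m → ℤ) (b : Fin m → ℕ) (hb : ∀ j, b j < p) :
    res m p x = b ↔ ∀ j, (p : ℤ) ∣ x j - b j := by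
  rw [funext_iff]
  refine forall_congr' fun j => ?_
  unfold res
  have h1 := Int.emod_lt_of_pos (x j) (show (0 : ℤ) < p by exact_mod_cast hp)
  have h2 := Int.emod_nonneg (x j) (show (p : ℤ) ≠ 0 by exact_mod_cast hp.ne')
  have h3 : ((b j : ℤ)) % (p : ℤ) = b j := Int.emod_eq_of_lt (by positivity) (by exact_mod_cast hb j)
  rw [← Int.emod_eq_emod_iff_emod_sub_eq_zero.trans (Int.dvd_iff_emod_eq_zero).symm, h3]
  omega

theorem red_res {m p : ℕ} (hp : 0 < p) (x : Fin m → ℤ) :
    (fun j => ((res m p x j : ℕ) : ZMod p)) = red m p x := by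
  funext j
  unfold res red
  have h2 := Int.emod_nonneg (x j) (show (p : ℤ) ≠ 0 by exact_mod_cast hp.ne')
  have h3 : (((x j % (p : ℤ)).toNat : ℤ) : ZMod p) = (x j : ZMod p) := by
    rw [Int.toNat_of_nonneg h2, ZMod.intCast_mod]
  rw [← h3]
  push_cast
  rfl

/-- the residue vectors (with entries in `[0, p)`) with the property `Q` -/
noncomputable def BB (m p : ℕ) (Q : (Fin m → ZMod p) → Prop) : Finset (Fin m → ℕ) :=
  (Fintype.piFinset fun _ => range p).filter (fun b => Q (fun j => ((b j : ℕ) : ZMod p)))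

theorem res_mem_BB {m p : ℕ} (hp : 0 < p) (Q : (Fin m → ZMod p) → Prop) (x : Fin m → ℤ) :
    res m p x ∈ BB m p Q ↔ Q (red m p x) := by
  unfold BB
  rw [mem_filter, Fintype.mem_piFinset, red_res hp]
  constructor
  · exact fun h => h.2
  · exact fun h => ⟨fun j => mem_range.2 (res_lt hp x j), h⟩

theorem BB_lt {m p : ℕ} {Q : (Fin m → ZMod p) → Prop} {b : Fin m → ℕ} (hb : b ∈ BB m p Q) (j : Fin m) :
    b j < p := by
  unfold BB at hb
  rw [mem_filter, Fintype.mem_piFinset] at hb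
  exact mem_range.1 (hb.1 j)

theorem card_BB_le (m p : ℕ) (Q : (Fin m → ZMod p) → Prop) : (BB m p Q).card ≤ p ^ m := by
  unfold BB
  refine (card_filter_le _ _).trans ?_
  rw [Fintype.card_piFinset]
  simp

theorem card_BB_eq (m p : ℕ) [NeZero p] (Q : (Fin m → ZMod p) → Prop) :
    (BB m p Q).card = (univ.filter Q).card := by
  refine Finset.card_bij' (fun b _ => fun j => ((b j : ℕ) : ZMod p)) (fun x _ => fun j => (x j).val)
    ?_ ?_ ?_ ?_
  · intro b hb
    unfold BB at hb
    rw [mem_filter] at hb ⊢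
    exact ⟨mem_univ _, hb.2⟩
  · intro x hx
    rw [mem_filter] at hx
    unfold BB
    rw [mem_filter, Fintype.mem_piFinset]
    refine ⟨fun j => mem_range.2 (ZMod.val_lt _), ?_⟩
    have e : (fun j => (((x j).val : ℕ) : ZMod p)) = x := by
      funext j
      exact ZMod.natCast_zmod_val _
    rw [e]
    exact hx.2
  · intro b hb
    funext j
    exact ZMod.val_cast_of_lt (BB_lt hb j)
  · intro x _
    funext j
    exact ZMod.natCast_zmod_val _

/-- the number of the points of a product set whose reductions have the properties `Q i` -/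
theorem count_event {ι : Type} (m : ℕ) (S : Finset ι) (p : ι → ℕ)
    (hp : ∀ i ∈ S, (p i).Prime) (hinj : ∀ i ∈ S, ∀ j ∈ S, i ≠ j → p i ≠ p j)
    (Q : ∀ i, (Fin m → ZMod (p i)) → Prop) (A : Fin m → Finset ℤ) (Y : ℝ)
    (hY : 1 ≤ Y / ((∏ i ∈ S, p i : ℕ) : ℝ))
    (hA : ∀ j, ∀ c : ℤ, |(((A j).filter (fun x => ((∏ i ∈ S, p i : ℕ) : ℤ) ∣ x - c)).card : ℝ) -
      Y / ((∏ i ∈ S, p i : ℕ) : ℝ)| ≤ 1) :
    |(((Fintype.piFinset A).filter (fun x => ∀ i ∈ S, Q i (red m (p i) x))).card : ℝ) -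
      Y ^ m * ∏ i ∈ S, (((BB m (p i) (Q i)).card : ℝ) / (p i : ℝ) ^ m)| ≤
      m * 2 ^ m * Y ^ m * (((∏ i ∈ S, p i : ℕ) : ℝ) / Y) := by
  set q : ℕ := ∏ i ∈ S, p i with hq
  have hq0 : 0 < q := Finset.prod_pos fun i hi => (hp i hi).pos
  have hqR : (0 : ℝ) < q := by exact_mod_cast hq0
  have hY0 : 0 < Y := by
    by_contra h
    push Not at h
    have : Y / q ≤ 0 := div_nonpos_of_nonpos_of_nonneg h hqR.le
    linarith
  have hcop : ∀ i ∈ S, ∀ j ∈ S, i ≠ j → IsCoprime ((p i : ℕ) : ℤ) ((p j : ℕ) : ℤ) :=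
    fun i hi j hj hij => Nat.isCoprime_iff_coprime.mpr
      ((Nat.coprime_primes (hp i hi) (hp j hj)).2 (hinj i hi j hj hij))
  have hqdvd : ∀ y : ℤ, (∀ i ∈ S, (p i : ℤ) ∣ y) ↔ (q : ℤ) ∣ y := by
    intro y
    constructor
    · intro h
      have : ((q : ℕ) : ℤ) = ∏ i ∈ S, ((p i : ℕ) : ℤ) := by rw [hq]; push_cast; rfl
      rw [this]
      exact Finset.prod_dvd_of_coprime (fun i hi j hj hij => hcop i hi j hj hij) h
    · intro h i hi
      refine dvd_trans ?_ h
      have : p i ∣ q := Finset.dvd_prod_of_mem _ hi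
      exact_mod_cast this
  set F := (Fintype.piFinset A).filter (fun x => ∀ i ∈ S, Q i (red m (p i) x)) with hF
  set τ : (Fin m → ℤ) → (∀ i ∈ S, Fin m → ℕ) := fun x i _ => res m (p i) x with hτ
  have hmaps : ∀ x ∈ F, τ x ∈ S.pi (fun i => BB m (p i) (Q i)) := by
    intro x hx
    rw [hF, mem_filter] at hx
    rw [Finset.mem_pi]
    intro i hi
    exact (res_mem_BB (hp i hi).pos (Q i) x).2 (hx.2 i hi)
  have hcard := Finset.card_eq_sum_card_fiberwise hmaps
  -- the classes
  have hc : ∀ b : (∀ i ∈ S, Fin m → ℕ), ∃ c : Fin m → ℤ, ∀ j, ∀ i (hi : i ∈ S),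
      (p i : ℤ) ∣ c j - (b i hi j : ℤ) := by
    intro b
    have h1 : ∀ j, ∃ c : ℤ, ∀ i ∈ S, (p i : ℤ) ∣ c - (if h : i ∈ S then (b i h j : ℤ) else 0) :=
      fun j => crt_int S (fun i => ((p i : ℕ) : ℤ)) hcop _
    choose c hc using h1
    refine ⟨c, fun j i hi => ?_⟩
    have := hc j i hi
    rwa [dif_pos hi] at this
  choose c hc using hc
  have hfib : ∀ b ∈ S.pi (fun i => BB m (p i) (Q i)), F.filter (fun x => τ x = b) =
      Fintype.piFinset (fun j => (A j).filter (fun x => (q : ℤ) ∣ x - c b j)) := by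
    intro b hb
    rw [Finset.mem_pi] at hb
    ext x
    simp only [hF, Finset.mem_filter, Fintype.mem_piFinset]
    have hres : τ x = b ↔ ∀ i (hi : i ∈ S), ∀ j, (p i : ℤ) ∣ x j - (b i hi j : ℤ) := by
      constructor
      · intro h i hi
        have h1 : res m (p i) x = b i hi := by rw [← h]
        exact (res_eq_iff (hp i hi).pos x (b i hi) (fun j => BB_lt (hb i hi) j)).1 h1
      · intro h
        funext i hi
        exact (res_eq_iff (hp i hi).pos x (b i hi) (fun j => BB_lt (hb i hi) j)).2 (h i hi)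
    constructor
    · rintro ⟨⟨h1, h2⟩, h3⟩ j
      refine ⟨h1 j, (hqdvd _).1 fun i hi => ?_⟩
      have h4 := dvd_sub (hres.1 h3 i hi j) (hc b j i hi)
      have e : x j - (b i hi j : ℤ) - (c b j - (b i hi j : ℤ)) = x j - c b j := by ring
      rwa [e] at h4
    · intro h
      have h3 : τ x = b := by
        rw [hres]
        intro i hi j
        have h4 := dvd_add ((hqdvd _).2 (h j).2 i hi) (hc b j i hi)
        have e : x j - c b j + (c b j - (b i hi j : ℤ)) = x j - (b i hi j : ℤ) := by ring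
        rwa [e] at h4
      refine ⟨⟨fun j => (h j).1, fun i hi => ?_⟩, h3⟩
      rw [← res_mem_BB (hp i hi).pos (Q i) x]
      have h4 : res m (p i) x = b i hi := by rw [← h3]
      rw [h4]
      exact hb i hi
  have h1 : (F.card : ℝ) = ∑ b ∈ S.pi (fun i => BB m (p i) (Q i)),
      ∏ j : Fin m, (((A j).filter (fun x => (q : ℤ) ∣ x - c b j)).card : ℝ) := by
    rw [hcard]
    push_cast
    refine Finset.sum_congr rfl fun b hb => ?_
    rw [hfib b hb, Fintype.card_piFinset]
    push_cast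
    rfl
  have h2 : Y ^ m * ∏ i ∈ S, (((BB m (p i) (Q i)).card : ℝ) / (p i : ℝ) ^ m) =
      ∑ b ∈ S.pi (fun i => BB m (p i) (Q i)), (Y / q) ^ m := by
    rw [Finset.sum_const, Finset.card_pi, nsmul_eq_mul, Finset.prod_div_distrib,
      Finset.prod_pow, hq]
    push_cast
    rw [div_pow]
    ring
  rw [h1, h2, ← Finset.sum_sub_distrib]
  refine (Finset.abs_sum_le_sum_abs _ _).trans ?_
  have h3 : ∀ b ∈ S.pi (fun i => BB m (p i) (Q i)),
      |∏ j : Fin m, (((A j).filter (fun x => (q : ℤ) ∣ x - c b j)).card : ℝ) - (Y / q) ^ m| ≤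
      m * ((2 * (Y / q)) ^ m / (Y / q)) := by
    intro b _
    have h4 := (prod_near (univ : Finset (Fin m))
      (fun j => (((A j).filter (fun x => (q : ℤ) ∣ x - c b j)).card : ℝ)) (Y / q) hY
      (fun j _ => hA j _)).2
    simpa using h4
  refine (Finset.sum_le_sum h3).trans ?_
  rw [Finset.sum_const, Finset.card_pi, nsmul_eq_mul]
  have h4 : ((∏ i ∈ S, (BB m (p i) (Q i)).card : ℕ) : ℝ) ≤ (q : ℝ) ^ m := by
    rw [hq]
    have : ∏ i ∈ S, (BB m (p i) (Q i)).card ≤ (∏ i ∈ S, p i) ^ m := by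
      rw [← Finset.prod_pow]
      exact Finset.prod_le_prod' fun i _ => card_BB_le _ _ _
    exact_mod_cast this
  calc ((∏ i ∈ S, (BB m (p i) (Q i)).card : ℕ) : ℝ) * (m * ((2 * (Y / q)) ^ m / (Y / q)))
      ≤ (q : ℝ) ^ m * (m * ((2 * (Y / q)) ^ m / (Y / q))) :=
        mul_le_mul_of_nonneg_right h4 (by positivity)
    _ = m * 2 ^ m * Y ^ m * (q / Y) := by
        rw [mul_pow, div_pow]
        field_simp

/-- counting the integers of an interval in a class mod `P` and a class mod `q` -/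
theorem count_two' (M : ℤ) (Z : ℕ) (P q : ℕ) (hP : 0 < P) (hq : 0 < q)
    (hc : Nat.Coprime P q) (b r : ℤ) :
    |((((Ioc M (M + Z)).filter (fun x => (P : ℤ) ∣ x - b)).filter (fun x => (q : ℤ) ∣ x - r)).card : ℝ) -
      ((Z : ℝ) / P) / q| ≤ 1 := by
  have hcop : IsCoprime (P : ℤ) (q : ℤ) := Nat.isCoprime_iff_coprime.mpr hc
  obtain ⟨u, v, huv⟩ := hcop
  set c : ℤ := b + P * u * (r - b) with hcdef
  have h1 : (((Ioc M (M + Z)).filter (fun x => (P : ℤ) ∣ x - b)).filter (fun x => (q : ℤ) ∣ x - r)) =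
      (Ioc M (M + Z)).filter (fun x => ((P * q : ℕ) : ℤ) ∣ x - c) := by
    rw [Finset.filter_filter]
    apply Finset.filter_congr
    intro x _
    push_cast
    constructor
    · rintro ⟨h2, h3⟩
      apply IsCoprime.mul_dvd (Nat.isCoprime_iff_coprime.mpr hc)
      · have e : x - c = (x - b) - P * (u * (r - b)) := by rw [hcdef]; ring
        rw [e]
        exact dvd_sub h2 (dvd_mul_right _ _)
      · have e : x - c = (x - r) + q * (v * (r - b)) := by
          rw [hcdef]
          linear_combination (-(r - b)) * huv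
        rw [e]
        exact dvd_add h3 (dvd_mul_right _ _)
    · intro h2
      have hP' : (P : ℤ) ∣ x - c := (dvd_mul_right _ _).trans h2
      have hq' : (q : ℤ) ∣ x - c := (dvd_mul_left _ _).trans h2
      constructor
      · have e : x - b = (x - c) + P * (u * (r - b)) := by rw [hcdef]; ring
        rw [e]
        exact dvd_add hP' (dvd_mul_right _ _)
      · have e : x - r = (x - c) - q * (v * (r - b)) := by
          rw [hcdef]
          linear_combination (r - b) * huv
        rw [e]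
        exact dvd_sub hq' (dvd_mul_right _ _)
  rw [h1]
  have h2 := count_Ioc M (M + Z) (by omega) (P * q) (Nat.mul_pos hP hq) c
  have e : ((Z : ℝ) / P) / q = ((((M + Z : ℤ) : ℝ)) - M) / ((P * q : ℕ) : ℝ) := by
    push_cast
    rw [div_div]
    congr 1
    ring
  rw [e]
  exact h2

end Pool.Agent.Y837.SV
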