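import Pool.Agent.Y837.SV.Gen2
import Pool.Agent.H226R2.ShanksGap

set_option autoImplicit false
set_option linter.unusedVariables false

/-! # From record gaps to first occurrences (project SV, helper837) -/

namespace Pool.Agent.Y837.SV

open Filter
open Pool.Agent.H256R2.SC (ff)

/-- the record scale is eventually increasing -/
theorem ff_mono : ∃ X₁ : ℝ, ∀ x y : ℝ, X₁ ≤ x → x ≤ y → ff x ≤ ff y := by
  refine ⟨Real.exp (Real.exp (Real.exp (Real.exp 1))), fun x y hx hxy => ?_⟩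
  have hx0 : 0 < x := lt_of_lt_of_le (Real.exp_pos _) hx
  have a1 : Real.exp (Real.exp (Real.exp 1)) ≤ Real.log x := by
    rw [← Real.log_exp (Real.exp (Real.exp (Real.exp 1)))]
    exact Real.log_le_log (Real.exp_pos _) hx
  have a1p : 0 < Real.log x := lt_of_lt_of_le (Real.exp_pos _) a1
  have a2 : Real.exp (Real.exp 1) ≤ Real.log (Real.log x) := by
    rw [← Real.log_exp (Real.exp (Real.exp 1))]
    exact Real.log_le_log (Real.exp_pos _) a1
  have a2p : 0 < Real.log (Real.log x) := lt_of_lt_of_le (Real.exp_pos _) a2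
  have a3 : Real.exp 1 ≤ Real.log (Real.log (Real.log x)) := by
    rw [← Real.log_exp (Real.exp 1)]
    exact Real.log_le_log (Real.exp_pos _) a2
  have a3p : 0 < Real.log (Real.log (Real.log x)) := lt_of_lt_of_le (Real.exp_pos _) a3
  have a4 : 1 ≤ Real.log (Real.log (Real.log (Real.log x))) := by
    rw [← Real.log_exp 1]
    exact Real.log_le_log (Real.exp_pos _) a3
  have b1 : Real.log x ≤ Real.log y := Real.log_le_log hx0 hxy
  have b2 : Real.log (Real.log x) ≤ Real.log (Real.log y) := Real.log_le_log a1p b1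
  have b3 : Real.log (Real.log (Real.log x)) ≤ Real.log (Real.log (Real.log y)) :=
    Real.log_le_log a2p b2
  have b4 : Real.log (Real.log (Real.log (Real.log x))) ≤ Real.log (Real.log (Real.log (Real.log y))) :=
    Real.log_le_log a3p b3
  have hee : Real.exp 1 ≤ Real.exp (Real.exp 1) := by
    apply Real.exp_le_exp.2
    linarith [Real.add_one_le_exp (1 : ℝ)]
  have h : Real.log (Real.log (Real.log y)) / Real.log (Real.log y) ≤
      Real.log (Real.log (Real.log x)) / Real.log (Real.log x) :=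
    Real.log_div_self_antitoneOn (by simpa using hee.trans a2) (by simpa using (hee.trans a2).trans b2) b2
  have hb3p : 0 < Real.log (Real.log (Real.log y)) := lt_of_lt_of_le a3p b3
  have hb2p : 0 < Real.log (Real.log y) := lt_of_lt_of_le a2p b2
  have h' : Real.log (Real.log x) / Real.log (Real.log (Real.log x)) ≤
      Real.log (Real.log y) / Real.log (Real.log (Real.log y)) := by
    rw [div_le_div_iff₀ hb2p a2p] at h
    rw [div_le_div_iff₀ a3p hb3p]
    linarith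
  have e : ∀ t : ℝ, ff t = Real.log t * (Real.log (Real.log t) / Real.log (Real.log (Real.log t))) ^ 2 *
      Real.log (Real.log (Real.log (Real.log t))) := by
    intro t
    unfold ff
    rw [div_pow]
    ring
  rw [e, e]
  have hq : 0 ≤ Real.log (Real.log x) / Real.log (Real.log (Real.log x)) := by positivity
  have hlx : 0 ≤ Real.log y := a1p.le.trans b1
  gcongr

/-- The size of the boxes: `C g (log₂ g)² / ((log g)² log₃ g)`. -/
noncomputable def tt (C g : ℝ) : ℝ :=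
  C * g * (Real.log (Real.log g)) ^ 2 / ((Real.log g) ^ 2 * Real.log (Real.log (Real.log g)))

theorem first_of_record {d : ℕ} {ι : Type} (f : ι → (Fin d → ℤ) → ℤ)
    (h : ∃ c : ℝ, 0 < c ∧ ∃ Z₀ : ℝ, ∀ Z : ℕ, Z₀ ≤ Z → ∀ M : Fin d → ℤ, ∃ x : Fin d → ℤ,
      (∀ i, M i < x i ∧ x i ≤ M i + Z) ∧ ∀ j, ∀ n : ℤ, |(n : ℝ) - f j x| ≤ c * ff Z →
        ∃ p : ℕ, p.Prime ∧ (p : ℝ) ≤ (Z : ℝ) ^ (1 / 10 : ℝ) ∧ (p : ℤ) ∣ n) :
    ∃ C : ℝ, 0 < C ∧ ∃ G : ℕ, ∀ g : ℕ, G ≤ g → ∀ M : Fin d → ℤ, ∃ x : Fin d → ℤ,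
      (∀ i, (M i : ℝ) < x i ∧ (x i : ℝ) ≤ M i + Real.exp (tt C g)) ∧
        ∀ j, ∀ n : ℤ, |n - f j x| ≤ g →
          ∃ p : ℕ, p.Prime ∧ (p : ℝ) ≤ Real.exp (tt C g / 10) ∧ (p : ℤ) ∣ n := by
  obtain ⟨c, hc, Z₀, hZ₀⟩ := h
  obtain ⟨X₁, hX₁⟩ := ff_mono
  obtain ⟨G, hG⟩ := Pool.Agent.H226R2.ShanksGap.ana c hc (max (max Z₀ X₁) 2)
  refine ⟨32 / c, by positivity, G, fun g hg M => ?_⟩
  obtain ⟨h1, h2⟩ := hG g hg
  obtain ⟨Y, hY⟩ : ∃ Y : ℝ, Y = (16 / c) * g * (Real.log (Real.log g)) ^ 2 /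
      ((Real.log g) ^ 2 * Real.log (Real.log (Real.log g))) := ⟨_, rfl⟩
  rw [← hY] at h1 h2
  have hT : tt (32 / c) g = 2 * Y := by
    rw [hY, tt]
    ring
  rw [hT]
  obtain ⟨h1a, h1b⟩ := max_le_iff.1 h1
  obtain ⟨h1c, h1d⟩ := max_le_iff.1 h1a
  obtain ⟨Z, hZ⟩ : ∃ Z : ℕ, Z = ⌈Real.exp Y⌉₊ := ⟨_, rfl⟩
  have hZ1 : Real.exp Y ≤ Z := by rw [hZ]; exact Nat.le_ceil _
  have hZ2 : (Z : ℝ) ≤ Real.exp (2 * Y) := by
    have h3 : (Z : ℝ) < Real.exp Y + 1 := by rw [hZ]; exact Nat.ceil_lt_add_one (Real.exp_pos _).le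
    have h4 : Real.exp (2 * Y) = Real.exp Y * Real.exp Y := by rw [← Real.exp_add]; ring_nf
    rw [h4]
    nlinarith
  have hZpos : (1 : ℝ) ≤ Z := by linarith
  obtain ⟨x, hx1, hx2⟩ := hZ₀ Z (h1c.trans hZ1) M
  refine ⟨x, fun i => ?_, fun j n hn => ?_⟩
  · obtain ⟨h3, h4⟩ := hx1 i
    constructor
    · exact_mod_cast h3
    · have h5 : (x i : ℝ) ≤ M i + Z := by exact_mod_cast h4
      linarith
  · have hff : ff (Real.exp Y) = Y * (Real.log Y) ^ 2 * Real.log (Real.log (Real.log Y)) /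
        (Real.log (Real.log Y)) ^ 2 := by
      unfold ff
      rw [Real.log_exp]
    rw [← hff] at h2
    have h3 : |(n : ℝ) - f j x| ≤ c * ff Z := by
      have h4 : |(n : ℝ) - f j x| ≤ g := by exact_mod_cast hn
      have h5 : c * ff (Real.exp Y) ≤ c * ff Z :=
        mul_le_mul_of_nonneg_left (hX₁ _ _ h1d hZ1) hc.le
      linarith
    obtain ⟨p, hp, hp1, hp2⟩ := hx2 j n h3
    refine ⟨p, hp, ?_, hp2⟩
    have h6 : (Z : ℝ) ^ (1 / 10 : ℝ) ≤ Real.exp (2 * Y / 10) := by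
      calc (Z : ℝ) ^ (1 / 10 : ℝ) ≤ (Real.exp (2 * Y)) ^ (1 / 10 : ℝ) :=
            Real.rpow_le_rpow (by linarith) hZ2 (by norm_num)
        _ = Real.exp (2 * Y / 10) := by
            rw [← Real.exp_mul]
            ring_nf
    linarith

end Pool.Agent.Y837.SV
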