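import Pool.Agent.Y837.SV.Gen3
import Pool.Agent.Y837.SV.First

set_option autoImplicit false
set_option linter.unusedSectionVars false
set_option linter.unusedVariables false

/-! # The general criterion without local conditions (project SV, helper837) -/

namespace Pool.Agent.Y837.SV

open Finset Filter
open Pool.Agent.H256R2.SC (ff)

open scoped Classical

/-- values for the exceptional pairs at distinct primes -/
theorem extras {ι : Type} (d : ℕ) (f : ι → (Fin d → ℤ) → ℤ) (B₁ : ℕ) (w : Fin d → ℤ) (E : Finset (ι × ℤ))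
    (hE : ∀ k ∈ E, ∀ B : ℕ, ∃ p : ℕ, p.Prime ∧ B < p ∧ ∃ x : Fin d → ℤ, (p : ℤ) ∣ f k.1 x - k.2) :
    ∃ B : ℕ, B₁ ≤ B ∧ ∃ u : ℕ → Fin d → ℤ, (∀ p, B < p → u p = w) ∧
      ∀ k ∈ E, ∃ p : ℕ, p.Prime ∧ p ≤ B ∧ (p : ℤ) ∣ f k.1 (u p) - k.2 := by
  induction E using Finset.induction_on with
  | empty => exact ⟨B₁, le_rfl, fun _ => w, fun _ _ => rfl, by simp⟩
  | insert k E hk ih =>
    obtain ⟨B, hB, u, hu1, hu2⟩ := ih (fun k' hk' => hE k' (mem_insert_of_mem hk'))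
    obtain ⟨p, hp, hBp, x, hx⟩ := hE k (mem_insert_self k E) B
    refine ⟨p, hB.trans hBp.le, fun q => if q = p then x else u q, fun q hq => ?_, fun k' hk' => ?_⟩
    · show (if q = p then x else u q) = w
      rw [if_neg (by omega)]
      exact hu1 q (by omega)
    · rcases mem_insert.1 hk' with rfl | hk''
      · refine ⟨p, hp, le_rfl, ?_⟩
        show (p : ℤ) ∣ f k'.1 (if p = p then x else u p) - k'.2
        rw [if_pos rfl]
        exact hx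
      · obtain ⟨q, hq, hqB, hq2⟩ := hu2 k' hk''
        refine ⟨q, hq, by omega, ?_⟩
        show (q : ℤ) ∣ f k'.1 (if q = p then x else u q) - k'.2
        rw [if_neg (by omega)]
        exact hq2

/-- an integer point at which finitely many polynomials avoid given values -/
theorem avoid {ι : Type} [Fintype ι] (d : ℕ) (F : ι → MvPolynomial (Fin d) ℤ) (t : ι → ℤ)
    (hF : ∀ j, F j ≠ MvPolynomial.C (t j)) : ∃ w : Fin d → ℤ, ∀ j, MvPolynomial.eval w (F j) ≠ t j := by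
  obtain ⟨G, hG⟩ : ∃ G : MvPolynomial (Fin d) ℤ, G = ∏ j : ι, (F j - MvPolynomial.C (t j)) := ⟨_, rfl⟩
  have hG0 : G ≠ 0 := by
    rw [hG]
    exact Finset.prod_ne_zero_iff.2 fun j _ => sub_ne_zero.2 (hF j)
  obtain ⟨w, hw⟩ : ∃ w : Fin d → ℤ, MvPolynomial.eval w G ≠ 0 := by
    by_contra hcon
    push Not at hcon
    exact hG0 (MvPolynomial.funext fun x => by rw [hcon x, map_zero])
  refine ⟨w, fun j hj => hw ?_⟩
  rw [hG, map_prod]
  refine Finset.prod_eq_zero (mem_univ j) ?_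
  rw [map_sub, MvPolynomial.eval_C, hj, sub_self]

/-- **The criterion**: equidistribution modulo the primes implies record neighbourhoods. -/
theorem crit3 {ι : Type} [Fintype ι] (d : ℕ) (F : ι → MvPolynomial (Fin d) ℤ)
    (hF : ∀ j, ∀ c : ℤ, F j ≠ MvPolynomial.C c)
    (Ex : ι → Finset ℤ) (hEx : ∀ j, ∀ r ∈ Ex j, ∀ B : ℕ, ∃ p : ℕ, p.Prime ∧ B < p ∧ ∃ x : Fin d → ℤ,
      (p : ℤ) ∣ MvPolynomial.eval x (F j) - r) (B₀ : ℕ) (C δ : ℝ) (hδ : 0 < δ)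
    (hU : ∀ p : ℕ, p.Prime → B₀ < p → ∀ j, ∀ r : ZMod p, (∀ v ∈ Ex j, r ≠ (v : ZMod p)) →
      |(p : ℝ) * (Nat.card {x : Fin d → ZMod p // MvPolynomial.aeval x (F j) = r} : ℝ) - (p : ℝ) ^ d| ≤
        C * (p : ℝ) ^ d * (p : ℝ) ^ (-δ))
    (hP : ∀ p : ℕ, p.Prime → B₀ < p → ∀ i j, i ≠ j → ∀ r s : ZMod p, (∀ v ∈ Ex i, r ≠ (v : ZMod p)) →
      (∀ v ∈ Ex j, s ≠ (v : ZMod p)) →
      (p : ℝ) ^ 2 * (Nat.card {x : Fin d → ZMod p // MvPolynomial.aeval x (F i) = r ∧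
        MvPolynomial.aeval x (F j) = s} : ℝ) ≤ C * (p : ℝ) ^ d) :
    ∃ c : ℝ, 0 < c ∧ ∃ Z₀ : ℝ, ∀ Z : ℕ, Z₀ ≤ Z → ∀ M : Fin d → ℤ, ∃ x : Fin d → ℤ,
      (∀ i, M i < x i ∧ x i ≤ M i + Z) ∧ ∀ j, ∀ n : ℤ, |(n : ℝ) - MvPolynomial.eval x (F j)| ≤ c * ff Z →
        ∃ p : ℕ, p.Prime ∧ (p : ℝ) ≤ (Z : ℝ) ^ (1 / 10 : ℝ) ∧ (p : ℤ) ∣ n := by
  obtain ⟨w, hw⟩ := avoid d F (fun j => MvPolynomial.eval 0 (F j)) (fun j => hF j _)
  obtain ⟨B₁, hB₁⟩ : ∃ B₁ : ℕ, B₁ = B₀ + ∑ j : ι,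
      (MvPolynomial.eval w (F j) - MvPolynomial.eval 0 (F j)).natAbs := ⟨_, rfl⟩
  obtain ⟨E, hE⟩ : ∃ E : Finset (ι × ℤ), E = univ.biUnion (fun j => (Ex j).image (fun r => (j, r))) :=
    ⟨_, rfl⟩
  have hEmem : ∀ j, ∀ r ∈ Ex j, (j, r) ∈ E := by
    intro j r hr
    rw [hE, mem_biUnion]
    exact ⟨j, mem_univ _, mem_image.2 ⟨r, hr, rfl⟩⟩
  obtain ⟨B, hB, u, hu1, hu2⟩ := extras d (fun j x => MvPolynomial.eval x (F j)) B₁ w E (by
    intro k hk
    rw [hE, mem_biUnion] at hk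
    obtain ⟨j, -, hj⟩ := hk
    rw [mem_image] at hj
    obtain ⟨r, hr, rfl⟩ := hj
    exact hEx j r hr)
  have hBB₀ : B₀ ≤ B := by omega
  have hδ' : 0 < min δ (1 / 2) := lt_min hδ (by norm_num)
  refine gen3t d (fun j p x => MvPolynomial.aeval x (F j)) (fun j x => MvPolynomial.eval x (F j)) ?_ B
    (fun j => MvPolynomial.eval 0 (F j)) (fun _ => 0) u ?_ ?_ Ex ?_ |C| (min δ (1 / 2)) (abs_nonneg C) hδ'
    (min_le_right _ _) ?_ ?_
  · intro j p x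
    have h1 : (Int.castRingHom (ZMod p)) (MvPolynomial.eval x (F j)) =
        MvPolynomial.aeval (red d p x) (F j) := by
      rw [MvPolynomial.aeval_def, MvPolynomial.eval, MvPolynomial.coe_eval₂Hom,
        MvPolynomial.hom_eval₂]
      congr 1
    exact h1
  · intro p hp hBp j
    rw [sub_self]
    exact dvd_zero _
  · intro p hp hBp j hdvd
    rw [hu1 p hBp] at hdvd
    have h1 := Int.natAbs_dvd_natAbs.2 hdvd
    rw [Int.natAbs_natCast] at h1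
    have h2 : 0 < (MvPolynomial.eval w (F j) - MvPolynomial.eval 0 (F j)).natAbs :=
      Int.natAbs_pos.2 (sub_ne_zero.2 (hw j))
    have h3 := Nat.le_of_dvd h2 h1
    have h4 : (MvPolynomial.eval w (F j) - MvPolynomial.eval 0 (F j)).natAbs ≤ ∑ j : ι,
      (MvPolynomial.eval w (F j) - MvPolynomial.eval 0 (F j)).natAbs :=
      Finset.single_le_sum (f := fun j : ι =>
        (MvPolynomial.eval w (F j) - MvPolynomial.eval 0 (F j)).natAbs) (fun _ _ => Nat.zero_le _) (mem_univ j)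
    omega
  · intro j r hr
    exact hu2 (j, r) (hEmem j r hr)
  · intro p hp hBp j r hr
    have hp1 : (1 : ℝ) ≤ p := by exact_mod_cast hp.one_lt.le
    refine (hU p hp (lt_of_le_of_lt hBB₀ hBp) j r hr).trans ?_
    have hpd : (0 : ℝ) ≤ (p : ℝ) ^ d := by positivity
    have h3 : (p : ℝ) ^ (-δ) ≤ (p : ℝ) ^ (-min δ (1 / 2)) :=
      Real.rpow_le_rpow_of_exponent_le hp1 (neg_le_neg (min_le_left _ _))
    have h4 : (0 : ℝ) ≤ (p : ℝ) ^ (-δ) := by positivity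
    calc C * (p : ℝ) ^ d * (p : ℝ) ^ (-δ) ≤ |C| * (p : ℝ) ^ d * (p : ℝ) ^ (-δ) := by
          apply mul_le_mul_of_nonneg_right _ h4
          exact mul_le_mul_of_nonneg_right (le_abs_self C) hpd
      _ ≤ |C| * (p : ℝ) ^ d * (p : ℝ) ^ (-min δ (1 / 2)) :=
          mul_le_mul_of_nonneg_left h3 (by positivity)
  · intro p hp hBp i j hij r s hr hs
    refine (hP p hp (lt_of_le_of_lt hBB₀ hBp) i j hij r s hr hs).trans ?_
    exact mul_le_mul_of_nonneg_right (le_abs_self C) (by positivity)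

end Pool.Agent.Y837.SV
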