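import Pool.Agent.Y837.SV.Cnt
import Pool.Agent.Y837.SV.Cov

set_option autoImplicit false
set_option linter.unusedSectionVars false
set_option linter.unusedVariables false

/-! # The colouring by the values of several functions and its densities (project SV, helper837) -/

namespace Pool.Agent.Y837.SV

open Finset

open scoped Classical

section

variable {ι : Type} {d : ℕ}

/-- the shift `k.2` of the value of `φ k.1` is killed by `p` -/
def kill (φ : ι → ∀ p : ℕ, (Fin d → ZMod p) → ZMod p) (p : ℕ) (k : ι × ℤ) (x : Fin d → ZMod p) : Prop :=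
  φ k.1 p x + (k.2 : ZMod p) = 0

/-- the colouring: one of the killed shifts, if there is one -/
noncomputable def colF (φ : ι → ∀ p : ℕ, (Fin d → ZMod p) → ZMod p) (S : Finset (ι × ℤ)) (p : ℕ)
    (x : Fin d → ZMod p) : Option {k // k ∈ S} :=
  if h : ∃ k : {k // k ∈ S}, kill φ p k.1 x then some h.choose else none

theorem colF_kill {φ : ι → ∀ p : ℕ, (Fin d → ZMod p) → ZMod p} {S : Finset (ι × ℤ)} {p : ℕ}
    {x : Fin d → ZMod p} {k : {k // k ∈ S}} (h : colF φ S p x = some k) : kill φ p k.1 x := by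
  unfold colF at h
  split_ifs at h with h1
  have h2 := Option.some.inj h
  rw [← h2]
  exact h1.choose_spec

theorem colF_some {φ : ι → ∀ p : ℕ, (Fin d → ZMod p) → ZMod p} {S : Finset (ι × ℤ)} {p : ℕ}
    {x : Fin d → ZMod p} {k : {k // k ∈ S}} (h : kill φ p k.1 x) :
    colF φ S p x = some k ∨ ∃ k' : {k // k ∈ S}, k' ≠ k ∧ kill φ p k'.1 x := by
  have h1 : ∃ k : {k // k ∈ S}, kill φ p k.1 x := ⟨k, h⟩
  by_cases h2 : h1.choose = k
  · left
    unfold colF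
    rw [dif_pos h1, h2]
  · right
    exact ⟨h1.choose, h2, h1.choose_spec⟩

theorem BB_mono {p : ℕ} {Q Q' : (Fin d → ZMod p) → Prop} (h : ∀ x, Q x → Q' x) :
    BB d p Q ⊆ BB d p Q' := by
  intro b hb
  unfold BB at hb ⊢
  rw [mem_filter] at hb ⊢
  exact ⟨hb.1, h _ hb.2⟩

theorem mem_BB {p : ℕ} {Q : (Fin d → ZMod p) → Prop} {b : Fin d → ℕ} :
    b ∈ BB d p Q ↔ (∀ j, b j < p) ∧ Q (fun j => ((b j : ℕ) : ZMod p)) := by
  unfold BB
  rw [mem_filter, Fintype.mem_piFinset]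
  simp only [mem_range]

theorem natCard_BB {p : ℕ} (hp : p.Prime) (Q : (Fin d → ZMod p) → Prop) :
    Nat.card {x : Fin d → ZMod p // Q x} = (BB d p Q).card := by
  have : NeZero p := ⟨hp.ne_zero⟩
  rw [card_BB_eq, Nat.card_eq_fintype_card, Fintype.card_subtype]

/-- the density of the colour `k` is `1/p` up to a factor `1 + O(p^(-δ))` -/
theorem dens_bound (φ : ι → ∀ p : ℕ, (Fin d → ZMod p) → ZMod p) (C δ : ℝ) (hC : 0 ≤ C)
    (hδ2 : δ ≤ 1 / 2) (p : ℕ) (hp : p.Prime)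
    (hU : ∀ j, ∀ r : ZMod p, r ≠ 0 →
      |(p : ℝ) * (Nat.card {x : Fin d → ZMod p // φ j p x = r} : ℝ) - (p : ℝ) ^ d| ≤
        C * (p : ℝ) ^ d * (p : ℝ) ^ (-δ))
    (hP : ∀ i j, i ≠ j → ∀ r s : ZMod p, r ≠ 0 → s ≠ 0 →
      (p : ℝ) ^ 2 * (Nat.card {x : Fin d → ZMod p // φ i p x = r ∧ φ j p x = s} : ℝ) ≤
        C * (p : ℝ) ^ d)
    (S : Finset (ι × ℤ)) (hS0 : ∀ k ∈ S, ¬ (p : ℤ) ∣ k.2)
    (hS1 : ∀ k ∈ S, ∀ k' ∈ S, k.1 = k'.1 → k ≠ k' → ¬ (p : ℤ) ∣ k.2 - k'.2)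
    (hcard : (S.card : ℝ) ^ 2 ≤ p) (k : {k // k ∈ S}) :
    |(p : ℝ) * dens d (fun p => colF φ S p) p k - 1| ≤ 2 * C * (p : ℝ) ^ (-δ) := by
  have hp0 : (0 : ℝ) < p := by exact_mod_cast hp.pos
  have hp1 : (1 : ℝ) ≤ p := by exact_mod_cast hp.one_lt.le
  have hpd : (0 : ℝ) < (p : ℝ) ^ d := by positivity
  have hne : ∀ k ∈ S, -((k.2 : ℤ) : ZMod p) ≠ 0 := by
    intro k hk h
    apply hS0 k hk
    rw [neg_eq_zero] at h
    exact (ZMod.intCast_zmod_eq_zero_iff_dvd k.2 p).1 h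
  have hkill : ∀ k : ι × ℤ, ∀ x : Fin d → ZMod p, kill φ p k x ↔ φ k.1 p x = -((k.2 : ℤ) : ZMod p) := by
    intro k x
    unfold kill
    exact add_eq_zero_iff_eq_neg
  -- the number of the points killing `k`
  have hA := hU k.1.1 _ (hne k.1 k.2)
  rw [natCard_BB hp] at hA
  obtain ⟨A, hAdef⟩ : ∃ A : Finset (Fin d → ℕ), A = BB d p (fun x => φ k.1.1 p x = -((k.1.2 : ℤ) : ZMod p)) :=
    ⟨_, rfl⟩
  rw [← hAdef] at hA
  obtain ⟨B, hBdef⟩ : ∃ B : Finset (Fin d → ℕ), B = BB d p (fun x => colF φ S p x = some k) := ⟨_, rfl⟩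
  have hdens : dens d (fun p => colF φ S p) p k = (B.card : ℝ) / (p : ℝ) ^ d := by
    rw [hBdef]
    rfl
  have hBA : B ⊆ A := by
    rw [hBdef, hAdef]
    apply BB_mono
    intro x hx
    exact (hkill _ _).1 (colF_kill hx)
  have hBA' : (B.card : ℝ) ≤ A.card := by exact_mod_cast card_le_card hBA
  -- the points killing two shifts
  obtain ⟨E, hE⟩ : ∃ E : {k // k ∈ S} → Finset (Fin d → ℕ), E = fun k' =>
      BB d p (fun x => kill φ p k.1 x ∧ kill φ p k'.1 x) := ⟨_, rfl⟩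
  have hAB : A ⊆ B ∪ (univ.filter (fun k' : {k // k ∈ S} => k' ≠ k)).biUnion E := by
    intro b hb
    rw [mem_union, mem_biUnion]
    rw [hAdef, mem_BB] at hb
    have h1 := (hkill k.1 _).2 hb.2
    rcases colF_some h1 with h2 | ⟨k', hk', h2⟩
    · left
      rw [hBdef, mem_BB]
      exact ⟨hb.1, h2⟩
    · right
      refine ⟨k', mem_filter.2 ⟨mem_univ _, hk'⟩, ?_⟩
      rw [hE]
      simp only
      rw [mem_BB]
      exact ⟨hb.1, h1, h2⟩
  have hEb : ∀ k' : {k // k ∈ S}, k' ≠ k → (p : ℝ) ^ 2 * ((E k').card : ℝ) ≤ C * (p : ℝ) ^ d := by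
    intro k' hk'
    by_cases h : k'.1.1 = k.1.1
    · have h1 : E k' = ∅ := by
        rw [Finset.eq_empty_iff_forall_notMem]
        intro b hb
        rw [hE] at hb
        simp only at hb
        rw [mem_BB] at hb
        obtain ⟨-, h2, h3⟩ := hb
        have h4 : k'.1 ≠ k.1 := fun h => hk' (Subtype.ext h)
        apply hS1 k'.1 k'.2 k.1 k.2 h h4
        unfold kill at h2 h3
        rw [h] at h3
        rw [← ZMod.intCast_zmod_eq_zero_iff_dvd]
        push_cast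
        have h5 : ((k'.1.2 : ℤ) : ZMod p) - ((k.1.2 : ℤ) : ZMod p) =
            (φ k.1.1 p (fun j => ((b j : ℕ) : ZMod p)) + ((k'.1.2 : ℤ) : ZMod p)) -
            (φ k.1.1 p (fun j => ((b j : ℕ) : ZMod p)) + ((k.1.2 : ℤ) : ZMod p)) := by ring
        rw [h5, h2, h3, sub_zero]
      rw [h1]
      simp only [card_empty, Nat.cast_zero, mul_zero]
      positivity
    · have h1 := hP k.1.1 k'.1.1 (fun h' => h h'.symm) _ _ (hne k.1 k.2) (hne k'.1 k'.2)
      rw [natCard_BB hp] at h1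
      refine le_trans ?_ h1
      apply mul_le_mul_of_nonneg_left _ (by positivity)
      have : E k' ⊆ BB d p (fun x => φ k.1.1 p x = -((k.1.2 : ℤ) : ZMod p) ∧
          φ k'.1.1 p x = -((k'.1.2 : ℤ) : ZMod p)) := by
        rw [hE]
        apply BB_mono
        rintro x ⟨h2, h3⟩
        exact ⟨(hkill _ _).1 h2, (hkill _ _).1 h3⟩
      exact_mod_cast card_le_card this
  have hcardE : (A.card : ℝ) ≤ B.card + ∑ k' ∈ univ.filter (fun k' : {k // k ∈ S} => k' ≠ k),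
      ((E k').card : ℝ) := by
    have h1 := card_le_card hAB
    have h2 := card_union_le B ((univ.filter (fun k' : {k // k ∈ S} => k' ≠ k)).biUnion E)
    have h3 := card_biUnion_le (s := univ.filter (fun k' : {k // k ∈ S} => k' ≠ k)) (t := E)
    have h4 : A.card ≤ B.card + ∑ k' ∈ univ.filter (fun k' : {k // k ∈ S} => k' ≠ k), (E k').card := by
      omega
    exact_mod_cast h4
  have hsumE : (p : ℝ) ^ 2 * ∑ k' ∈ univ.filter (fun k' : {k // k ∈ S} => k' ≠ k), ((E k').card : ℝ) ≤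
      S.card * (C * (p : ℝ) ^ d) := by
    rw [Finset.mul_sum]
    refine (Finset.sum_le_sum fun k' hk' => hEb k' (mem_filter.1 hk').2).trans ?_
    rw [Finset.sum_const, nsmul_eq_mul]
    apply mul_le_mul_of_nonneg_right _ (by positivity)
    have h1 := card_filter_le (univ : Finset {k // k ∈ S}) (fun k' => k' ≠ k)
    rw [card_univ, Fintype.card_coe] at h1
    exact_mod_cast h1
  -- `S.card ≤ p^(1/2)`
  have hSp : (S.card : ℝ) ≤ (p : ℝ) * (p : ℝ) ^ (-δ) := by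
    have h1 : (S.card : ℝ) ≤ (p : ℝ) ^ (1 / 2 : ℝ) := by
      rw [← Real.sqrt_eq_rpow]
      exact Real.le_sqrt_of_sq_le hcard
    refine h1.trans ?_
    have h2 : (p : ℝ) * (p : ℝ) ^ (-δ) = (p : ℝ) ^ (1 + -δ) := by
      rw [Real.rpow_add hp0, Real.rpow_one]
    rw [h2]
    exact Real.rpow_le_rpow_of_exponent_le hp1 (by linarith)
  rw [hdens]
  have e1 : (p : ℝ) * ((B.card : ℝ) / (p : ℝ) ^ d) - 1 = ((p : ℝ) * B.card - (p : ℝ) ^ d) / (p : ℝ) ^ d := by
    field_simp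
  rw [e1, abs_div, abs_of_pos hpd, div_le_iff₀ hpd]
  have hA' := abs_le.1 hA
  have hdl : (0 : ℝ) < (p : ℝ) ^ (-δ) := Real.rpow_pos_of_pos hp0 _
  have hterm : 0 ≤ C * (p : ℝ) ^ d * (p : ℝ) ^ (-δ) := by positivity
  rw [abs_le]
  constructor
  · -- lower bound
    have h1 : (p : ℝ) * A.card ≤ (p : ℝ) * B.card + (p : ℝ) *
        ∑ k' ∈ univ.filter (fun k' : {k // k ∈ S} => k' ≠ k), ((E k').card : ℝ) := by
      rw [← mul_add]
      exact mul_le_mul_of_nonneg_left hcardE hp0.le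
    have h2 : (p : ℝ) * ∑ k' ∈ univ.filter (fun k' : {k // k ∈ S} => k' ≠ k), ((E k').card : ℝ) ≤
        C * (p : ℝ) ^ d * (p : ℝ) ^ (-δ) := by
      have h3 : (p : ℝ) * ((p : ℝ) * ∑ k' ∈ univ.filter (fun k' : {k // k ∈ S} => k' ≠ k),
          ((E k').card : ℝ)) ≤ (p : ℝ) * (C * (p : ℝ) ^ d * (p : ℝ) ^ (-δ)) := by
        calc (p : ℝ) * ((p : ℝ) * ∑ k' ∈ univ.filter (fun k' : {k // k ∈ S} => k' ≠ k),
              ((E k').card : ℝ)) =
              (p : ℝ) ^ 2 * ∑ k' ∈ univ.filter (fun k' : {k // k ∈ S} => k' ≠ k),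
                ((E k').card : ℝ) := by ring
          _ ≤ S.card * (C * (p : ℝ) ^ d) := hsumE
          _ ≤ ((p : ℝ) * (p : ℝ) ^ (-δ)) * (C * (p : ℝ) ^ d) :=
              mul_le_mul_of_nonneg_right hSp (by positivity)
          _ = _ := by ring
      exact le_of_mul_le_mul_left h3 hp0
    linarith [hA'.1]
  · have h1 : (p : ℝ) * B.card ≤ (p : ℝ) * A.card := mul_le_mul_of_nonneg_left hBA' hp0.le
    linarith [hA'.2]

end

end Pool.Agent.Y837.SV
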