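import Pool.Agent.Y837.SV.QP2
import Pool.Agent.H74R2.QG.QR
import Pool.Agent.Y837.SV.Gen

set_option autoImplicit false
set_option linter.unusedVariables false

/-! # Survivors for arbitrary nonzero classes at the small primes (project SV, helper837)

Generalises `Pool.Agent.H378R2.QG.survivors` (helper74). -/

namespace Pool.Agent.Y837.SV

open Finset
open Pool.Agent.H378R2.QG (w0 sum_ratio)
open Pool.Agent.H256R2.SC (crt_int)

open Classical in
/-- the count for one sign -/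
theorem one_sign2 (B : ℕ) :
    ∃ C : ℝ, 0 < C ∧ ∃ y₀ : ℝ, ∀ y : ℝ, y₀ ≤ y → ∀ R : ℕ, y ≤ R →
    (R : ℝ) ≤ y * (Real.log y) ^ 2 →
    ∀ s : ℤ, (∀ p : ℕ, p.Prime → B < p → (p : ℝ) ≤ w0 y → ¬ (p : ℤ) ∣ s) →
    (((Finset.Icc 1 R).filter (fun k : ℕ => (∀ p : ℕ, p.Prime → B < p → (p : ℝ) ≤ w0 y →
        ¬ ((p : ℤ) ∣ (k : ℤ) + s)) ∧ ∀ p : ℕ, p.Prime → w0 y < p → (p : ℝ) ≤ y → ¬ p ∣ k)).card : ℝ) ≤
      C * R * (Real.log (Real.log y)) ^ 2 /
        ((Real.log y) ^ 2 * Real.log (Real.log (Real.log y))) := by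
  obtain ⟨C₁, hC₁, hSM⟩ := QP2.sieve_mixed2 B
  obtain ⟨C₂, hC₂, hSR⟩ := sum_ratio
  obtain ⟨y₁, hsm⟩ := Pool.Agent.H398R2.RK.smooth_count
  obtain ⟨t₀, hev⟩ := Pool.Agent.H398R2.RK.ev_surv
  refine ⟨40 * C₁ * C₂ + 1, by positivity, max y₁ (Real.exp (Real.exp t₀)), fun y hy R hyR hRy s hs => ?_⟩
  have hsm' := hsm y ((le_max_left _ _).trans hy) R hyR
  have hy' := (le_max_right _ _).trans hy
  have hy0 : 0 < y := (Real.exp_pos _).trans_le hy'
  have hL1' : Real.exp t₀ ≤ Real.log y := by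
    rw [← Real.log_exp (Real.exp t₀)]; exact Real.log_le_log (Real.exp_pos _) hy'
  have hly : 0 < Real.log y := (Real.exp_pos _).trans_le hL1'
  set t := Real.log (Real.log y) with ht
  have htt : t₀ ≤ t := by
    rw [← Real.log_exp t₀]; exact Real.log_le_log (Real.exp_pos _) hL1'
  obtain ⟨h1, h2, h3, h4, h5, h6⟩ := hev t htt
  have hLe : Real.log y = Real.exp t := by rw [ht, Real.exp_log hly]
  have hye : y = Real.exp (Real.exp t) := by rw [← hLe, Real.exp_log hy0]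
  have hw0 : w0 y = Real.exp (Real.log y * Real.log t / (10 * t)) := rfl
  set V0 := Real.log y * Real.log t / (10 * t) with hV0
  have ht0 : 0 < t := by linarith
  have hlt0 : 0 < Real.log t := by linarith
  have hV1 : 2 * t ≤ V0 := by
    rw [hV0, le_div_iff₀ (by positivity), hLe]
    nlinarith [Real.exp_pos t]
  have hlog8 : 16 * Real.log t ≤ 10 * t := by
    have e1 : Real.log t = Real.log (t / 2) + Real.log 2 := by
      rw [Real.log_div ht0.ne' (by norm_num)]; ring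
    have e2 : Real.log (t / 2) ≤ t / 2 - 1 := Real.log_le_sub_one_of_pos (by linarith)
    have e3 := Real.log_two_lt_d9
    rw [e1]; linarith
  have hV16 : V0 ≤ Real.log y / 16 := by
    rw [hV0, div_le_div_iff₀ (by positivity) (by norm_num)]
    nlinarith
  -- the sieving level
  set w : ℕ := ⌊w0 y⌋₊ with hw
  have hwle : (w : ℝ) ≤ Real.exp V0 := by rw [hw, hw0]; exact Nat.floor_le (Real.exp_pos _).le
  have hw2 : 2 ≤ w := by
    rw [hw, hw0, Nat.le_floor_iff (Real.exp_pos _).le]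
    have := Real.add_one_le_exp V0
    push_cast; linarith
  have hw0' : (0 : ℝ) < w := by exact_mod_cast (by omega : 0 < w)
  have hlw : V0 / 2 ≤ Real.log w := by
    have h7 : Real.exp V0 < w + 1 := by rw [hw, hw0]; exact Nat.lt_floor_add_one _
    have h8 : (2 : ℝ) ≤ w := by exact_mod_cast hw2
    have h9 : Real.exp V0 ≤ (w : ℝ) ^ 2 := by nlinarith
    have h10 := Real.log_le_log (Real.exp_pos _) h9
    rw [Real.log_exp, Real.log_pow] at h10
    push_cast at h10; linarith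
  have hV0pos : 0 < V0 := by linarith
  have hlw0 : 0 < Real.log w := by linarith
  have hR0 : (0 : ℝ) < R := by linarith
  -- the cofactors
  set M : ℕ := ⌊(Real.log y) ^ 2⌋₊ with hM
  have hMle : (M : ℝ) ≤ (Real.log y) ^ 2 := Nat.floor_le (by positivity)
  have hM2 : 2 ≤ M := by
    rw [hM, Nat.le_floor_iff (by positivity), hLe]
    push_cast; nlinarith
  have hM0 : (0 : ℝ) < M := by exact_mod_cast (by omega : 0 < M)
  have hlM : Real.log M ≤ 2 * t := by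
    have := Real.log_le_log hM0 hMle
    rw [Real.log_pow, ← ht] at this
    push_cast at this; exact this
  have hw0y : w0 y ≤ y := by
    rw [hw0]
    calc Real.exp V0 ≤ Real.exp (Real.log y) := by apply Real.exp_le_exp.2; linarith
      _ = y := Real.exp_log hy0
  -- the set for one cofactor
  set T : ℕ → Finset ℕ := fun m => (Finset.Icc 1 (R / m)).filter (fun q : ℕ => (q.Prime ∧
      ∀ p : ℕ, p.Prime → B < p → p ≤ w → ¬ ((p : ℤ) ∣ (m : ℤ) * (q : ℤ) + s)) ∧ y < q) with hT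
  have hsub : (Finset.Icc 1 R).filter (fun k : ℕ => (∀ p : ℕ, p.Prime → B < p → (p : ℝ) ≤ w0 y →
        ¬ ((p : ℤ) ∣ (k : ℤ) + s)) ∧ ∀ p : ℕ, p.Prime → w0 y < p → (p : ℝ) ≤ y → ¬ p ∣ k) ⊆
      ((Finset.Icc 1 R).filter (fun m => ∀ p : ℕ, p.Prime → p ∣ m → Real.log p ≤ V0)) ∪
      (Finset.Icc 1 M).biUnion (fun m => (T m).image (fun q => m * q)) := by
    intro k hk
    rw [mem_filter, mem_Icc] at hk
    obtain ⟨⟨hk1, hkR⟩, hk2, hk3⟩ := hk
    rw [mem_union]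
    by_cases hall : ∀ p : ℕ, p.Prime → p ∣ k → Real.log p ≤ V0
    · left
      rw [mem_filter, mem_Icc]
      exact ⟨⟨hk1, hkR⟩, hall⟩
    · right
      push Not at hall
      obtain ⟨q, hq, hd, hlq⟩ := hall
      have hq0 : (0 : ℝ) < q := by exact_mod_cast hq.pos
      have hqw : ¬ (q : ℝ) ≤ w0 y := by
        rw [hw0, ← Real.log_le_iff_le_exp hq0]; exact not_le.2 hlq
      have hqy : y < q := by
        by_contra hcon
        push Not at hcon
        exact hk3 q hq (not_le.1 hqw) hcon hd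
      obtain ⟨m, rfl⟩ := hd
      have hm1 : 1 ≤ m := by
        rcases Nat.eq_zero_or_pos m with rfl | h
        · simp at hk1
        · exact h
      have hm0 : (0 : ℝ) < m := by exact_mod_cast hm1
      have hmM : m ≤ M := by
        rw [hM, Nat.le_floor_iff (by positivity)]
        have h7 : (q : ℝ) * m ≤ R := by exact_mod_cast hkR
        have h8 : y * m ≤ y * (Real.log y) ^ 2 := by
          calc y * m ≤ q * m := by gcongr
            _ ≤ R := h7
            _ ≤ _ := hRy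
        exact le_of_mul_le_mul_left h8 hy0
      rw [mem_biUnion]
      refine ⟨m, mem_Icc.2 ⟨hm1, hmM⟩, ?_⟩
      rw [mem_image]
      refine ⟨q, ?_, mul_comm _ _⟩
      rw [hT]
      simp only
      rw [mem_filter, mem_Icc]
      refine ⟨⟨hq.pos, ?_⟩, ⟨hq, fun p hp hBp hpw hdvd => ?_⟩, hqy⟩
      · rw [Nat.le_div_iff_mul_le hm1]; exact hkR
      · have hpw0 : (p : ℝ) ≤ w0 y := by
          have : (p : ℝ) ≤ w := by exact_mod_cast hpw
          rw [hw0]; exact this.trans hwle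
        apply hk2 p hp hBp hpw0
        have e : ((q * m : ℕ) : ℤ) + s = (m : ℤ) * q + s := by push_cast; ring
        rw [e]; exact hdvd
  have hsw : ∀ p : ℕ, p.Prime → B < p → p ≤ w → ¬ (p : ℤ) ∣ s := by
    intro p hp hBp hpw
    apply hs p hp hBp
    have : (p : ℝ) ≤ w := by exact_mod_cast hpw
    rw [hw0]; exact this.trans hwle
  -- the count for one cofactor
  have hTm : ∀ m ∈ Finset.Icc 1 M, ((T m).card : ℝ) ≤
      C₁ * R / (Real.log y * (V0 / 2)) * (((m : ℝ) / (Nat.totient m : ℝ)) ^ 2 / m) := by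
    intro m hm
    rw [mem_Icc] at hm
    have hm0 : (0 : ℝ) < m := by exact_mod_cast hm.1
    have hrhs0 : 0 ≤ C₁ * R / (Real.log y * (V0 / 2)) * (((m : ℝ) / (Nat.totient m : ℝ)) ^ 2 / m) := by
      positivity
    rcases (T m).eq_empty_or_nonempty with he | ⟨q, hq⟩
    · rw [he]; simpa using hrhs0
    · have hNy : y < ((R / m : ℕ) : ℝ) := by
        rw [hT] at hq
        simp only at hq
        rw [mem_filter, mem_Icc] at hq
        have h7 : (q : ℝ) ≤ ((R / m : ℕ) : ℝ) := by exact_mod_cast hq.1.2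
        linarith [hq.2.2]
      have hN0 : (0 : ℝ) < ((R / m : ℕ) : ℝ) := hy0.trans hNy
      have hlN : Real.log y ≤ Real.log ((R / m : ℕ) : ℝ) := Real.log_le_log hy0 hNy.le
      have hwN : (w : ℝ) ≤ ((R / m : ℕ) : ℝ) ^ (1 / 16 : ℝ) := by
        refine hwle.trans ?_
        rw [Real.rpow_def_of_pos hN0]
        apply Real.exp_le_exp.2
        linarith
      have h8 := hSM m (R / m) w s hsw hm.1 hw2 hwN
      have h9 : ((T m).card : ℝ) ≤ (((Finset.Icc 1 (R / m)).filter (fun q : ℕ => q.Prime ∧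
      ∀ p : ℕ, p.Prime → B < p → p ≤ w → ¬ ((p : ℤ) ∣ (m : ℤ) * (q : ℤ) + s))).card : ℝ) := by
        apply Nat.cast_le.2
        apply card_le_card
        intro q hq
        rw [hT] at hq
        simp only at hq
        rw [mem_filter] at hq ⊢
        exact ⟨hq.1, hq.2.1⟩
      refine h9.trans (h8.trans ?_)
      have h10 : ((R / m : ℕ) : ℝ) ≤ R / m := Nat.cast_div_le
      calc C₁ * ((m : ℝ) / (Nat.totient m : ℝ)) ^ 2 * ((R / m : ℕ) : ℝ) /
            (Real.log ((R / m : ℕ) : ℝ) * Real.log w)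
          ≤ C₁ * ((m : ℝ) / (Nat.totient m : ℝ)) ^ 2 * (R / m) / (Real.log y * (V0 / 2)) := by
            gcongr
        _ = _ := by field_simp
  have hcard : (((Finset.Icc 1 R).filter (fun k : ℕ => (∀ p : ℕ, p.Prime → B < p → (p : ℝ) ≤ w0 y →
        ¬ ((p : ℤ) ∣ (k : ℤ) + s)) ∧ ∀ p : ℕ, p.Prime → w0 y < p → (p : ℝ) ≤ y → ¬ p ∣ k)).card : ℝ) ≤
      R / (Real.log y) ^ 3 + C₁ * R / (Real.log y * (V0 / 2)) * (C₂ * (2 * t)) := by
    calc (((Finset.Icc 1 R).filter (fun k : ℕ => (∀ p : ℕ, p.Prime → B < p → (p : ℝ) ≤ w0 y →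
        ¬ ((p : ℤ) ∣ (k : ℤ) + s)) ∧ ∀ p : ℕ, p.Prime → w0 y < p → (p : ℝ) ≤ y → ¬ p ∣ k)).card : ℝ)
        ≤ (((Finset.Icc 1 R).filter (fun m => ∀ p : ℕ, p.Prime → p ∣ m → Real.log p ≤ V0)).card : ℝ)
          + ((∑ m ∈ Finset.Icc 1 M, (T m).card : ℕ) : ℝ) := by
          rw [← Nat.cast_add]
          apply Nat.cast_le.2
          refine (card_le_card hsub).trans ((card_union_le _ _).trans ?_)
          gcongr
          exact card_biUnion_le.trans (sum_le_sum fun m _ => card_image_le)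
      _ ≤ R / (Real.log y) ^ 3 + ∑ m ∈ Finset.Icc 1 M, C₁ * R / (Real.log y * (V0 / 2)) *
            (((m : ℝ) / (Nat.totient m : ℝ)) ^ 2 / m) := by
          push_cast
          gcongr with m hm
          exact hTm m hm
      _ = R / (Real.log y) ^ 3 + C₁ * R / (Real.log y * (V0 / 2)) *
            ∑ m ∈ Finset.Icc 1 M, (((m : ℝ) / (Nat.totient m : ℝ)) ^ 2 / m) := by rw [mul_sum]
      _ ≤ R / (Real.log y) ^ 3 + C₁ * R / (Real.log y * (V0 / 2)) * (C₂ * (2 * t)) := by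
          gcongr
          exact (hSR M hM2).trans (by gcongr)
  refine hcard.trans ?_
  have e1 : C₁ * R / (Real.log y * (V0 / 2)) * (C₂ * (2 * t)) =
      40 * C₁ * C₂ * R * t ^ 2 / ((Real.log y) ^ 2 * Real.log t) := by
    rw [hV0]; field_simp; ring
  have e2 : (R : ℝ) / (Real.log y) ^ 3 ≤ R * t ^ 2 / ((Real.log y) ^ 2 * Real.log t) := by
    rw [div_le_div_iff₀ (by positivity) (by positivity)]
    have h7 : Real.log t ≤ Real.log y * t ^ 2 := by
      rw [hLe]; nlinarith [sq_nonneg t]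
    calc (R : ℝ) * ((Real.log y) ^ 2 * Real.log t) ≤ R * ((Real.log y) ^ 2 * (Real.log y * t ^ 2)) := by gcongr
      _ = R * t ^ 2 * (Real.log y) ^ 3 := by ring
  rw [e1]
  calc (R : ℝ) / (Real.log y) ^ 3 + 40 * C₁ * C₂ * R * t ^ 2 / ((Real.log y) ^ 2 * Real.log t)
      ≤ R * t ^ 2 / ((Real.log y) ^ 2 * Real.log t) +
        40 * C₁ * C₂ * R * t ^ 2 / ((Real.log y) ^ 2 * Real.log t) := by gcongr
    _ = _ := by ring

open Classical in
/-- survivors for arbitrary nonzero classes `- a p` at the primes of `(B, w0 y]` -/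
theorem survivors2 (B : ℕ) :
    ∃ C : ℝ, 0 < C ∧ ∃ y₀ : ℝ, ∀ y : ℝ, y₀ ≤ y → ∀ R : ℕ, y ≤ R →
    (R : ℝ) ≤ y * (Real.log y) ^ 2 →
    ∀ a : ℕ → ℤ, (∀ p : ℕ, p.Prime → B < p → (p : ℝ) ≤ w0 y → ¬ (p : ℤ) ∣ a p) →
    (((Finset.Icc (-(R : ℤ)) R).filter (fun h => h ≠ 0 ∧ (∀ p : ℕ, p.Prime → B < p → (p : ℝ) ≤ w0 y →
        ¬ ((p : ℤ) ∣ a p + h)) ∧ ∀ p : ℕ, p.Prime → w0 y < p → (p : ℝ) ≤ y → ¬ (p : ℤ) ∣ h)).card : ℝ) ≤
      C * R * (Real.log (Real.log y)) ^ 2 /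
        ((Real.log y) ^ 2 * Real.log (Real.log (Real.log y))) := by
  obtain ⟨C, hC, y₀, hy₀⟩ := one_sign2 B
  refine ⟨C + C, by positivity, y₀, fun y hy R hyR hRy a ha => ?_⟩
  obtain ⟨s, hs⟩ := crt_int ((Finset.range (⌊w0 y⌋₊ + 1)).filter Nat.Prime) (fun p : ℕ => (p : ℤ)) (by
    intro p hp q hq hpq
    exact Nat.isCoprime_iff_coprime.2
      ((Nat.coprime_primes (mem_filter.1 hp).2 (mem_filter.1 hq).2).2 hpq)) (fun p => a p)
  have hs' : ∀ p : ℕ, p.Prime → (p : ℝ) ≤ w0 y → (p : ℤ) ∣ s - a p := by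
    intro p hp hpw
    apply hs p
    have : p ≤ ⌊w0 y⌋₊ := Nat.le_floor hpw
    rw [Finset.mem_filter, Finset.mem_range]
    exact ⟨by omega, hp⟩
  have hs1 : ∀ p : ℕ, p.Prime → B < p → (p : ℝ) ≤ w0 y → ¬ (p : ℤ) ∣ s := by
    intro p hp hBp hpw h
    apply ha p hp hBp hpw
    have h1 := dvd_sub h (hs' p hp hpw)
    have e : s - (s - a p) = a p := by ring
    rwa [e] at h1
  have h1 := hy₀ y hy R hyR hRy s hs1
  have h2 := hy₀ y hy R hyR hRy (-s) (fun p hp hBp hpw h => hs1 p hp hBp hpw ((dvd_neg).1 h))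
  have hsub : (Finset.Icc (-(R : ℤ)) R).filter (fun h => h ≠ 0 ∧ (∀ p : ℕ, p.Prime → B < p → (p : ℝ) ≤ w0 y →
        ¬ ((p : ℤ) ∣ a p + h)) ∧ ∀ p : ℕ, p.Prime → w0 y < p → (p : ℝ) ≤ y → ¬ (p : ℤ) ∣ h) ⊆
      ((Finset.Icc 1 R).filter (fun k : ℕ => (∀ p : ℕ, p.Prime → B < p → (p : ℝ) ≤ w0 y →
        ¬ ((p : ℤ) ∣ (k : ℤ) + s)) ∧ ∀ p : ℕ, p.Prime → w0 y < p → (p : ℝ) ≤ y → ¬ p ∣ k)).image
          (fun k : ℕ => (k : ℤ)) ∪
      ((Finset.Icc 1 R).filter (fun k : ℕ => (∀ p : ℕ, p.Prime → B < p → (p : ℝ) ≤ w0 y →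
        ¬ ((p : ℤ) ∣ (k : ℤ) + -s)) ∧ ∀ p : ℕ, p.Prime → w0 y < p → (p : ℝ) ≤ y → ¬ p ∣ k)).image
          (fun k : ℕ => -(k : ℤ)) := by
    intro h hh
    rw [mem_filter, mem_Icc] at hh
    obtain ⟨⟨hl, hr⟩, hne, hp, hp2⟩ := hh
    rw [mem_union, mem_image, mem_image]
    have hdvd : ∀ p : ℕ, (p ∣ h.natAbs ↔ (p : ℤ) ∣ h) := by
      intro p
      rw [← Int.natCast_dvd]
    rcases lt_or_gt_of_ne hne with hneg | hpos
    · right
      refine ⟨h.natAbs, ?_, by omega⟩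
      rw [mem_filter, mem_Icc]
      refine ⟨⟨by omega, by omega⟩, fun p hpp hBp hpy hd => ?_, fun p hpp h3 h4 h5 =>
        hp2 p hpp h3 h4 ((hdvd p).1 h5)⟩
      have e : ((h.natAbs : ℕ) : ℤ) = -h := by omega
      rw [e] at hd
      apply hp p hpp hBp hpy
      have h3 := dvd_add hd (hs' p hpp hpy)
      have e2 : -h + -s + (s - a p) = -(a p + h) := by ring
      rw [e2] at h3
      exact (dvd_neg).1 h3
    · left
      refine ⟨h.natAbs, ?_, by omega⟩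
      rw [mem_filter, mem_Icc]
      refine ⟨⟨by omega, by omega⟩, fun p hpp hBp hpy hd => ?_, fun p hpp h3 h4 h5 =>
        hp2 p hpp h3 h4 ((hdvd p).1 h5)⟩
      have e : ((h.natAbs : ℕ) : ℤ) = h := by omega
      rw [e] at hd
      apply hp p hpp hBp hpy
      have h3 := dvd_sub hd (hs' p hpp hpy)
      have e2 : h + s - (s - a p) = a p + h := by ring
      rw [e2] at h3
      exact h3
  have h3 := (card_le_card hsub).trans ((card_union_le _ _).trans (add_le_add card_image_le card_image_le))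
  have h4 : (((Finset.Icc (-(R : ℤ)) R).filter (fun h => h ≠ 0 ∧ (∀ p : ℕ, p.Prime → B < p → (p : ℝ) ≤ w0 y →
        ¬ ((p : ℤ) ∣ a p + h)) ∧ ∀ p : ℕ, p.Prime → w0 y < p → (p : ℝ) ≤ y → ¬ (p : ℤ) ∣ h)).card : ℝ) ≤
      (((Finset.Icc 1 R).filter (fun k : ℕ => (∀ p : ℕ, p.Prime → B < p → (p : ℝ) ≤ w0 y →
        ¬ ((p : ℤ) ∣ (k : ℤ) + s)) ∧ ∀ p : ℕ, p.Prime → w0 y < p → (p : ℝ) ≤ y → ¬ p ∣ k)).card : ℝ) +
      (((Finset.Icc 1 R).filter (fun k : ℕ => (∀ p : ℕ, p.Prime → B < p → (p : ℝ) ≤ w0 y →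
        ¬ ((p : ℤ) ∣ (k : ℤ) + -s)) ∧ ∀ p : ℕ, p.Prime → w0 y < p → (p : ℝ) ≤ y → ¬ p ∣ k)).card : ℝ) := by
    exact_mod_cast h3
  refine h4.trans ((add_le_add h1 h2).trans (le_of_eq ?_))
  ring

end Pool.Agent.Y837.SV
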