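import Pool.Agent.Y837.SV.Gen

set_option autoImplicit false
set_option linter.unusedSectionVars false
set_option linter.unusedVariables false

/-! # Monomials with coprime exponents (project SV, helper837) -/

namespace Pool.Agent.Y837.SV

open Finset Filter
open Pool.Agent.H256R2.SC (ff)

open scoped Classical

/-- Bezout for the exponents -/
theorem exists_bez {d : ℕ} (e : Fin d → ℕ) (he : Finset.univ.gcd e = 1) :
    ∃ w : Fin d → ℤ, ∑ i, w i * (e i : ℤ) = 1 := by
  obtain ⟨f, hf⟩ := Finset.gcd_eq_sum_mul Finset.univ (fun i => (e i : ℤ))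
  have hg : (Finset.univ.gcd (fun i => (e i : ℤ))).natAbs ∣ 1 := by
    rw [← he]
    apply Finset.dvd_gcd
    intro i _
    have := Finset.gcd_dvd (f := fun i => (e i : ℤ)) (Finset.mem_univ i)
    exact Int.natAbs_dvd_natAbs.2 this |>.trans (by simp)
  have hg1 : (Finset.univ.gcd (fun i => (e i : ℤ))) * (Finset.univ.gcd (fun i => (e i : ℤ))) = 1 := by
    have := Nat.dvd_one.1 hg
    rcases Int.natAbs_eq_iff.1 this with h | h <;> rw [h] <;> norm_num
  refine ⟨fun i => (Finset.univ.gcd (fun i => (e i : ℤ))) * f i, ?_⟩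
  calc ∑ i, (Finset.univ.gcd (fun i => (e i : ℤ))) * f i * (e i : ℤ) =
        (Finset.univ.gcd (fun i => (e i : ℤ))) * ∑ i, (e i : ℤ) * f i := by
        rw [Finset.mul_sum]
        refine Finset.sum_congr rfl fun i _ => ?_
        ring
    _ = 1 := by rw [← hf, hg1]

theorem prod_zpow' {K : Type} [Field K] {α : Type} (s : Finset α) (t : K) (ht : t ≠ 0) (a : α → ℤ) :
    ∏ i ∈ s, t ^ (a i) = t ^ (∑ i ∈ s, a i) := by
  induction s using Finset.induction_on with
  | empty => simp
  | insert j s hj ih => rw [prod_insert hj, sum_insert hj, zpow_add₀ ht, ih]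

section

variable {d p : ℕ} [Fact p.Prime]

theorem sum_fib (g : (Fin d → ZMod p) → ZMod p) :
    ∑ r : ZMod p, (univ.filter (fun x => g x = r)).card = p ^ d := by
  rw [← Finset.card_eq_sum_card_fiberwise (f := g) (s := univ) (t := univ) (fun x _ => by simp)]
  rw [card_univ, Fintype.card_fun, ZMod.card, Fintype.card_fin]

/-- all the nonzero fibres of a monomial with coprime exponents have the same number of points -/
theorem mono_fib (e : Fin d → ℕ) (w : Fin d → ℤ) (hw : ∑ i, w i * (e i : ℤ) = 1) (r : ZMod p)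
    (hr : r ≠ 0) :
    (univ.filter (fun x : Fin d → ZMod p => ∏ i, x i ^ e i = r)).card =
      (univ.filter (fun x : Fin d → ZMod p => ∏ i, x i ^ e i = 1)).card := by
  have key : ∀ (t : ZMod p) (ht : t ≠ 0) (x : Fin d → ZMod p),
      ∏ i, (x i * t ^ (w i)) ^ e i = t * ∏ i, x i ^ e i := by
    intro t ht x
    have h1 : ∀ i, (x i * t ^ (w i)) ^ e i = x i ^ e i * t ^ (w i * (e i : ℤ)) := by
      intro i
      rw [mul_pow, zpow_mul, zpow_natCast]
    simp_rw [h1]
    rw [Finset.prod_mul_distrib]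
    have h2 : ∏ i, t ^ (w i * (e i : ℤ)) = t := by
      rw [prod_zpow' univ t ht, hw, zpow_one]
    rw [h2, mul_comm]
  refine Finset.card_bij' (fun x _ => fun i => x i * r⁻¹ ^ (w i)) (fun x _ => fun i => x i * r ^ (w i))
    ?_ ?_ ?_ ?_
  · intro x hx
    rw [mem_filter] at hx ⊢
    refine ⟨mem_univ _, ?_⟩
    rw [key _ (inv_ne_zero hr), hx.2, inv_mul_cancel₀ hr]
  · intro x hx
    rw [mem_filter] at hx ⊢
    refine ⟨mem_univ _, ?_⟩
    rw [key _ hr, hx.2, mul_one]
  · intro x _
    funext i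
    show x i * r⁻¹ ^ w i * r ^ w i = x i
    rw [inv_zpow, mul_assoc, inv_mul_cancel₀ (zpow_ne_zero _ hr), mul_one]
  · intro x _
    funext i
    show x i * r ^ w i * r⁻¹ ^ w i = x i
    rw [inv_zpow, mul_assoc, mul_inv_cancel₀ (zpow_ne_zero _ hr), mul_one]

theorem card_coord0 (i : Fin d) :
    (univ.filter (fun x : Fin d → ZMod p => x i = 0)).card * p = p ^ d := by
  have h : (univ.filter (fun x : Fin d → ZMod p => x i = 0)) =
      Fintype.piFinset (fun j => if j = i then ({0} : Finset (ZMod p)) else univ) := by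
    ext x
    rw [mem_filter, Fintype.mem_piFinset]
    constructor
    · rintro ⟨-, h⟩ j
      split_ifs with hj
      · rw [hj, mem_singleton]; exact h
      · exact mem_univ _
    · intro h
      refine ⟨mem_univ _, ?_⟩
      have := h i
      rw [if_pos rfl, mem_singleton] at this
      exact this
  rw [h, Fintype.card_piFinset]
  have h2 : ∀ j, (if j = i then ({0} : Finset (ZMod p)) else univ).card = if j = i then 1 else p := by
    intro j
    split_ifs
    · simp
    · rw [card_univ, ZMod.card]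
  simp_rw [h2]
  rw [Finset.prod_ite, Finset.prod_const_one, one_mul, Finset.prod_const]
  have h3 : (univ.filter (fun j : Fin d => ¬ j = i)).card + 1 = d := by
    have h4 : (univ.filter (fun j : Fin d => ¬ j = i)) = univ.erase i := by
      ext j
      simp
    rw [h4, card_erase_of_mem (mem_univ i), card_univ, Fintype.card_fin]
    have := i.2
    omega
  rw [← pow_succ, h3]

theorem mono_U (e : Fin d → ℕ) (he : Finset.univ.gcd e = 1) (r : ZMod p) (hr : r ≠ 0) :
    |(p : ℝ) * ((univ.filter (fun x : Fin d → ZMod p => ∏ i, x i ^ e i = r)).card : ℝ) - (p : ℝ) ^ d| * p ≤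
      ((d : ℝ) + 2) * (p : ℝ) ^ d := by
  obtain ⟨w, hw⟩ := exists_bez e he
  have hp := (Fact.out : p.Prime)
  have hp2 : (2 : ℝ) ≤ p := by exact_mod_cast hp.two_le
  set N : ZMod p → ℕ := fun r => (univ.filter (fun x : Fin d → ZMod p => ∏ i, x i ^ e i = r)).card with hN
  have hfib : ∀ s : ZMod p, s ≠ 0 → N s = N 1 := fun s hs => mono_fib e w hw s hs
  have hsum : N 0 + (p - 1) * N 1 = p ^ d := by
    have h1 := sum_fib (p := p) (fun x : Fin d → ZMod p => ∏ i, x i ^ e i)
    rw [← Finset.add_sum_erase univ _ (mem_univ (0 : ZMod p))] at h1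
    have h2 : ∑ s ∈ univ.erase (0 : ZMod p), (univ.filter
        (fun x : Fin d → ZMod p => ∏ i, x i ^ e i = s)).card = (p - 1) * N 1 := by
      rw [Finset.sum_congr rfl (fun s hs => hfib s (ne_of_mem_erase hs)), Finset.sum_const,
        card_erase_of_mem (mem_univ _), card_univ, ZMod.card, smul_eq_mul]
    rw [h2] at h1
    exact h1
  have hN0 : N 0 * p ≤ d * p ^ d := by
    have h1 : (univ.filter (fun x : Fin d → ZMod p => ∏ i, x i ^ e i = 0)) ⊆
        univ.biUnion (fun i : Fin d => univ.filter (fun x : Fin d → ZMod p => x i = 0)) := by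
      intro x hx
      rw [mem_filter] at hx
      obtain ⟨i, hi, hi2⟩ := Finset.prod_eq_zero_iff.1 hx.2
      rw [mem_biUnion]
      exact ⟨i, mem_univ _, mem_filter.2 ⟨mem_univ _, eq_zero_of_pow_eq_zero hi2⟩⟩
    have h2 := (card_le_card h1).trans card_biUnion_le
    calc N 0 * p ≤ (∑ i : Fin d, (univ.filter (fun x : Fin d → ZMod p => x i = 0)).card) * p :=
          Nat.mul_le_mul_right p h2
      _ = ∑ i : Fin d, p ^ d := by
          rw [Finset.sum_mul]
          exact Finset.sum_congr rfl fun i _ => card_coord0 i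
      _ = d * p ^ d := by simp
  have h1R : (N 0 : ℝ) + ((p : ℝ) - 1) * N 1 = (p : ℝ) ^ d := by
    have h1 : ((N 0 + (p - 1) * N 1 : ℕ) : ℝ) = ((p ^ d : ℕ) : ℝ) := by rw [hsum]
    push_cast [Nat.cast_sub hp.one_lt.le] at h1
    exact h1
  have h2R : (N 0 : ℝ) * p ≤ d * (p : ℝ) ^ d := by exact_mod_cast hN0
  have hN1 : (0 : ℝ) ≤ N 1 := Nat.cast_nonneg _
  have hN00 : (0 : ℝ) ≤ N 0 := Nat.cast_nonneg _
  have h3R : (N 1 : ℝ) * p ≤ 2 * (p : ℝ) ^ d := by
    have : (p : ℝ) ≤ 2 * ((p : ℝ) - 1) := by linarith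
    calc (N 1 : ℝ) * p ≤ N 1 * (2 * ((p : ℝ) - 1)) := mul_le_mul_of_nonneg_left this hN1
      _ = 2 * (((p : ℝ) - 1) * N 1) := by ring
      _ ≤ 2 * (p : ℝ) ^ d := by linarith
  have h4 : (((univ.filter (fun x : Fin d → ZMod p => ∏ i, x i ^ e i = r)).card : ℕ) : ℝ) = N 1 := by
    have := hfib r hr
    rw [← this]
  rw [h4]
  have h5 : (p : ℝ) * N 1 - (p : ℝ) ^ d = (N 1 : ℝ) - N 0 := by
    rw [← h1R]; ring
  rw [h5]
  have h6 : |(N 1 : ℝ) - N 0| ≤ N 1 + N 0 := by
    rw [abs_le]
    constructor <;> linarith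
  have h7 : (0 : ℝ) ≤ (p : ℝ) ^ d := by positivity
  calc |(N 1 : ℝ) - N 0| * p ≤ (N 1 + N 0) * p := mul_le_mul_of_nonneg_right h6 (by linarith)
    _ = N 1 * p + N 0 * p := by ring
    _ ≤ 2 * (p : ℝ) ^ d + d * (p : ℝ) ^ d := by linarith
    _ = ((d : ℝ) + 2) * (p : ℝ) ^ d := by ring

/-- the number of the roots -/
theorem card_pow_eq (n : ℕ) (hn : 0 < n) (a : ZMod p) :
    (univ.filter (fun x : ZMod p => x ^ n = a)).card ≤ n := by
  have h1 : (univ.filter (fun x : ZMod p => x ^ n = a)) ⊆ (Polynomial.nthRoots n a).toFinset := by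
    intro x hx
    rw [mem_filter] at hx
    rw [Multiset.mem_toFinset, Polynomial.mem_nthRoots hn]
    exact hx.2
  exact (card_le_card h1).trans ((Multiset.toFinset_card_le _).trans (Polynomial.card_nthRoots n a))

/-- the number of the nonzero roots of `x ^ n = a`, `n` a nonzero integer -/
theorem card_zpow_eq (n : ℤ) (hn : n ≠ 0) (a : ZMod p) :
    (univ.filter (fun x : ZMod p => x ≠ 0 ∧ x ^ n = a)).card ≤ n.natAbs := by
  rcases Int.natAbs_eq n with h | h
  · refine le_trans (card_le_card ?_) (card_pow_eq n.natAbs (Int.natAbs_pos.2 hn) a)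
    intro x hx
    rw [mem_filter] at hx ⊢
    refine ⟨mem_univ _, ?_⟩
    have h2 := hx.2.2
    rw [h, zpow_natCast] at h2
    exact h2
  · refine le_trans (card_le_card ?_) (card_pow_eq n.natAbs (Int.natAbs_pos.2 hn) a⁻¹)
    intro x hx
    rw [mem_filter] at hx ⊢
    refine ⟨mem_univ _, ?_⟩
    have h2 := hx.2.2
    rw [h, zpow_neg, zpow_natCast] at h2
    rw [← h2, inv_inv]

theorem card_coord00 (s t : Fin d) (hst : s ≠ t) :
    (univ.filter (fun x : Fin d → ZMod p => x s = 0 ∧ x t = 0)).card * p ^ 2 = p ^ d := by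
  have h : (univ.filter (fun x : Fin d → ZMod p => x s = 0 ∧ x t = 0)) =
      Fintype.piFinset (fun j => if j = s ∨ j = t then ({0} : Finset (ZMod p)) else univ) := by
    ext x
    rw [mem_filter, Fintype.mem_piFinset]
    constructor
    · rintro ⟨-, h1, h2⟩ j
      split_ifs with hj
      · rw [mem_singleton]
        rcases hj with hj | hj
        · rw [hj]; exact h1
        · rw [hj]; exact h2
      · exact mem_univ _
    · intro h
      refine ⟨mem_univ _, ?_, ?_⟩
      · have := h s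
        rw [if_pos (Or.inl rfl), mem_singleton] at this
        exact this
      · have := h t
        rw [if_pos (Or.inr rfl), mem_singleton] at this
        exact this
  rw [h, Fintype.card_piFinset]
  have h2 : ∀ j, (if j = s ∨ j = t then ({0} : Finset (ZMod p)) else univ).card =
      if j = s ∨ j = t then 1 else p := by
    intro j
    split_ifs
    · simp
    · rw [card_univ, ZMod.card]
  simp_rw [h2]
  rw [Finset.prod_ite, Finset.prod_const_one, one_mul, Finset.prod_const]
  have h3 : (univ.filter (fun j : Fin d => ¬ (j = s ∨ j = t))).card + 2 = d := by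
    have h4 : (univ.filter (fun j : Fin d => ¬ (j = s ∨ j = t))) = (univ.erase s).erase t := by
      ext j
      simp [not_or, and_comm]
    rw [h4, card_erase_of_mem (mem_erase.2 ⟨hst.symm, mem_univ _⟩), card_erase_of_mem (mem_univ s),
      card_univ, Fintype.card_fin]
    have h5 := s.2
    have h6 := t.2
    have h7 : (s : ℕ) ≠ t := fun h => hst (Fin.ext h)
    omega
  rw [← pow_add, h3]

/-- exponent vectors which are not proportional: few points on the intersection -/
theorem mono_pair (e e' : Fin d → ℕ) (s t : Fin d)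
    (hΔ : (e s : ℤ) * e' t - e t * e' s ≠ 0) (r r' : ZMod p) (hr : r ≠ 0) (hr' : r' ≠ 0) :
    (univ.filter (fun x : Fin d → ZMod p => ∏ i, x i ^ e i = r ∧ ∏ i, x i ^ e' i = r')).card * p ^ 2 ≤
      ((e s : ℤ) * e' t - e t * e' s).natAbs ^ 2 * p ^ d := by
  set Δ : ℤ := (e s : ℤ) * e' t - e t * e' s with hΔd
  have hst : s ≠ t := by
    rintro rfl
    apply hΔ
    rw [hΔd]; ring
  set X := univ.filter (fun x : Fin d → ZMod p => ∏ i, x i ^ e i = r ∧ ∏ i, x i ^ e' i = r') with hX
  set g : (Fin d → ZMod p) → (Fin d → ZMod p) := fun x i => if i = s ∨ i = t then 0 else x i with hg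
  have hmaps : ∀ x ∈ X, g x ∈ univ.filter (fun x : Fin d → ZMod p => x s = 0 ∧ x t = 0) := by
    intro x _
    rw [mem_filter]
    refine ⟨mem_univ _, ?_, ?_⟩
    · simp [hg]
    · simp [hg]
  have hfib : ∀ z ∈ univ.filter (fun x : Fin d → ZMod p => x s = 0 ∧ x t = 0),
      (X.filter (fun x => g x = z)).card ≤ Δ.natAbs ^ 2 := by
    intro z _
    -- the products over the other coordinates
    set ρ : ZMod p := ∏ i ∈ univ.filter (fun i => ¬ (i = s ∨ i = t)), z i ^ e i with hρ
    set ρ' : ZMod p := ∏ i ∈ univ.filter (fun i => ¬ (i = s ∨ i = t)), z i ^ e' i with hρ'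
    have hsplit : ∀ (e : Fin d → ℕ) (x : Fin d → ZMod p), g x = z →
        ∏ i, x i ^ e i = x s ^ e s * x t ^ e t * ∏ i ∈ univ.filter (fun i => ¬ (i = s ∨ i = t)), z i ^ e i := by
      intro e x hx
      rw [← Finset.prod_filter_mul_prod_filter_not univ (fun i => i = s ∨ i = t)]
      congr 1
      · have h1 : univ.filter (fun i : Fin d => i = s ∨ i = t) = {s, t} := by
          ext i; simp
        rw [h1, Finset.prod_pair hst]
      · refine Finset.prod_congr rfl fun i hi => ?_
        rw [mem_filter] at hi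
        have h2 : g x i = z i := by rw [hx]
        rw [hg] at h2
        simp only [if_neg hi.2] at h2
        rw [h2]
    have hmem : ∀ x ∈ X.filter (fun x => g x = z),
        x s ≠ 0 ∧ x t ≠ 0 ∧ x s ^ Δ = (r / ρ) ^ (e' t : ℤ) * (r' / ρ') ^ (-(e t : ℤ)) ∧
          x t ^ Δ = (r' / ρ') ^ (e s : ℤ) * (r / ρ) ^ (-(e' s : ℤ)) := by
      intro x hx
      rw [mem_filter, hX, mem_filter] at hx
      obtain ⟨⟨-, h1, h2⟩, h3⟩ := hx
      rw [hsplit e x h3, ← hρ] at h1
      rw [hsplit e' x h3, ← hρ'] at h2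
      have hρ0 : ρ ≠ 0 := by
        intro h; rw [h, mul_zero] at h1; exact hr h1.symm
      have hρ0' : ρ' ≠ 0 := by
        intro h; rw [h, mul_zero] at h2; exact hr' h2.symm
      have h1' : x s ^ e s * x t ^ e t = r / ρ := by
        rw [eq_div_iff hρ0]; exact h1
      have h2' : x s ^ e' s * x t ^ e' t = r' / ρ' := by
        rw [eq_div_iff hρ0']; exact h2
      have hq : r / ρ ≠ 0 := div_ne_zero hr hρ0
      have hq' : r' / ρ' ≠ 0 := div_ne_zero hr' hρ0'
      have hs0 : x s ≠ 0 := by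
        intro h
        have e1 : e s = 0 := by
          by_contra hne
          rw [h, zero_pow hne, zero_mul] at h1'
          exact hq h1'.symm
        have e2 : e' s = 0 := by
          by_contra hne
          rw [h, zero_pow hne, zero_mul] at h2'
          exact hq' h2'.symm
        apply hΔ
        rw [hΔd, e1, e2]; simp
      have ht0 : x t ≠ 0 := by
        intro h
        have e1 : e t = 0 := by
          by_contra hne
          rw [h, zero_pow hne, mul_zero] at h1'
          exact hq h1'.symm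
        have e2 : e' t = 0 := by
          by_contra hne
          rw [h, zero_pow hne, mul_zero] at h2'
          exact hq' h2'.symm
        apply hΔ
        rw [hΔd, e1, e2]; simp
      refine ⟨hs0, ht0, ?_, ?_⟩
      · rw [← h1', ← h2', mul_zpow, mul_zpow, ← zpow_natCast, ← zpow_natCast, ← zpow_natCast,
          ← zpow_natCast, ← zpow_mul, ← zpow_mul, ← zpow_mul, ← zpow_mul]
        have e1 : x s ^ ((e s : ℤ) * (e' t : ℤ)) * x t ^ ((e t : ℤ) * (e' t : ℤ)) *
            (x s ^ ((e' s : ℤ) * -(e t : ℤ)) * x t ^ ((e' t : ℤ) * -(e t : ℤ))) =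
            (x s ^ ((e s : ℤ) * (e' t : ℤ)) * x s ^ ((e' s : ℤ) * -(e t : ℤ))) *
            (x t ^ ((e t : ℤ) * (e' t : ℤ)) * x t ^ ((e' t : ℤ) * -(e t : ℤ))) := by ring
        rw [e1, ← zpow_add₀ hs0, ← zpow_add₀ ht0]
        have e2 : (e t : ℤ) * (e' t : ℤ) + (e' t : ℤ) * -(e t : ℤ) = 0 := by ring
        have e3 : (e s : ℤ) * (e' t : ℤ) + (e' s : ℤ) * -(e t : ℤ) = Δ := by rw [hΔd]; ring
        rw [e2, e3, zpow_zero, mul_one]
      · rw [← h1', ← h2', mul_zpow, mul_zpow, ← zpow_natCast, ← zpow_natCast, ← zpow_natCast,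
          ← zpow_natCast, ← zpow_mul, ← zpow_mul, ← zpow_mul, ← zpow_mul]
        have e1 : x s ^ ((e' s : ℤ) * (e s : ℤ)) * x t ^ ((e' t : ℤ) * (e s : ℤ)) *
            (x s ^ ((e s : ℤ) * -(e' s : ℤ)) * x t ^ ((e t : ℤ) * -(e' s : ℤ))) =
            (x s ^ ((e' s : ℤ) * (e s : ℤ)) * x s ^ ((e s : ℤ) * -(e' s : ℤ))) *
            (x t ^ ((e' t : ℤ) * (e s : ℤ)) * x t ^ ((e t : ℤ) * -(e' s : ℤ))) := by ring
        rw [e1, ← zpow_add₀ hs0, ← zpow_add₀ ht0]
        have e2 : (e' s : ℤ) * (e s : ℤ) + (e s : ℤ) * -(e' s : ℤ) = 0 := by ring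
        have e3 : (e' t : ℤ) * (e s : ℤ) + (e t : ℤ) * -(e' s : ℤ) = Δ := by rw [hΔd]; ring
        rw [e2, e3, zpow_zero, one_mul]
    set A := univ.filter (fun y : ZMod p => y ≠ 0 ∧ y ^ Δ = (r / ρ) ^ (e' t : ℤ) * (r' / ρ') ^ (-(e t : ℤ)))
      with hA
    set B := univ.filter (fun y : ZMod p => y ≠ 0 ∧ y ^ Δ = (r' / ρ') ^ (e s : ℤ) * (r / ρ) ^ (-(e' s : ℤ)))
      with hB
    have h1 : (X.filter (fun x => g x = z)).card ≤ (A ×ˢ B).card := by
      apply Finset.card_le_card_of_injOn (fun x => (x s, x t))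
      · intro x hx
        have h2 := hmem x (Finset.mem_coe.1 hx)
        rw [Finset.mem_coe, mem_product]
        exact ⟨mem_filter.2 ⟨mem_univ _, h2.1, h2.2.2.1⟩, mem_filter.2 ⟨mem_univ _, h2.2.1, h2.2.2.2⟩⟩
      · intro x hx x' hx' hxx
        rw [Finset.mem_coe, mem_filter] at hx hx'
        simp only [Prod.mk.injEq] at hxx
        funext i
        by_cases h : i = s ∨ i = t
        · rcases h with h | h
          · rw [h]; exact hxx.1
          · rw [h]; exact hxx.2
        · have e1 : g x i = z i := by rw [hx.2]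
          have e2 : g x' i = z i := by rw [hx'.2]
          rw [hg] at e1 e2
          simp only [if_neg h] at e1 e2
          rw [e1, e2]
    rw [card_product] at h1
    refine h1.trans ?_
    rw [pow_two]
    exact Nat.mul_le_mul (card_zpow_eq Δ hΔ _) (card_zpow_eq Δ hΔ _)
  have h1 := Finset.card_le_mul_card_image_of_maps_to hmaps _ hfib
  calc X.card * p ^ 2 ≤ (Δ.natAbs ^ 2 * (univ.filter (fun x : Fin d → ZMod p => x s = 0 ∧ x t = 0)).card) *
        p ^ 2 := Nat.mul_le_mul_right _ h1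
    _ = Δ.natAbs ^ 2 * ((univ.filter (fun x : Fin d → ZMod p => x s = 0 ∧ x t = 0)).card * p ^ 2) := by ring
    _ = Δ.natAbs ^ 2 * p ^ d := by rw [card_coord00 s t hst]

end

/-- different vectors with coprime entries are not proportional -/
theorem exists_minor {d : ℕ} (e e' : Fin d → ℕ) (he : Finset.univ.gcd e = 1)
    (he' : Finset.univ.gcd e' = 1) (hne : e ≠ e') :
    ∃ s t : Fin d, (e s : ℤ) * e' t - e t * e' s ≠ 0 := by
  by_contra hcon
  push Not at hcon
  obtain ⟨w, hw⟩ := exists_bez e he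
  obtain ⟨w', hw'⟩ := exists_bez e' he'
  obtain ⟨m, hm⟩ : ∃ m : ℤ, m = ∑ t, w' t * (e t : ℤ) := ⟨_, rfl⟩
  obtain ⟨m', hm'⟩ : ∃ m' : ℤ, m' = ∑ t, w t * (e' t : ℤ) := ⟨_, rfl⟩
  have h1 : ∀ s, (e s : ℤ) = m * e' s := by
    intro s
    calc (e s : ℤ) = ∑ t, w' t * (e' t : ℤ) * (e s : ℤ) := by
          rw [← Finset.sum_mul, hw', one_mul]
      _ = ∑ t, w' t * (e t : ℤ) * (e' s : ℤ) := by
          refine Finset.sum_congr rfl fun t _ => ?_
          have := hcon s t
          linear_combination (w' t) * this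
      _ = m * e' s := by rw [← Finset.sum_mul, ← hm]
  have h2 : ∀ s, (e' s : ℤ) = m' * e s := by
    intro s
    calc (e' s : ℤ) = ∑ t, w t * (e t : ℤ) * (e' s : ℤ) := by
          rw [← Finset.sum_mul, hw, one_mul]
      _ = ∑ t, w t * (e' t : ℤ) * (e s : ℤ) := by
          refine Finset.sum_congr rfl fun t _ => ?_
          have := hcon s t
          linear_combination (-(w t)) * this
      _ = m' * e s := by rw [← Finset.sum_mul, ← hm']
  have h3 : m * m' = 1 := by
    have h4 : m = ∑ t, w' t * (m * (e' t : ℤ)) := by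
      rw [hm]
      refine Finset.sum_congr rfl fun t _ => ?_
      rw [← hm, ← h1 t]
    have h5 : (1 : ℤ) = m' * ∑ t, w' t * (e t : ℤ) := by
      rw [Finset.mul_sum, ← hw']
      refine Finset.sum_congr rfl fun t _ => ?_
      rw [h2 t]; ring
    rw [← hm] at h5
    rw [mul_comm]; exact h5.symm
  have h6 : m = 1 ∨ m = -1 := Int.eq_one_or_neg_one_of_mul_eq_one h3
  apply hne
  funext s
  rcases h6 with h | h
  · have := h1 s
    rw [h, one_mul] at this
    exact_mod_cast this
  · have h7 := h1 s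
    rw [h] at h7
    have h8 : (e s : ℤ) = 0 ∧ (e' s : ℤ) = 0 := by
      have := Int.natCast_nonneg (e s)
      have := Int.natCast_nonneg (e' s)
      constructor <;> linarith
    have h9 : e s = 0 := by exact_mod_cast h8.1
    have h10 : e' s = 0 := by exact_mod_cast h8.2
    rw [h9, h10]

/-- record neighbourhoods around the values of all the given monomials at one point -/
theorem mono_main {ι : Type} [Fintype ι] (d : ℕ) (e : ι → Fin d → ℕ) (hinj : Function.Injective e)
    (he : ∀ j, Finset.univ.gcd (e j) = 1) :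
    ∃ c : ℝ, 0 < c ∧ ∃ Z₀ : ℝ, ∀ Z : ℕ, Z₀ ≤ Z → ∀ M : Fin d → ℤ, ∃ x : Fin d → ℤ,
      (∀ i, M i < x i ∧ x i ≤ M i + Z) ∧ ∀ j, ∀ h : ℤ, |(h : ℝ)| ≤ c * ff Z →
        ∃ p : ℕ, p.Prime ∧ (p : ℝ) ≤ (Z : ℝ) ^ (1 / 10 : ℝ) ∧ (p : ℤ) ∣ (∏ i, x i ^ e j i) + h := by
  obtain ⟨K, hK⟩ : ∃ K : ℝ, K = (d : ℝ) + 2 + ∑ i : ι, ∑ j : ι, ∑ s : Fin d, ∑ t : Fin d,
      (((e i s : ℤ) * e j t - e i t * e j s).natAbs : ℝ) ^ 2 := ⟨_, rfl⟩
  have hsum0 : 0 ≤ ∑ i : ι, ∑ j : ι, ∑ s : Fin d, ∑ t : Fin d,
      (((e i s : ℤ) * e j t - e i t * e j s).natAbs : ℝ) ^ 2 :=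
    Finset.sum_nonneg fun i _ => Finset.sum_nonneg fun j _ => Finset.sum_nonneg fun s _ =>
      Finset.sum_nonneg fun t _ => by positivity
  have hKd : (d : ℝ) + 2 ≤ K := by rw [hK]; linarith
  have hK0 : 0 ≤ K := by
    have : (0 : ℝ) ≤ d := Nat.cast_nonneg d
    linarith
  refine gen0 d (fun j p x => ∏ i, x i ^ e j i) (fun j x => ∏ i, x i ^ e j i) ?_ 0 (fun _ => 1) ?_ ?_
    K (1 / 2) hK0 (by norm_num) le_rfl ?_ ?_
  · intro j p x
    push_cast
    rfl
  · intro j
    obtain ⟨w, hw⟩ := exists_bez (e j) (he j)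
    have h1 : ∃ i, e j i ≠ 0 := by
      by_contra hcon
      push Not at hcon
      simp [hcon] at hw
    obtain ⟨i, hi⟩ := h1
    apply Finset.prod_eq_zero (mem_univ i)
    simp [hi]
  · intro j
    simp
  · intro p hp j r hr
    have : Fact p.Prime := ⟨hp⟩
    have hp0 : (0 : ℝ) < p := by exact_mod_cast hp.pos
    have hp1 : (1 : ℝ) ≤ p := by exact_mod_cast hp.one_lt.le
    have h1 := mono_U (p := p) (e j) (he j) r hr
    rw [Nat.card_eq_fintype_card, Fintype.card_subtype]
    have h2 : |(p : ℝ) * ((univ.filter (fun x : Fin d → ZMod p => ∏ i, x i ^ e j i = r)).card : ℝ) -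
        (p : ℝ) ^ d| ≤ ((d : ℝ) + 2) * (p : ℝ) ^ d / p := by
      rw [le_div_iff₀ hp0]
      exact h1
    refine le_trans ?_ (h2.trans ?_)
    · exact le_rfl
    · have h3 : (1 : ℝ) / p ≤ (p : ℝ) ^ (-(1 / 2) : ℝ) := by
        have : (1 : ℝ) / p = (p : ℝ) ^ (-1 : ℝ) := by
          rw [Real.rpow_neg_one, one_div]
        rw [this]
        exact Real.rpow_le_rpow_of_exponent_le hp1 (by norm_num)
      calc ((d : ℝ) + 2) * (p : ℝ) ^ d / p = ((d : ℝ) + 2) * (p : ℝ) ^ d * (1 / p) := by ring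
        _ ≤ K * (p : ℝ) ^ d * (p : ℝ) ^ (-(1 / 2) : ℝ) := by
            apply mul_le_mul _ h3 (by positivity) (by positivity)
            exact mul_le_mul_of_nonneg_right hKd (by positivity)
  · intro p hp i j hij r r' hr hr'
    have : Fact p.Prime := ⟨hp⟩
    obtain ⟨s, t, hst⟩ := exists_minor (e i) (e j) (he i) (he j) (fun h => hij (hinj h))
    have h1 := mono_pair (p := p) (e i) (e j) s t hst r r' hr hr'
    rw [Nat.card_eq_fintype_card, Fintype.card_subtype]
    have h2 : (p : ℝ) ^ 2 * ((univ.filter (fun x : Fin d → ZMod p =>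
        ∏ l, x l ^ e i l = r ∧ ∏ l, x l ^ e j l = r')).card : ℝ) ≤
        (((e i s : ℤ) * e j t - e i t * e j s).natAbs : ℝ) ^ 2 * (p : ℝ) ^ d := by
      rw [mul_comm]
      exact_mod_cast h1
    refine le_trans ?_ (h2.trans ?_)
    · exact le_rfl
    · apply mul_le_mul_of_nonneg_right _ (by positivity)
      have h3 : (((e i s : ℤ) * e j t - e i t * e j s).natAbs : ℝ) ^ 2 ≤
          ∑ i : ι, ∑ j : ι, ∑ s : Fin d, ∑ t : Fin d,
            (((e i s : ℤ) * e j t - e i t * e j s).natAbs : ℝ) ^ 2 := by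
        have a1 := Finset.single_le_sum (f := fun t : Fin d =>
          (((e i s : ℤ) * e j t - e i t * e j s).natAbs : ℝ) ^ 2) (fun t _ => by positivity) (mem_univ t)
        have a2 := Finset.single_le_sum (f := fun s : Fin d => ∑ t : Fin d,
          (((e i s : ℤ) * e j t - e i t * e j s).natAbs : ℝ) ^ 2)
          (fun s _ => Finset.sum_nonneg fun t _ => by positivity) (mem_univ s)
        have a3 := Finset.single_le_sum (f := fun j : ι => ∑ s : Fin d, ∑ t : Fin d,
          (((e i s : ℤ) * e j t - e i t * e j s).natAbs : ℝ) ^ 2)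
          (fun j _ => Finset.sum_nonneg fun s _ => Finset.sum_nonneg fun t _ => by positivity)
          (mem_univ j)
        have a4 := Finset.single_le_sum (f := fun i : ι => ∑ j : ι, ∑ s : Fin d, ∑ t : Fin d,
          (((e i s : ℤ) * e j t - e i t * e j s).natAbs : ℝ) ^ 2)
          (fun i _ => Finset.sum_nonneg fun j _ => Finset.sum_nonneg fun s _ =>
            Finset.sum_nonneg fun t _ => by positivity) (mem_univ i)
        exact ((a1.trans a2).trans a3).trans a4
      have : (0 : ℝ) ≤ d := Nat.cast_nonneg d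
      rw [hK]
      linarith

end Pool.Agent.Y837.SV
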