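import Pool.Agent.Y837.SV.Mon

set_option autoImplicit false
set_option linter.unusedSectionVars false
set_option linter.unusedVariables false

/-! # The fibres of `x ^ a + β y ^ b` modulo `p` (project SV, helper837)

The bound `N(r) = p + O(√p)` for the number of the solutions of `x ^ a + β y ^ b = r`, `r ≠ 0`, from the second
moment and the invariance under scaling. -/

namespace Pool.Agent.Y837.SV

open Finset Filter

open scoped Classical

section

variable {p : ℕ} [Fact p.Prime]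

/-- Parseval -/
theorem parseval (G : ZMod p → ℂ) :
    ∑ t : ZMod p, ‖∑ r : ZMod p, G r * ZMod.stdAddChar (r * t)‖ ^ 2 = p * ∑ r : ZMod p, ‖G r‖ ^ 2 := by
  have hprim : (ZMod.stdAddChar (N := p)).IsPrimitive := ZMod.isPrimitive_stdAddChar p
  have hconj : ∀ a : ZMod p, (starRingEnd ℂ) (ZMod.stdAddChar a) = ZMod.stdAddChar (-a) := by
    intro a
    rw [AddChar.map_neg_eq_inv, Complex.inv_eq_conj]
    rw [ZMod.stdAddChar_apply]
    exact Circle.norm_coe _
  have h1 : ∀ t : ZMod p, ((‖∑ r : ZMod p, G r * ZMod.stdAddChar (r * t)‖ ^ 2 : ℝ) : ℂ) =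
      ∑ r : ZMod p, ∑ s : ZMod p, G r * (starRingEnd ℂ) (G s) * ZMod.stdAddChar (t * (r - s)) := by
    intro t
    rw [← Complex.normSq_eq_norm_sq, ← Complex.mul_conj, map_sum, Finset.sum_mul_sum]
    refine Finset.sum_congr rfl fun r _ => Finset.sum_congr rfl fun s _ => ?_
    rw [map_mul (starRingEnd ℂ), hconj]
    have e : t * (r - s) = r * t + -(s * t) := by ring
    rw [e, AddChar.map_add_eq_mul]
    ring
  have h2 : ((∑ t : ZMod p, ‖∑ r : ZMod p, G r * ZMod.stdAddChar (r * t)‖ ^ 2 : ℝ) : ℂ) =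
      ((p * ∑ r : ZMod p, ‖G r‖ ^ 2 : ℝ) : ℂ) := by
    rw [Complex.ofReal_sum]
    simp_rw [h1]
    rw [Finset.sum_comm]
    have h3 : ∀ r : ZMod p, ∑ t : ZMod p, ∑ s : ZMod p, G r * (starRingEnd ℂ) (G s) *
        ZMod.stdAddChar (t * (r - s)) = G r * (starRingEnd ℂ) (G r) * p := by
      intro r
      rw [Finset.sum_comm]
      have h4 : ∀ s : ZMod p, ∑ t : ZMod p, G r * (starRingEnd ℂ) (G s) *
          ZMod.stdAddChar (t * (r - s)) = if s = r then G r * (starRingEnd ℂ) (G r) * p else 0 := by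
        intro s
        rw [← Finset.mul_sum, AddChar.sum_mulShift (r - s) hprim]
        by_cases h : s = r
        · rw [if_pos h, h, if_pos (sub_self r), ZMod.card]
        · rw [if_neg h, if_neg (fun h' => h (sub_eq_zero.1 h').symm)]
          push_cast
          ring
      simp_rw [h4]
      simp
    simp_rw [h3]
    push_cast
    rw [Finset.mul_sum]
    refine Finset.sum_congr rfl fun r _ => ?_
    rw [Complex.mul_conj, Complex.normSq_eq_norm_sq]
    push_cast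
    ring
  exact_mod_cast h2

/-- the exponential sum of a power -/
noncomputable def SS (p : ℕ) [Fact p.Prime] (a : ℕ) (t : ZMod p) : ℂ :=
  ∑ x : ZMod p, ZMod.stdAddChar (x ^ a * t)

theorem SS_eq (a : ℕ) (t : ZMod p) :
    SS p a t = ∑ r : ZMod p, ((univ.filter (fun x : ZMod p => x ^ a = r)).card : ℂ) *
      ZMod.stdAddChar (r * t) := by
  unfold SS
  rw [← Finset.sum_fiberwise_of_maps_to (s := univ) (t := univ) (g := fun x : ZMod p => x ^ a)
    (fun x _ => mem_univ _)]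
  refine Finset.sum_congr rfl fun r _ => ?_
  rw [Finset.sum_congr rfl (g := fun _ => (ZMod.stdAddChar (r * t) : ℂ))
    (fun x hx => by rw [(mem_filter.1 hx).2]), Finset.sum_const, nsmul_eq_mul]

theorem SS_scale (a : ℕ) (t l : ZMod p) (hl : l ≠ 0) : SS p a (l ^ a * t) = SS p a t := by
  unfold SS
  refine Fintype.sum_bijective (fun x => x * l) ?_ _ _ ?_
  · exact (Equiv.mulRight₀ l hl).bijective
  · intro x
    rw [mul_pow]
    congr 1
    ring

/-- summing an invariant function over an orbit -/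
theorem orbit_sum (n : ℕ) (hn : 0 < n) (F : ZMod p → ℝ) (hF : ∀ t, 0 ≤ F t) (t : ZMod p) (ht : t ≠ 0)
    (hinv : ∀ l : ZMod p, l ≠ 0 → F (l ^ n * t) = F t) :
    ((p : ℝ) - 1) * F t ≤ n * ∑ s : ZMod p, F s := by
  have hp := (Fact.out : p.Prime)
  have h1 : ∑ l ∈ univ.filter (fun l : ZMod p => l ≠ 0), F (l ^ n * t) = ((p : ℝ) - 1) * F t := by
    rw [Finset.sum_congr rfl (fun l hl => hinv l (mem_filter.1 hl).2), Finset.sum_const, nsmul_eq_mul]
    congr 1
    have h2 : (univ.filter (fun l : ZMod p => l ≠ 0)).card = p - 1 := by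
      have h3 : (univ.filter (fun l : ZMod p => l ≠ 0)) = univ.erase 0 := by
        ext l
        simp
      rw [h3, card_erase_of_mem (mem_univ _), card_univ, ZMod.card]
    rw [h2, Nat.cast_sub hp.one_lt.le]
    norm_num
  rw [← h1]
  rw [← Finset.sum_fiberwise_of_maps_to (s := univ.filter (fun l : ZMod p => l ≠ 0)) (t := univ)
    (g := fun l : ZMod p => l ^ n * t) (fun x _ => mem_univ _), Finset.mul_sum]
  refine Finset.sum_le_sum fun s _ => ?_
  rw [Finset.sum_congr rfl (g := fun _ => F s) (fun x hx => by rw [(mem_filter.1 hx).2]),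
    Finset.sum_const, nsmul_eq_mul]
  apply mul_le_mul_of_nonneg_right _ (hF s)
  have h2 : ((univ.filter (fun l : ZMod p => l ≠ 0)).filter (fun l : ZMod p => l ^ n * t = s)).card ≤ n := by
    refine (card_le_card ?_).trans (card_pow_eq n hn (s / t))
    intro l hl
    rw [mem_filter] at hl ⊢
    refine ⟨mem_univ _, ?_⟩
    rw [eq_div_iff ht]
    exact hl.2
  exact_mod_cast h2

theorem SS_bound (a : ℕ) (ha : 0 < a) (t : ZMod p) (ht : t ≠ 0) :
    ‖SS p a t‖ ^ 2 ≤ 2 * (a : ℝ) ^ 2 * p := by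
  have hp := (Fact.out : p.Prime)
  have hp2 : (2 : ℝ) ≤ p := by exact_mod_cast hp.two_le
  have h1 := orbit_sum a ha (fun t => ‖SS p a t‖ ^ 2) (fun t => by positivity) t ht
    (fun l hl => by rw [SS_scale a t l hl])
  have h2 : ∑ s : ZMod p, ‖SS p a s‖ ^ 2 ≤ p * (a * p) := by
    simp_rw [SS_eq]
    rw [parseval]
    apply mul_le_mul_of_nonneg_left _ (by linarith)
    have h3 : ∀ r : ZMod p, ‖((univ.filter (fun x : ZMod p => x ^ a = r)).card : ℂ)‖ ^ 2 ≤
        a * ((univ.filter (fun x : ZMod p => x ^ a = r)).card : ℝ) := by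
      intro r
      rw [Complex.norm_natCast, pow_two]
      apply mul_le_mul_of_nonneg_right _ (Nat.cast_nonneg _)
      exact_mod_cast card_pow_eq a ha r
    refine (Finset.sum_le_sum fun r _ => h3 r).trans ?_
    rw [← Finset.mul_sum]
    apply mul_le_mul_of_nonneg_left _ (Nat.cast_nonneg _)
    have h4 : ∑ r : ZMod p, (univ.filter (fun x : ZMod p => x ^ a = r)).card = p := by
      rw [← Finset.card_eq_sum_card_fiberwise (f := fun x : ZMod p => x ^ a) (s := univ) (t := univ)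
        (fun x _ => by simp), card_univ, ZMod.card]
    exact_mod_cast h4.le
  have h5 : ((p : ℝ) - 1) * ‖SS p a t‖ ^ 2 ≤ a * (p * (a * p)) :=
    h1.trans (mul_le_mul_of_nonneg_left h2 (Nat.cast_nonneg _))
  have h6 : (0 : ℝ) ≤ ‖SS p a t‖ ^ 2 := by positivity
  have h7 : (p : ℝ) * ‖SS p a t‖ ^ 2 ≤ p * (2 * (a : ℝ) ^ 2 * p) := by nlinarith
  exact le_of_mul_le_mul_left h7 (by linarith)

/-- the number of the solutions of `x ^ a + β y ^ b = r` -/
noncomputable def NN (p : ℕ) [Fact p.Prime] (a b : ℕ) (β r : ZMod p) : ℕ :=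
  (univ.filter (fun z : ZMod p × ZMod p => z.1 ^ a + β * z.2 ^ b = r)).card

theorem NN_hat (a b : ℕ) (β t : ZMod p) :
    ∑ r : ZMod p, ((NN p a b β r : ℕ) : ℂ) * ZMod.stdAddChar (r * t) = SS p a t * SS p b (β * t) := by
  unfold SS NN
  rw [Finset.sum_mul_sum]
  have h1 : ∀ r : ZMod p, ((univ.filter (fun z : ZMod p × ZMod p => z.1 ^ a + β * z.2 ^ b = r)).card : ℂ) *
      ZMod.stdAddChar (r * t) = ∑ z ∈ univ.filter (fun z : ZMod p × ZMod p => z.1 ^ a + β * z.2 ^ b = r),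
        (ZMod.stdAddChar ((z.1 ^ a + β * z.2 ^ b) * t) : ℂ) := by
    intro r
    rw [Finset.sum_congr rfl (g := fun _ => (ZMod.stdAddChar (r * t) : ℂ))
      (fun x hx => by rw [(mem_filter.1 hx).2]), Finset.sum_const, nsmul_eq_mul]
  simp_rw [h1]
  rw [Finset.sum_fiberwise_of_maps_to (s := univ) (t := univ)
    (g := fun z : ZMod p × ZMod p => z.1 ^ a + β * z.2 ^ b) (fun x _ => mem_univ _)]
  rw [← Finset.univ_product_univ, Finset.sum_product]
  refine Finset.sum_congr rfl fun x _ => Finset.sum_congr rfl fun y _ => ?_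
  rw [← AddChar.map_add_eq_mul]
  congr 1
  ring

theorem NN_scale (a b : ℕ) (β r l : ZMod p) (hl : l ≠ 0) : NN p a b β (l ^ (a * b) * r) = NN p a b β r := by
  unfold NN
  refine Finset.card_bij' (fun z _ => (z.1 * l⁻¹ ^ b, z.2 * l⁻¹ ^ a)) (fun z _ => (z.1 * l ^ b, z.2 * l ^ a))
    ?_ ?_ ?_ ?_
  · intro z hz
    rw [mem_filter] at hz ⊢
    refine ⟨mem_univ _, ?_⟩
    simp only
    have e : (z.1 * l⁻¹ ^ b) ^ a + β * (z.2 * l⁻¹ ^ a) ^ b = (z.1 ^ a + β * z.2 ^ b) * l⁻¹ ^ (a * b) := by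
      rw [mul_pow, mul_pow, ← pow_mul, ← pow_mul, mul_comm b a]
      ring
    rw [e, hz.2, inv_pow]
    field_simp
  · intro z hz
    rw [mem_filter] at hz ⊢
    refine ⟨mem_univ _, ?_⟩
    simp only
    have e : (z.1 * l ^ b) ^ a + β * (z.2 * l ^ a) ^ b = (z.1 ^ a + β * z.2 ^ b) * l ^ (a * b) := by
      rw [mul_pow, mul_pow, ← pow_mul, ← pow_mul, mul_comm b a]
      ring
    rw [e, hz.2, mul_comm]
  · intro z _
    simp only
    rw [inv_pow, inv_pow]
    ext <;> field_simp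
  · intro z _
    simp only
    rw [inv_pow, inv_pow]
    ext <;> field_simp

theorem NN_second (a b : ℕ) (ha : 0 < a) (hb : 0 < b) (β : ZMod p) (hβ : β ≠ 0) :
    ∑ r : ZMod p, ((NN p a b β r : ℝ) - p) ^ 2 ≤ 4 * (a : ℝ) ^ 2 * (b : ℝ) ^ 2 * (p : ℝ) ^ 2 := by
  have hp := (Fact.out : p.Prime)
  have hp0 : (0 : ℝ) < p := by exact_mod_cast hp.pos
  have hprim : (ZMod.stdAddChar (N := p)).IsPrimitive := ZMod.isPrimitive_stdAddChar p
  have h1 := parseval (p := p) (fun r => ((NN p a b β r : ℕ) : ℂ) - (p : ℂ))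
  have h2 : ∀ t : ZMod p, ∑ r : ZMod p, (((NN p a b β r : ℕ) : ℂ) - (p : ℂ)) * ZMod.stdAddChar (r * t) =
      if t = 0 then 0 else SS p a t * SS p b (β * t) := by
    intro t
    have h3 : ∑ r : ZMod p, (((NN p a b β r : ℕ) : ℂ) - (p : ℂ)) * ZMod.stdAddChar (r * t) =
        ∑ r : ZMod p, ((NN p a b β r : ℕ) : ℂ) * ZMod.stdAddChar (r * t) -
          (p : ℂ) * ∑ r : ZMod p, ZMod.stdAddChar (r * t) := by
      rw [Finset.mul_sum, ← Finset.sum_sub_distrib]
      refine Finset.sum_congr rfl fun r _ => ?_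
      ring
    rw [h3, NN_hat, AddChar.sum_mulShift t hprim]
    split_ifs with h
    · rw [h, mul_zero]
      have h4 : ∀ n : ℕ, SS p n 0 = p := by
        intro n
        unfold SS
        simp [ZMod.card]
      rw [h4, h4, ZMod.card]
      ring
    · push_cast
      ring
  simp_rw [h2] at h1
  have h3 : ∀ t : ZMod p, ‖(if t = 0 then (0 : ℂ) else SS p a t * SS p b (β * t))‖ ^ 2 ≤
      4 * (a : ℝ) ^ 2 * (b : ℝ) ^ 2 * (p : ℝ) ^ 2 := by
    intro t
    split_ifs with h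
    · rw [norm_zero, zero_pow two_ne_zero]
      positivity
    · rw [norm_mul, mul_pow]
      calc ‖SS p a t‖ ^ 2 * ‖SS p b (β * t)‖ ^ 2 ≤ (2 * (a : ℝ) ^ 2 * p) * (2 * (b : ℝ) ^ 2 * p) :=
            mul_le_mul (SS_bound a ha t h) (SS_bound b hb _ (mul_ne_zero hβ h)) (by positivity)
              (by positivity)
        _ = 4 * (a : ℝ) ^ 2 * (b : ℝ) ^ 2 * (p : ℝ) ^ 2 := by ring
  have h4 : ∑ t : ZMod p, ‖(if t = 0 then (0 : ℂ) else SS p a t * SS p b (β * t))‖ ^ 2 ≤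
      p * (4 * (a : ℝ) ^ 2 * (b : ℝ) ^ 2 * (p : ℝ) ^ 2) := by
    refine (Finset.sum_le_sum fun t _ => h3 t).trans ?_
    rw [Finset.sum_const, card_univ, ZMod.card, nsmul_eq_mul]
  rw [h1] at h4
  have h5 := le_of_mul_le_mul_left h4 hp0
  refine le_trans (le_of_eq ?_) h5
  refine Finset.sum_congr rfl fun r _ => ?_
  have h6 : (((NN p a b β r : ℕ) : ℂ) - (p : ℂ)) = (((NN p a b β r : ℝ) - p : ℝ) : ℂ) := by
    push_cast
    rfl
  rw [h6, Complex.norm_real, Real.norm_eq_abs, sq_abs]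

theorem NN_bound (a b : ℕ) (ha : 0 < a) (hb : 0 < b) (β : ZMod p) (hβ : β ≠ 0) (r : ZMod p) (hr : r ≠ 0) :
    ((NN p a b β r : ℝ) - p) ^ 2 ≤ 8 * (a : ℝ) ^ 3 * (b : ℝ) ^ 3 * p := by
  have hp := (Fact.out : p.Prime)
  have hp2 : (2 : ℝ) ≤ p := by exact_mod_cast hp.two_le
  have h1 := orbit_sum (a * b) (Nat.mul_pos ha hb) (fun r => ((NN p a b β r : ℝ) - p) ^ 2)
    (fun t => sq_nonneg _) r hr (fun l hl => by rw [NN_scale a b β r l hl])
  have h2 := NN_second a b ha hb β hβ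
  have h3 : ((p : ℝ) - 1) * ((NN p a b β r : ℝ) - p) ^ 2 ≤
      ((a * b : ℕ) : ℝ) * (4 * (a : ℝ) ^ 2 * (b : ℝ) ^ 2 * (p : ℝ) ^ 2) :=
    h1.trans (mul_le_mul_of_nonneg_left h2 (Nat.cast_nonneg _))
  push_cast at h3
  have h4 : (0 : ℝ) ≤ ((NN p a b β r : ℝ) - p) ^ 2 := sq_nonneg _
  have h5 : (p : ℝ) * ((NN p a b β r : ℝ) - p) ^ 2 ≤ p * (8 * (a : ℝ) ^ 3 * (b : ℝ) ^ 3 * p) := by
    nlinarith
  exact le_of_mul_le_mul_left h5 (by linarith)

end

end Pool.Agent.Y837.SV
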