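import Pool.Agent.Y837.SV.Pow

set_option autoImplicit false
set_option linter.unusedSectionVars false
set_option linter.unusedVariables false

/-! # Record neighbourhoods around all `x ^ a + β y ^ b` at one point (project SV, helper837) -/

namespace Pool.Agent.Y837.SV

open Finset Filter
open Pool.Agent.H256R2.SC (ff)

open scoped Classical

section

variable {p : ℕ} [Fact p.Prime]

open Polynomial in
theorem expand_aux (a n : ℕ) (r α : ZMod p) :
    (C r - C α * X ^ a) ^ n = expand (ZMod p) a ((C r - C α * X) ^ n) := by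
  simp

open Polynomial in
theorem coeff_aux (a n : ℕ) (ha : 0 < a) (r α : ZMod p) :
    ((C r - C α * X ^ a) ^ n).coeff a = -(n * r ^ (n - 1) * α) := by
  rw [expand_aux, coeff_expand ha, if_pos dvd_rfl, Nat.div_self ha]
  have h1 := coeff_derivative ((C r - C α * X) ^ n) 0
  simp only [zero_add, Nat.cast_zero, mul_one] at h1
  rw [← h1, derivative_pow]
  simp [coeff_zero_eq_eval_zero]

open Polynomial in
theorem coeff_aux0 (a a' n : ℕ) (ha : 0 < a) (h : a < a') (r α : ZMod p) :
    ((C r - C α * X ^ a') ^ n).coeff a = 0 := by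
  rw [expand_aux, coeff_expand (by omega), if_neg]
  intro hd
  have := Nat.le_of_dvd ha hd
  omega

open Polynomial in
theorem elim_card (a a' b b' : ℕ) (ha : 0 < a) (haa : a < a') (hb : 0 < b) (hb' : 0 < b')
    (α α' β β' r s : ZMod p) (hα : α ≠ 0) (hβ' : β' ≠ 0) (hr : r ≠ 0) (hbp : (b' : ZMod p) ≠ 0) :
    (univ.filter (fun x : ZMod p => ∃ y : ZMod p, α * x ^ a + β * y ^ b = r ∧
      α' * x ^ a' + β' * y ^ b' = s)).card ≤ a * b' + a' * b := by
  set G : (ZMod p)[X] := C (β' ^ b) * (C r - C α * X ^ a) ^ b' - C (β ^ b') * (C s - C α' * X ^ a') ^ b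
    with hG
  have hG0 : G ≠ 0 := by
    intro h
    have h1 : G.coeff a = 0 := by rw [h, coeff_zero]
    rw [hG, coeff_sub, coeff_C_mul, coeff_C_mul, coeff_aux a b' ha, coeff_aux0 a a' b ha haa, mul_zero,
      sub_zero] at h1
    have h2 : β' ^ b * (b' * r ^ (b' - 1) * α) ≠ 0 :=
      mul_ne_zero (pow_ne_zero _ hβ') (mul_ne_zero (mul_ne_zero hbp (pow_ne_zero _ hr)) hα)
    apply h2
    rw [mul_neg] at h1
    exact neg_eq_zero.1 h1
  have hdeg : G.natDegree ≤ a * b' + a' * b := by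
    rw [hG]
    refine (natDegree_sub_le _ _).trans ?_
    apply max_le
    · refine (natDegree_C_mul_le _ _).trans ((natDegree_pow_le).trans ?_)
      have h1 : (C r - C α * X ^ a : (ZMod p)[X]).natDegree ≤ a := by
        refine (natDegree_sub_le _ _).trans (max_le ?_ ?_)
        · rw [natDegree_C]; exact Nat.zero_le _
        · exact natDegree_C_mul_X_pow_le _ _
      calc b' * (C r - C α * X ^ a : (ZMod p)[X]).natDegree ≤ b' * a := Nat.mul_le_mul_left _ h1
        _ = a * b' := Nat.mul_comm _ _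
        _ ≤ a * b' + a' * b := Nat.le_add_right _ _
    · refine (natDegree_C_mul_le _ _).trans ((natDegree_pow_le).trans ?_)
      have h1 : (C s - C α' * X ^ a' : (ZMod p)[X]).natDegree ≤ a' := by
        refine (natDegree_sub_le _ _).trans (max_le ?_ ?_)
        · rw [natDegree_C]; exact Nat.zero_le _
        · exact natDegree_C_mul_X_pow_le _ _
      calc b * (C s - C α' * X ^ a' : (ZMod p)[X]).natDegree ≤ b * a' := Nat.mul_le_mul_left _ h1
        _ = a' * b := Nat.mul_comm _ _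
        _ ≤ a * b' + a' * b := Nat.le_add_left _ _
  have hsub : (univ.filter (fun x : ZMod p => ∃ y : ZMod p, α * x ^ a + β * y ^ b = r ∧
      α' * x ^ a' + β' * y ^ b' = s)) ⊆ G.roots.toFinset := by
    intro x hx
    rw [mem_filter] at hx
    obtain ⟨-, y, h1, h2⟩ := hx
    rw [Multiset.mem_toFinset, mem_roots hG0, IsRoot, hG]
    simp only [eval_sub, eval_mul, eval_C, eval_pow, eval_X]
    have e1 : r - α * x ^ a = β * y ^ b := by rw [← h1]; ring
    have e2 : s - α' * x ^ a' = β' * y ^ b' := by rw [← h2]; ring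
    rw [e1, e2, mul_pow, mul_pow, ← pow_mul, ← pow_mul, Nat.mul_comm b' b]
    ring
  exact (card_le_card hsub).trans ((Multiset.toFinset_card_le _).trans ((card_roots' G).trans hdeg))

/-- two curves with different exponents of `x` -/
theorem pair_x (a a' b b' : ℕ) (ha : 0 < a) (ha' : 0 < a') (haa : a ≠ a') (hb : 0 < b) (hb' : 0 < b')
    (α α' β β' r s : ZMod p) (hα : α ≠ 0) (hα' : α' ≠ 0) (hβ : β ≠ 0) (hβ' : β' ≠ 0) (hr : r ≠ 0)
    (hs : s ≠ 0) (hbp : (b : ZMod p) ≠ 0) (hbp' : (b' : ZMod p) ≠ 0) :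
    (univ.filter (fun z : ZMod p × ZMod p => α * z.1 ^ a + β * z.2 ^ b = r ∧
      α' * z.1 ^ a' + β' * z.2 ^ b' = s)).card ≤ b * (a * b' + a' * b) := by
  have h1 : (univ.filter (fun x : ZMod p => ∃ y : ZMod p, α * x ^ a + β * y ^ b = r ∧
      α' * x ^ a' + β' * y ^ b' = s)).card ≤ a * b' + a' * b := by
    rcases lt_or_gt_of_ne haa with h | h
    · exact elim_card a a' b b' ha h hb hb' α α' β β' r s hα hβ' hr hbp'
    · have h2 := elim_card a' a b' b ha' h hb' hb α' α β' β s r hα' hβ hs hbp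
      have h3 : (univ.filter (fun x : ZMod p => ∃ y : ZMod p, α * x ^ a + β * y ^ b = r ∧
          α' * x ^ a' + β' * y ^ b' = s)) = (univ.filter (fun x : ZMod p => ∃ y : ZMod p,
          α' * x ^ a' + β' * y ^ b' = s ∧ α * x ^ a + β * y ^ b = r)) := by
        apply Finset.filter_congr
        intro x _
        constructor
        · rintro ⟨y, h4, h5⟩; exact ⟨y, h5, h4⟩
        · rintro ⟨y, h4, h5⟩; exact ⟨y, h5, h4⟩
      rw [h3]
      exact h2.trans (le_of_eq (Nat.add_comm _ _))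
  have h2 := Finset.card_le_mul_card_image_of_maps_to
    (s := univ.filter (fun z : ZMod p × ZMod p => α * z.1 ^ a + β * z.2 ^ b = r ∧
      α' * z.1 ^ a' + β' * z.2 ^ b' = s))
    (t := univ.filter (fun x : ZMod p => ∃ y : ZMod p, α * x ^ a + β * y ^ b = r ∧
      α' * x ^ a' + β' * y ^ b' = s)) (f := Prod.fst)
    (by
      intro z hz
      rw [mem_filter] at hz ⊢
      exact ⟨mem_univ _, z.2, hz.2⟩) b
    (by
      intro v _
      refine le_trans ?_ (card_pow_eq b hb ((r - α * v ^ a) / β))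
      apply Finset.card_le_card_of_injOn Prod.snd
      · intro z hz
        rw [Finset.mem_coe, mem_filter, mem_filter] at hz
        rw [Finset.mem_coe, mem_filter]
        refine ⟨mem_univ _, ?_⟩
        rw [eq_div_iff hβ, ← hz.2, ← hz.1.2.1]
        ring
      · intro z hz z' hz' hzz
        rw [Finset.mem_coe, mem_filter] at hz hz'
        exact Prod.ext (hz.2.trans hz'.2.symm) hzz)
  exact h2.trans (Nat.mul_le_mul_left _ h1)

/-- two curves with different exponents of `y` -/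
theorem pair_y (a a' b b' : ℕ) (ha : 0 < a) (ha' : 0 < a') (hb : 0 < b) (hb' : 0 < b') (hbb : b ≠ b')
    (α α' β β' r s : ZMod p) (hα : α ≠ 0) (hα' : α' ≠ 0) (hβ : β ≠ 0) (hβ' : β' ≠ 0) (hr : r ≠ 0)
    (hs : s ≠ 0) (hap : (a : ZMod p) ≠ 0) (hap' : (a' : ZMod p) ≠ 0) :
    (univ.filter (fun z : ZMod p × ZMod p => α * z.1 ^ a + β * z.2 ^ b = r ∧
      α' * z.1 ^ a' + β' * z.2 ^ b' = s)).card ≤ a * (b * a' + b' * a) := by
  have h1 := pair_x b b' a a' hb hb' hbb ha ha' β β' α α' r s hβ hβ' hα hα' hr hs hap hap'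
  refine le_trans (le_of_eq ?_) h1
  refine Finset.card_bij' (fun z _ => (z.2, z.1)) (fun z _ => (z.2, z.1)) ?_ ?_ ?_ ?_
  · intro z hz
    rw [mem_filter] at hz ⊢
    refine ⟨mem_univ _, ?_, ?_⟩
    · rw [← hz.2.1]; ring
    · rw [← hz.2.2]; ring
  · intro z hz
    rw [mem_filter] at hz ⊢
    refine ⟨mem_univ _, ?_, ?_⟩
    · rw [← hz.2.1]; ring
    · rw [← hz.2.2]; ring
  · intro z _; rfl
  · intro z _; rfl

/-- two curves with the same exponents -/
theorem pair_same (a b : ℕ) (ha : 0 < a) (hb : 0 < b) (β β' r s : ZMod p) (hββ : β ≠ β') :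
    (univ.filter (fun z : ZMod p × ZMod p => 1 * z.1 ^ a + β * z.2 ^ b = r ∧
      1 * z.1 ^ a + β' * z.2 ^ b = s)).card ≤ a * b := by
  have h2 := Finset.card_le_mul_card_image_of_maps_to
    (s := univ.filter (fun z : ZMod p × ZMod p => 1 * z.1 ^ a + β * z.2 ^ b = r ∧
      1 * z.1 ^ a + β' * z.2 ^ b = s))
    (t := univ.filter (fun y : ZMod p => y ^ b = (r - s) / (β - β'))) (f := Prod.snd)
    (by
      intro z hz
      rw [mem_filter] at hz ⊢
      refine ⟨mem_univ _, ?_⟩
      rw [eq_div_iff (sub_ne_zero.2 hββ), ← hz.2.1, ← hz.2.2]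
      ring) a
    (by
      intro v _
      refine le_trans ?_ (card_pow_eq a ha (r - β * v ^ b))
      apply Finset.card_le_card_of_injOn Prod.fst
      · intro z hz
        rw [Finset.mem_coe, mem_filter, mem_filter] at hz
        rw [Finset.mem_coe, mem_filter]
        refine ⟨mem_univ _, ?_⟩
        rw [← hz.2, ← hz.1.2.1]
        ring
      · intro z hz z' hz' hzz
        rw [Finset.mem_coe, mem_filter] at hz hz'
        exact Prod.ext hzz (hz.2.trans hz'.2.symm))
  exact h2.trans (Nat.mul_le_mul_left _ (card_pow_eq b hb _))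

end

theorem natCard_two (p : ℕ) [Fact p.Prime] (Q : ZMod p → ZMod p → Prop) :
    Nat.card {x : Fin 2 → ZMod p // Q (x 0) (x 1)} =
      (univ.filter (fun z : ZMod p × ZMod p => Q z.1 z.2)).card := by
  rw [Nat.card_eq_fintype_card, Fintype.card_subtype]
  refine Finset.card_bij' (fun x _ => (x 0, x 1)) (fun z _ => ![z.1, z.2]) ?_ ?_ ?_ ?_
  · intro x hx
    rw [mem_filter] at hx ⊢
    exact ⟨mem_univ _, hx.2⟩
  · intro z hz
    rw [mem_filter] at hz ⊢
    exact ⟨mem_univ _, hz.2⟩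
  · intro x _
    funext i
    fin_cases i <;> rfl
  · intro z _
    rfl

/-- record neighbourhoods around the values of all the given `x ^ a + β y ^ b` at one point -/
theorem pow_main {ι : Type} [Fintype ι] (a b : ι → ℕ) (β : ι → ℤ) (ha : ∀ j, 0 < a j) (hb : ∀ j, 0 < b j)
    (hβ : ∀ j, β j ≠ 0) (hinj : Function.Injective (fun j => (a j, b j, β j))) :
    ∃ c : ℝ, 0 < c ∧ ∃ Z₀ : ℝ, ∀ Z : ℕ, Z₀ ≤ Z → ∀ M : Fin 2 → ℤ, ∃ x : Fin 2 → ℤ,
      (∀ i, M i < x i ∧ x i ≤ M i + Z) ∧ ∀ j, ∀ h : ℤ, |(h : ℝ)| ≤ c * ff Z →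
        ∃ p : ℕ, p.Prime ∧ (p : ℝ) ≤ (Z : ℝ) ^ (1 / 10 : ℝ) ∧
          (p : ℤ) ∣ (x 0 ^ a j + β j * x 1 ^ b j) + h := by
  obtain ⟨B, hB⟩ : ∃ B : ℕ, B = ∑ j : ι, (a j + b j + (β j).natAbs) := ⟨_, rfl⟩
  have hBj : ∀ j, a j + b j + (β j).natAbs ≤ B := by
    intro j
    rw [hB]
    exact Finset.single_le_sum (f := fun j => a j + b j + (β j).natAbs) (fun _ _ => Nat.zero_le _)
      (mem_univ j)
  obtain ⟨K, hK⟩ : ∃ K : ℝ, K = 3 * (B : ℝ) ^ 3 + 4 * (B : ℝ) ^ 2 := ⟨_, rfl⟩
  have hK0 : 0 ≤ K := by rw [hK]; positivity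
  have hcast : ∀ (p : ℕ), p.Prime → ∀ m : ℤ, m ≠ 0 → m.natAbs < p → (m : ZMod p) ≠ 0 := by
    intro p hp m hm hmp h
    have h1 := (ZMod.intCast_zmod_eq_zero_iff_dvd m p).1 h
    have h2 := Int.natAbs_dvd_natAbs.2 h1
    rw [Int.natAbs_natCast] at h2
    have := Nat.le_of_dvd (Int.natAbs_pos.2 hm) h2
    omega
  refine gen0 2 (fun j p x => x 0 ^ a j + (β j : ZMod p) * x 1 ^ b j)
    (fun j x => x 0 ^ a j + β j * x 1 ^ b j) ?_ 0 ![1, 0] ?_ ?_
    K (1 / 2) hK0 (by norm_num) le_rfl ?_ ?_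
  · intro j p x
    push_cast
    rfl
  · intro j
    simp [(ha j).ne', (hb j).ne']
  · intro j
    simp [(hb j).ne']
  · intro p hp j r hr
    have : Fact p.Prime := ⟨hp⟩
    have hp0 : (0 : ℝ) < p := by exact_mod_cast hp.pos
    have hp1 : (1 : ℝ) ≤ p := by exact_mod_cast hp.one_lt.le
    have hNN : Nat.card {x : Fin 2 → ZMod p // x 0 ^ a j + (β j : ZMod p) * x 1 ^ b j = r} =
        NN p (a j) (b j) (β j : ZMod p) r := by
      rw [natCard_two p (fun u v => u ^ a j + (β j : ZMod p) * v ^ b j = r)]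
      unfold NN
      congr!
    rw [hNN]
    have hj := hBj j
    have hB1 : (a j : ℝ) ≤ B := by
      have : a j ≤ B := by omega
      exact_mod_cast this
    have hB2 : (b j : ℝ) ≤ B := by
      have : b j ≤ B := by omega
      exact_mod_cast this
    have hsq : (p : ℝ) ^ 2 * (p : ℝ) ^ (-(1 / 2) : ℝ) = p * Real.sqrt p := by
      rw [Real.sqrt_eq_rpow, ← Real.rpow_natCast, ← Real.rpow_add hp0]
      have : (p : ℝ) * (p : ℝ) ^ (1 / 2 : ℝ) = (p : ℝ) ^ (1 + 1 / 2 : ℝ) := by
        rw [Real.rpow_add hp0, Real.rpow_one]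
      rw [this]
      congr 1
      norm_num
    rw [mul_assoc, hsq]
    by_cases hpB : B < p
    · have hβp : (β j : ZMod p) ≠ 0 := hcast p hp _ (hβ j) (by omega)
      have h1 := NN_bound (p := p) (a j) (b j) (ha j) (hb j) _ hβp r hr
      have h2 : |(NN p (a j) (b j) (β j : ZMod p) r : ℝ) - p| ≤ 3 * (B : ℝ) ^ 3 * Real.sqrt p := by
        apply abs_le_of_sq_le_sq _ (by positivity)
        refine h1.trans ?_
        rw [mul_pow, Real.sq_sqrt hp0.le]
        apply mul_le_mul_of_nonneg_right _ hp0.le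
        have e1 : (a j : ℝ) ^ 3 * (b j : ℝ) ^ 3 ≤ (B : ℝ) ^ 3 * (B : ℝ) ^ 3 :=
          mul_le_mul (pow_le_pow_left₀ (Nat.cast_nonneg _) hB1 3)
            (pow_le_pow_left₀ (Nat.cast_nonneg _) hB2 3) (by positivity) (by positivity)
        nlinarith [e1, show (0 : ℝ) ≤ (B : ℝ) ^ 3 * (B : ℝ) ^ 3 by positivity]
      have h3 : (p : ℝ) * (NN p (a j) (b j) (β j : ZMod p) r : ℝ) - (p : ℝ) ^ 2 =
          p * ((NN p (a j) (b j) (β j : ZMod p) r : ℝ) - p) := by ring
      rw [h3, abs_mul, abs_of_pos hp0]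
      calc (p : ℝ) * |(NN p (a j) (b j) (β j : ZMod p) r : ℝ) - p| ≤ p * (3 * (B : ℝ) ^ 3 * Real.sqrt p) :=
            mul_le_mul_of_nonneg_left h2 hp0.le
        _ = 3 * (B : ℝ) ^ 3 * (p * Real.sqrt p) := by ring
        _ ≤ K * (p * Real.sqrt p) := by
            apply mul_le_mul_of_nonneg_right _ (by positivity)
            rw [hK]
            have : (0 : ℝ) ≤ 4 * (B : ℝ) ^ 2 := by positivity
            linarith
    · push Not at hpB
      have hpB' : (p : ℝ) ≤ B := by exact_mod_cast hpB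
      have h1 : (NN p (a j) (b j) (β j : ZMod p) r : ℝ) ≤ (p : ℝ) ^ 2 := by
        have h2 : NN p (a j) (b j) (β j : ZMod p) r ≤ p ^ 2 := by
          unfold NN
          refine (card_le_univ _).trans ?_
          rw [Fintype.card_prod, ZMod.card, pow_two]
        exact_mod_cast h2
      have h0 : (0 : ℝ) ≤ (NN p (a j) (b j) (β j : ZMod p) r : ℝ) := Nat.cast_nonneg _
      have h3 : |(p : ℝ) * (NN p (a j) (b j) (β j : ZMod p) r : ℝ) - (p : ℝ) ^ 2| ≤ (p : ℝ) ^ 3 := by
        rw [abs_le]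
        constructor
        · have e1 : (p : ℝ) ^ 2 ≤ (p : ℝ) ^ 3 := pow_le_pow_right₀ hp1 (by norm_num)
          have e2 : 0 ≤ (p : ℝ) * (NN p (a j) (b j) (β j : ZMod p) r : ℝ) := by positivity
          linarith
        · have e1 : (p : ℝ) * (NN p (a j) (b j) (β j : ZMod p) r : ℝ) ≤ p * (p : ℝ) ^ 2 :=
            mul_le_mul_of_nonneg_left h1 hp0.le
          have e2 : (p : ℝ) * (p : ℝ) ^ 2 = (p : ℝ) ^ 3 := by ring
          have e3 : (0 : ℝ) ≤ (p : ℝ) ^ 2 := by positivity
          linarith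
      refine h3.trans ?_
      have h4 : (1 : ℝ) ≤ Real.sqrt p := by
        rw [Real.one_le_sqrt]; exact hp1
      calc (p : ℝ) ^ 3 = (p : ℝ) ^ 2 * (p * 1) := by ring
        _ ≤ (B : ℝ) ^ 2 * (p * Real.sqrt p) := by
            apply mul_le_mul (pow_le_pow_left₀ hp0.le hpB' 2) _ (by positivity) (by positivity)
            exact mul_le_mul_of_nonneg_left h4 hp0.le
        _ ≤ K * (p * Real.sqrt p) := by
            apply mul_le_mul_of_nonneg_right _ (by positivity)
            rw [hK]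
            have e1 : (0 : ℝ) ≤ 3 * (B : ℝ) ^ 3 := by positivity
            have e2 : (0 : ℝ) ≤ (B : ℝ) ^ 2 := by positivity
            linarith
  · intro p hp i j hij r s hr hs
    have : Fact p.Prime := ⟨hp⟩
    have hp0 : (0 : ℝ) < p := by exact_mod_cast hp.pos
    have hNN : Nat.card {x : Fin 2 → ZMod p // x 0 ^ a i + (β i : ZMod p) * x 1 ^ b i = r ∧
        x 0 ^ a j + (β j : ZMod p) * x 1 ^ b j = s} =
        (univ.filter (fun z : ZMod p × ZMod p => 1 * z.1 ^ a i + (β i : ZMod p) * z.2 ^ b i = r ∧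
          1 * z.1 ^ a j + (β j : ZMod p) * z.2 ^ b j = s)).card := by
      rw [natCard_two p (fun u v => u ^ a i + (β i : ZMod p) * v ^ b i = r ∧
        u ^ a j + (β j : ZMod p) * v ^ b j = s)]
      simp only [one_mul]
      congr!
    rw [hNN, mul_comm]
    apply mul_le_mul_of_nonneg_right _ (by positivity)
    have hi := hBj i
    have hj := hBj j
    have hai := ha i
    have haj := ha j
    have hbi := hb i
    have hbj := hb j
    by_cases hpB : 2 * B < p
    · have hβi : (β i : ZMod p) ≠ 0 := hcast p hp _ (hβ i) (by omega)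
      have hβj : (β j : ZMod p) ≠ 0 := hcast p hp _ (hβ j) (by omega)
      have hn : ∀ n : ℕ, 0 < n → n ≤ B → (n : ZMod p) ≠ 0 := by
        intro n hn1 hn2
        have := hcast p hp (n : ℤ) (by exact_mod_cast hn1.ne') (by rw [Int.natAbs_natCast]; omega)
        push_cast at this
        exact this
      have hai' : a i ≤ B := by omega
      have haj' : a j ≤ B := by omega
      have hbi' : b i ≤ B := by omega
      have hbj' : b j ≤ B := by omega
      have hmul : ∀ u v w t q : ℕ, u ≤ B → v ≤ B → w ≤ B → t ≤ B → q ≤ B →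
          u * (v * w + t * q) ≤ 2 * B ^ 3 := by
        intro u v w t q hu hv hw ht hq
        calc u * (v * w + t * q) ≤ B * (B * B + B * B) :=
              Nat.mul_le_mul hu (Nat.add_le_add (Nat.mul_le_mul hv hw) (Nat.mul_le_mul ht hq))
          _ = 2 * B ^ 3 := by ring
      have hfinal : (univ.filter (fun z : ZMod p × ZMod p => 1 * z.1 ^ a i + (β i : ZMod p) * z.2 ^ b i = r ∧
          1 * z.1 ^ a j + (β j : ZMod p) * z.2 ^ b j = s)).card ≤ 2 * B ^ 3 := by
        by_cases haa : a i = a j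
        · by_cases hbb : b i = b j
          · have hββ : (β i : ZMod p) ≠ (β j : ZMod p) := by
              intro h
              have h1 : β i ≠ β j := by
                intro h2
                apply hij
                apply hinj
                simp only [haa, hbb, h2]
              have h3 := hcast p hp (β i - β j) (sub_ne_zero.2 h1) (by
                have := Int.natAbs_sub_le (β i) (β j)
                omega)
              apply h3
              push_cast
              rw [h, sub_self]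
            rw [← haa, ← hbb]
            refine (pair_same (a i) (b i) hai hbi _ _ r s hββ).trans ?_
            have h1 : 1 ≤ B := by omega
            calc a i * b i ≤ B * B := Nat.mul_le_mul hai' hbi'
              _ ≤ 2 * B ^ 3 := by nlinarith [Nat.mul_le_mul h1 (Nat.mul_le_mul (le_refl B) (le_refl B))]
          · exact (pair_y (a i) (a j) (b i) (b j) hai haj hbi hbj hbb 1 1 _ _ r s one_ne_zero one_ne_zero
              hβi hβj hr hs (hn _ hai hai') (hn _ haj haj')).trans (hmul _ _ _ _ _ hai' hbi' haj' hbj' hai')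
        · exact (pair_x (a i) (a j) (b i) (b j) hai haj haa hbi hbj 1 1 _ _ r s one_ne_zero one_ne_zero
            hβi hβj hr hs (hn _ hbi hbi') (hn _ hbj hbj')).trans (hmul _ _ _ _ _ hbi' hai' hbj' haj' hbi')
      have h1 : ((univ.filter (fun z : ZMod p × ZMod p => 1 * z.1 ^ a i + (β i : ZMod p) * z.2 ^ b i = r ∧
          1 * z.1 ^ a j + (β j : ZMod p) * z.2 ^ b j = s)).card : ℝ) ≤ 2 * (B : ℝ) ^ 3 := by
        exact_mod_cast hfinal
      refine h1.trans ?_
      rw [hK]
      have e1 : (0 : ℝ) ≤ (B : ℝ) ^ 3 := by positivity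
      have e2 : (0 : ℝ) ≤ 4 * (B : ℝ) ^ 2 := by positivity
      linarith
    · push Not at hpB
      have hpB' : (p : ℝ) ≤ 2 * B := by exact_mod_cast hpB
      have h1 : ((univ.filter (fun z : ZMod p × ZMod p => 1 * z.1 ^ a i + (β i : ZMod p) * z.2 ^ b i = r ∧
          1 * z.1 ^ a j + (β j : ZMod p) * z.2 ^ b j = s)).card : ℝ) ≤ (p : ℝ) ^ 2 := by
        have h2 : (univ.filter (fun z : ZMod p × ZMod p => 1 * z.1 ^ a i + (β i : ZMod p) * z.2 ^ b i = r ∧
            1 * z.1 ^ a j + (β j : ZMod p) * z.2 ^ b j = s)).card ≤ p ^ 2 := by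
          refine (card_le_univ _).trans ?_
          rw [Fintype.card_prod, ZMod.card, pow_two]
        exact_mod_cast h2
      refine h1.trans ?_
      rw [hK]
      have e1 : (0 : ℝ) ≤ 3 * (B : ℝ) ^ 3 := by positivity
      have e2 : (p : ℝ) ^ 2 ≤ (2 * (B : ℝ)) ^ 2 := pow_le_pow_left₀ hp0.le hpB' 2
      nlinarith

end Pool.Agent.Y837.SV
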