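import Pool.Agent.H144R2.QG.QP

set_option autoImplicit false
set_option linter.unusedVariables false

/-! # A mixed upper bound sieve with arbitrary nonzero classes (project SV, helper837)

Generalises `Pool.Agent.H378R2.QG.sieve_mixed` (helper144): `s` is any integer that is not divisible by the
sieving primes, and the primes up to `B` are not used. -/

namespace Pool.Agent.Y837.SV.QP2

open Finset ArithmeticFunction BoundingSieve
open Pool.Agent.Helper112.E456.SieveAux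
open Pool.Agent.H378R2.QG.QP

theorem no_common2 {m : ℕ} {s : ℤ} {K q p : ℕ} (hs : ∀ p : ℕ, p.Prime → p ∣ K → ¬ (p : ℤ) ∣ s) (hp : p.Prime)
    (h1 : p ∣ q) : ¬ p ∣ gg m s K q := by
  intro h2
  have h3 : p ∣ ((m : ℤ) * q + s).natAbs := h2.trans (Nat.gcd_dvd_right _ _)
  have h3' : p ∣ K := h2.trans (Nat.gcd_dvd_left _ _)
  rw [natAbs_dvd_iff] at h3
  have h4 : (p : ℤ) ∣ (m : ℤ) * q := by
    have : (p : ℤ) ∣ (q : ℤ) := by exact_mod_cast h1
    exact this.mul_left _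
  have h5 : (p : ℤ) ∣ s := (Int.dvd_add_right h4).1 h3
  exact hs p hp h3' h5

theorem count_fq2 {m : ℕ} {s : ℤ} {K d : ℕ} (N : ℕ) (hs : ∀ p : ℕ, p.Prime → p ∣ K → ¬ (p : ℤ) ∣ s)
    (hK : 0 < K) (hd : Squarefree d) (hd2 : Nat.Coprime d 2) (hdm : Nat.Coprime d m) :
    |(((Icc 1 N).filter (fun q => d ∣ fq m s K q)).card : ℝ) - nuK K d * N|
      ≤ (Nat.divisors d).card := by
  classical
  have hd0 : 0 < d := Nat.pos_of_ne_zero hd.ne_zero
  have hg0 : Nat.gcd d K ≠ 0 := (Nat.gcd_pos_of_pos_left _ hd0).ne'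
  have h1 : (((Icc 1 N).filter (fun q => d ∣ fq m s K q)).card : ℝ)
      = ∑ e ∈ Nat.divisorsAntidiagonal d,
        (((Icc 1 N).filter (fun q => e.1 ∣ q ∧ e.2 ∣ gg m s K q)).card : ℝ) := by
    have h2 : ∀ (P : ℕ → Prop) [DecidablePred P], (((Icc 1 N).filter P).card : ℝ)
        = ∑ n ∈ Icc 1 N, if P n then (1 : ℝ) else 0 := by
      intro P _
      rw [Finset.card_filter]; push_cast; rfl
    rw [h2]
    simp_rw [h2]
    rw [Finset.sum_comm]
    apply Finset.sum_congr rfl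
    intro q _
    rw [factor_count hd]
    · simp only [dvd_fq_iff hd2]
    · intro p hp hpd h3
      exact no_common2 hs hp h3
  have h2 : nuK K d * N = ∑ e ∈ Nat.divisorsAntidiagonal d,
      if e.2 ∣ K then (N : ℝ) / d else 0 := by
    rw [← Finset.sum_filter, Finset.sum_const, nsmul_eq_mul, nuK_apply]
    have h3 : ((Nat.divisorsAntidiagonal d).filter (fun e => e.2 ∣ K)).card
        = (Nat.divisors (Nat.gcd d K)).card := by
      apply Finset.card_nbij' (fun e => e.2) (fun e => (d / e, e))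
      · rintro ⟨e1, e2⟩ he
        simp only [coe_filter, Nat.mem_divisorsAntidiagonal, Set.mem_ofPred_eq] at he
        rw [Finset.mem_coe, Nat.mem_divisors]
        exact ⟨Nat.dvd_gcd (he.1.1 ▸ dvd_mul_left _ _) he.2, hg0⟩
      · intro e he
        rw [Finset.mem_coe, Nat.mem_divisors] at he
        have h4 : e ∣ d := he.1.trans (Nat.gcd_dvd_left _ _)
        simp only [coe_filter, Nat.mem_divisorsAntidiagonal, Set.mem_ofPred_eq]
        exact ⟨⟨Nat.div_mul_cancel h4, hd.ne_zero⟩, he.1.trans (Nat.gcd_dvd_right _ _)⟩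
      · rintro ⟨e1, e2⟩ he
        simp only [coe_filter, Nat.mem_divisorsAntidiagonal, Set.mem_ofPred_eq] at he
        have h5 : 0 < e2 := Nat.pos_of_ne_zero (by rintro rfl; apply hd.ne_zero; rw [← he.1.1]; simp)
        simp only [Prod.mk.injEq, and_true]
        rw [← he.1.1, Nat.mul_div_cancel _ h5]
      · intro e _
        rfl
    rw [h3]; ring
  rw [h1, h2, ← Finset.sum_sub_distrib]
  refine (Finset.abs_sum_le_sum_abs _ _).trans ?_
  have h3 : ∀ e ∈ Nat.divisorsAntidiagonal d,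
      |(((Icc 1 N).filter (fun q => e.1 ∣ q ∧ e.2 ∣ gg m s K q)).card : ℝ)
        - (if e.2 ∣ K then (N : ℝ) / d else 0)| ≤ 1 := by
    rintro ⟨e1, e2⟩ he
    rw [Nat.mem_divisorsAntidiagonal] at he
    simp only at he ⊢
    have he1 : e1 ∣ d := he.1 ▸ dvd_mul_right _ _
    have he2 : e2 ∣ d := he.1 ▸ dvd_mul_left _ _
    have h12 : Nat.Coprime e1 e2 := by
      apply Nat.coprime_of_squarefree_mul
      rw [he.1]; exact hd
    by_cases hK2 : e2 ∣ K
    · rw [if_pos hK2]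
      obtain ⟨c, hc⟩ := exists_class_two' (m := m) (s := s) (Nat.pos_of_dvd_of_pos he1 hd0)
        (Nat.pos_of_dvd_of_pos he2 hd0) (Nat.Coprime.coprime_dvd_left he2 hdm).symm h12
      have h4 : (Icc 1 N).filter (fun q => e1 ∣ q ∧ e2 ∣ gg m s K q)
          = (Icc 1 N).filter (fun n => n ≡ c [MOD d]) := by
        apply Finset.filter_congr
        intro n _
        have h5 : e2 ∣ gg m s K n ↔ (e2 : ℤ) ∣ (m : ℤ) * n + s := by
          unfold gg
          rw [Nat.dvd_gcd_iff, natAbs_dvd_iff]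
          exact ⟨fun h => h.2, fun h => ⟨hK2, h⟩⟩
        rw [h5, hc n, he.1]
      rw [h4]
      exact count_class N d c hd0
    · rw [if_neg hK2]
      have h4 : (Icc 1 N).filter (fun q => e1 ∣ q ∧ e2 ∣ gg m s K q) = ∅ := by
        apply Finset.filter_false_of_mem
        intro q _ h5
        exact hK2 (h5.2.trans (Nat.gcd_dvd_left _ _))
      rw [h4]; simp
  refine (Finset.sum_le_sum h3).trans ?_
  rw [Finset.sum_const, nsmul_eq_mul, mul_one]
  have : (Nat.divisorsAntidiagonal d).card = (Nat.divisors d).card := by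
    rw [← Nat.map_div_right_divisors, Finset.card_map]
  rw [this]

theorem rem_le2 {m : ℕ} {s : ℤ} {K N R M d : ℕ} (hs : ∀ p : ℕ, p.Prime → p ∣ K → ¬ (p : ℤ) ∣ s)
    (hK : 0 < K) (hM : 2 ∣ M) (hmM : m ∣ M) (hd : d ∣ PR R M) :
    |(sq m s K N R M hM).rem d| ≤ d := by
  have hsq : Squarefree d := (PR_squarefree R M).squarefree_of_dvd hd
  have hdM := coprime_of_dvd_PR hd
  have hcop : Nat.Coprime d m := Nat.Coprime.coprime_dvd_right hmM hdM
  have hcop2 : Nat.Coprime d 2 := Nat.Coprime.coprime_dvd_right hM hdM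
  have h1 := count_fq2 N hs hK hsq hcop2 hcop
  have h2 : (sq m s K N R M hM).multSum d
      = (((Icc 1 N).filter (fun q => d ∣ fq m s K q)).card : ℝ) := by
    unfold multSum
    show ∑ n ∈ (Icc 1 N).image (fq m s K), (if d ∣ n then (1 : ℝ) else 0) = _
    rw [Finset.sum_image (fq_inj N hK), Finset.card_filter]
    push_cast; rfl
  have h3 : (sq m s K N R M hM).rem d
      = (((Icc 1 N).filter (fun q => d ∣ fq m s K q)).card : ℝ) - nuK K d * N := by
    unfold BoundingSieve.rem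
    rw [h2]; rfl
  rw [h3]
  refine h1.trans ?_
  exact_mod_cast Nat.card_divisors_le_self d

open Classical in
theorem card_le_sifted2 {m w : ℕ} {s : ℤ} {N R M B : ℕ} (hM : 2 ∣ M) (hB : ∀ p : ℕ, p.Prime → p ≤ B → p ∣ M) :
    (((Icc 1 N).filter (fun q : ℕ => q.Prime ∧
      ∀ p : ℕ, p.Prime → B < p → p ≤ w → ¬ ((p : ℤ) ∣ (m : ℤ) * (q : ℤ) + s))).card : ℝ)
      ≤ R + (sq m s (PR w M) N R M hM).siftedSum := by
  classical
  rw [siftedSum_eq' (PR_pos w M) hM]
  have h1 : (Icc 1 N).filter (fun q : ℕ => q.Prime ∧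
      ∀ p : ℕ, p.Prime → B < p → p ≤ w → ¬ ((p : ℤ) ∣ (m : ℤ) * (q : ℤ) + s))
      ⊆ Icc 1 R ∪ (Icc 1 N).filter (fun q => Nat.Coprime (PR R M) (fq m s (PR w M) q)) := by
    intro q hq
    rw [mem_filter, mem_Icc] at hq
    rw [mem_union, mem_Icc, mem_filter, mem_Icc]
    obtain ⟨⟨hq1, hq2⟩, hp1, hp2⟩ := hq
    by_cases hqR : q ≤ R
    · left; exact ⟨hq1, hqR⟩
    · right
      refine ⟨⟨hq1, hq2⟩, ?_⟩
      rw [Nat.coprime_iff_gcd_eq_one]
      by_contra h
      obtain ⟨p, hp, hpd⟩ := Nat.exists_prime_and_dvd h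
      have h2 : p ∣ PR R M := hpd.trans (Nat.gcd_dvd_left _ _)
      have h3 : p ∣ fq m s (PR w M) q := hpd.trans (Nat.gcd_dvd_right _ _)
      have hpR := (prime_dvd_PR hp).1 h2
      have hp2' : Nat.Coprime p 2 := by
        rw [Nat.coprime_primes hp Nat.prime_two]
        rintro rfl
        exact hpR.2 hM
      rw [dvd_fq_iff hp2'] at h3
      rcases (Nat.Prime.dvd_mul hp).1 h3 with h4 | h4
      · have h5 := (Nat.prime_dvd_prime_iff_eq hp hp1).1 h4
        omega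
      · unfold gg at h4
        rw [Nat.dvd_gcd_iff, natAbs_dvd_iff, prime_dvd_PR hp] at h4
        have hBp : B < p := by
          by_contra hcon
          exact hpR.2 (hB p hp (not_lt.1 hcon))
        exact hp2 p hp hBp h4.1.1 h4.2
  have h2 := Finset.card_le_card h1
  have h3 := h2.trans (Finset.card_union_le _ _)
  rw [Nat.card_Icc] at h3
  simp only [Nat.add_sub_cancel] at h3
  exact_mod_cast h3

open Classical in
/-- a mixed upper bound sieve with arbitrary nonzero classes at the primes of `(B, w]` -/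
theorem sieve_mixed2 (B : ℕ) : ∃ C : ℝ, 0 < C ∧ ∀ (m N w : ℕ) (s : ℤ),
    (∀ p : ℕ, p.Prime → B < p → p ≤ w → ¬ (p : ℤ) ∣ s) → 0 < m → 2 ≤ w →
    (w : ℝ) ≤ (N : ℝ) ^ (1 / 16 : ℝ) →
    (((Finset.Icc 1 N).filter (fun q : ℕ => q.Prime ∧
      ∀ p : ℕ, p.Prime → B < p → p ≤ w → ¬ ((p : ℤ) ∣ (m : ℤ) * (q : ℤ) + s))).card : ℝ) ≤
      C * ((m : ℝ) / (Nat.totient m : ℝ)) ^ 2 * N / (Real.log N * Real.log w) := by
  obtain ⟨b, hb⟩ : ∃ b : ℕ, b = 2 * B.factorial := ⟨_, rfl⟩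
  have hb0 : 0 < b := by rw [hb]; positivity
  obtain ⟨β, hβ⟩ : ∃ β : ℝ, β = (b : ℝ) / (Nat.totient b : ℝ) := ⟨_, rfl⟩
  have hφb : (0 : ℝ) < Nat.totient b := by exact_mod_cast Nat.totient_pos.2 hb0
  have hβ1 : 1 ≤ β := by
    rw [hβ, one_le_div hφb]
    exact_mod_cast Nat.totient_le b
  refine ⟨128 * β ^ 2 + 128, by positivity, ?_⟩
  intro m N w sg hsg hm hw hwN
  have hwr : (2 : ℝ) ≤ w := by exact_mod_cast hw
  have hN1 : 1 ≤ N := by
    rcases Nat.eq_zero_or_pos N with h | h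
    · subst h
      rw [Nat.cast_zero, Real.zero_rpow (by norm_num)] at hwN
      linarith
    · exact h
  have hN0 : (0 : ℝ) < N := by exact_mod_cast hN1
  have hNR : (2 : ℝ) ≤ N := by
    have h1 : (1 : ℝ) ≤ N := by exact_mod_cast hN1
    calc (2 : ℝ) ≤ (N : ℝ) ^ (1 / 16 : ℝ) := hwr.trans hwN
      _ ≤ (N : ℝ) ^ (1 : ℝ) := Real.rpow_le_rpow_of_exponent_le h1 (by norm_num)
      _ = N := Real.rpow_one _
  have hlog : 0 < Real.log N := Real.log_pos (by linarith)
  have hlogw : 0 < Real.log w := Real.log_pos (by linarith)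
  set M := b * m with hM
  have hM2 : 2 ∣ M := by rw [hM, hb, mul_assoc]; exact dvd_mul_right _ _
  have hmM : m ∣ M := dvd_mul_left _ _
  have hM0 : M ≠ 0 := (Nat.mul_pos hb0 hm).ne'
  have hBM : ∀ p : ℕ, p.Prime → p ≤ B → p ∣ M := by
    intro p hp hpB
    rw [hM, hb]
    exact Dvd.dvd.mul_right (Dvd.dvd.mul_left ((Nat.Prime.dvd_factorial hp).2 hpB) _) _
  set X := ⌊(N : ℝ) ^ ((1 : ℝ) / 16)⌋₊ with hX
  have hX1 : 1 ≤ X := by
    rw [hX, Nat.one_le_floor_iff]
    exact Real.one_le_rpow (by linarith) (by norm_num)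
  have hXle : (X : ℝ) ≤ (N : ℝ) ^ ((1 : ℝ) / 16) := Nat.floor_le (by positivity)
  have hXlt : (N : ℝ) ^ ((1 : ℝ) / 16) < X + 1 := Nat.lt_floor_add_one _
  have hlogX : Real.log N / 16 ≤ Real.log (X + 1) := by
    have h1 := Real.log_le_log (by positivity) hXlt.le
    rw [Real.log_rpow hN0] at h1
    linarith
  have hwX : w ≤ X := by
    rw [hX]; exact Nat.le_floor hwN
  set R := w * X with hR
  have hR1 : 1 ≤ R := Nat.mul_pos (by omega) hX1
  set K := PR w M with hK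
  have hK0 : 0 < K := PR_pos w M
  have hsK : ∀ p : ℕ, p.Prime → p ∣ K → ¬ (p : ℤ) ∣ sg := by
    intro p hp hpK
    have h1 := (prime_dvd_PR hp).1 hpK
    refine hsg p hp ?_ h1.1
    by_contra hcon
    exact h1.2 (hBM p hp (not_lt.1 hcon))
  set t := sq m sg K N R M hM2 with ht
  -- main Selberg bound
  have hsel := selberg_bound (s := t) R hR1 (A := R) (B := (R : ℝ) ^ 2) (by positivity) (by positivity)
    (by
      intro d hd hdR
      refine (g_div_nu_le' hM2 (Nat.dvd_of_mem_divisors hd)).trans ?_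
      exact_mod_cast hdR)
    (by
      intro d hd hdR
      refine (rem_le2 hsK hK0 hM2 hmM (Nat.dvd_of_mem_divisors hd)).trans ?_
      exact_mod_cast hdR)
  have hcard := card_le_sifted2 (m := m) (w := w) (s := sg) (N := N) (R := R) (B := B) hM2 hBM
  -- lower bound for J
  have hJ1 := JJ_lower' (m := m) (s := sg) (K := K) (N := N) (R := R) hM2
  have hU := U_lower X M hM0
  have hUw := U_lower w M hM0
  have hUs := U_mul w X M
  have hJpos : 0 < JJ t R := JJ_pos R hR1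
  have htot : (0 : ℝ) < Nat.totient m := by exact_mod_cast Nat.totient_pos.2 hm
  have hmr : (0 : ℝ) < m := by exact_mod_cast hm
  set G := (m : ℝ) / (Nat.totient m : ℝ) with hG
  have hG1 : 1 ≤ G := by
    rw [hG, one_le_div htot]
    exact_mod_cast Nat.totient_le m
  have hMG : (M : ℝ) / (Nat.totient M : ℝ) ≤ β * G := by
    rw [hG, hM, hβ, div_mul_div_comm]
    push_cast
    apply div_le_div_of_nonneg_left (by positivity) (by positivity)
    exact_mod_cast Nat.totient_super_multiplicative b m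
  have hU0 : 0 ≤ U X M := Finset.sum_nonneg fun _ _ => by positivity
  have hUw0 : 0 ≤ U w M := Finset.sum_nonneg fun _ _ => by positivity
  have hU2 : Real.log N ≤ 32 * β * G * U X M := by
    have h1 : Real.log (X + 1) ≤ 2 * (β * G) * U X M := by
      refine hU.trans ?_
      gcongr
    linarith
  have hUw2 : Real.log w ≤ 2 * β * G * U w M := by
    have h1 : Real.log (w + 1) ≤ 2 * (β * G) * U w M := by
      refine hUw.trans ?_
      gcongr
    have h2 : Real.log w ≤ Real.log (w + 1) := Real.log_le_log (by linarith) (by linarith)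
    linarith
  have hJ2 : Real.log N * Real.log w ≤ 128 * β ^ 2 * G ^ 2 * JJ t R := by
    calc Real.log N * Real.log w ≤ (32 * β * G * U X M) * (2 * β * G * U w M) := by gcongr
      _ = 64 * β ^ 2 * G ^ 2 * (U w M * U X M) := by ring
      _ ≤ 64 * β ^ 2 * G ^ 2 * (2 * JJ t R) := by
          have h5 : U w M * U X M ≤ 2 * JJ t R := hUs.trans (by linarith)
          exact mul_le_mul_of_nonneg_left h5 (by positivity)
      _ = _ := by ring
  have hmain : t.totalMass / JJ t R ≤ 128 * β ^ 2 * G ^ 2 * N / (Real.log N * Real.log w) := by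
    show (N : ℝ) / JJ t R ≤ _
    rw [div_le_div_iff₀ hJpos (by positivity)]
    calc (N : ℝ) * (Real.log N * Real.log w) ≤ N * (128 * β ^ 2 * G ^ 2 * JJ t R) := by gcongr
      _ = _ := by ring
  -- error terms
  have hwN' : (w : ℝ) ≤ N := by
    have h1 : (1 : ℝ) ≤ N := by linarith
    calc (w : ℝ) ≤ (N : ℝ) ^ (1 / 16 : ℝ) := hwN
      _ ≤ (N : ℝ) ^ (1 : ℝ) := Real.rpow_le_rpow_of_exponent_le h1 (by norm_num)
      _ = N := Real.rpow_one _
  have hlogwN : Real.log w ≤ Real.log N := Real.log_le_log (by linarith) hwN'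
  have hlog8 : Real.log N * Real.log w ≤ 64 * (N : ℝ) ^ ((1 : ℝ) / 4) := by
    have h1 : Real.log N ≤ (N : ℝ) ^ ((1 : ℝ) / 8) / (1 / 8) :=
      Real.log_le_rpow_div hN0.le (by norm_num)
    calc Real.log N * Real.log w ≤ Real.log N * Real.log N := by gcongr
      _ = (Real.log N) ^ 2 := by ring
      _ ≤ ((N : ℝ) ^ ((1 : ℝ) / 8) / (1 / 8)) ^ 2 := by gcongr
      _ = 64 * ((N : ℝ) ^ ((1 : ℝ) / 8)) ^ 2 := by ring
      _ = 64 * (N : ℝ) ^ ((1 : ℝ) / 4) := by
          rw [← Real.rpow_natCast, ← Real.rpow_mul hN0.le]; norm_num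
  have hX12 : (X : ℝ) ^ 12 ≤ (N : ℝ) ^ ((3 : ℝ) / 4) := by
    calc (X : ℝ) ^ 12 ≤ ((N : ℝ) ^ ((1 : ℝ) / 16)) ^ 12 := by gcongr
      _ = (N : ℝ) ^ ((3 : ℝ) / 4) := by
          rw [← Real.rpow_natCast, ← Real.rpow_mul hN0.le]; norm_num
  have hX1r : (1 : ℝ) ≤ X := by exact_mod_cast hX1
  have herr : (N : ℝ) ^ ((3 : ℝ) / 4) ≤ 64 * G ^ 2 * N / (Real.log N * Real.log w) := by
    rw [le_div_iff₀ (by positivity)]
    calc (N : ℝ) ^ ((3 : ℝ) / 4) * (Real.log N * Real.log w)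
        ≤ (N : ℝ) ^ ((3 : ℝ) / 4) * (64 * (N : ℝ) ^ ((1 : ℝ) / 4)) := by gcongr
      _ = 64 * ((N : ℝ) ^ ((3 : ℝ) / 4) * (N : ℝ) ^ ((1 : ℝ) / 4)) := by ring
      _ = 64 * N := by
          rw [← Real.rpow_add hN0]; norm_num
      _ ≤ 64 * G ^ 2 * N := by
          have : 1 ≤ G ^ 2 := one_le_pow₀ hG1
          nlinarith
  have hRr : (R : ℝ) ≤ (X : ℝ) ^ 2 := by
    rw [hR]; push_cast
    have : (w : ℝ) ≤ X := by exact_mod_cast hwX
    nlinarith
  have he1 : (R : ℝ) ≤ (N : ℝ) ^ ((3 : ℝ) / 4) := by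
    refine hRr.trans (le_trans ?_ hX12)
    exact pow_le_pow_right₀ hX1r (by norm_num)
  have hR0 : (0 : ℝ) ≤ R := Nat.cast_nonneg _
  have he2 : (R : ℝ) ^ 2 * ((R : ℝ) * R) ^ 2 ≤ (N : ℝ) ^ ((3 : ℝ) / 4) := by
    calc (R : ℝ) ^ 2 * ((R : ℝ) * R) ^ 2
        ≤ ((X : ℝ) ^ 2) ^ 2 * ((X : ℝ) ^ 2 * (X : ℝ) ^ 2) ^ 2 := by gcongr
      _ = (X : ℝ) ^ 12 := by ring
      _ ≤ _ := hX12
  calc _ ≤ (R : ℝ) + t.siftedSum := hcard
    _ ≤ (N : ℝ) ^ ((3 : ℝ) / 4) + (128 * β ^ 2 * G ^ 2 * N / (Real.log N * Real.log w)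
        + (N : ℝ) ^ ((3 : ℝ) / 4)) := by
        linarith
    _ ≤ 64 * G ^ 2 * N / (Real.log N * Real.log w) + (128 * β ^ 2 * G ^ 2 * N / (Real.log N * Real.log w)
        + 64 * G ^ 2 * N / (Real.log N * Real.log w)) := by linarith
    _ = (128 * β ^ 2 + 128) * G ^ 2 * N / (Real.log N * Real.log w) := by ring

end Pool.Agent.Y837.SV.QP2
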