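import Pool.Agent.Y837.SV.Weyl

set_option autoImplicit false
set_option linter.unusedSectionVars false
set_option linter.unusedVariables false

/-! # Record neighbourhoods around sums of three polynomials in disjoint variables (project SV, helper837) -/

namespace Pool.Agent.Y837.SV

open Finset Filter
open Pool.Agent.H256R2.SC (ff)

open scoped Classical

section

variable {p : ℕ} [Fact p.Prime]

/-- the exponential sum of a function -/
noncomputable def EX {X : Type} [Fintype X] (a : X → ZMod p) (t : ZMod p) : ℂ :=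
  ∑ x : X, ZMod.stdAddChar (a x * t)

theorem EX_eq {X : Type} [Fintype X] (a : X → ZMod p) (t : ZMod p) :
    EX a t = ∑ r : ZMod p, ((univ.filter (fun x : X => a x = r)).card : ℂ) *
      ZMod.stdAddChar (r * t) := by
  unfold EX
  rw [← Finset.sum_fiberwise_of_maps_to (s := univ) (t := univ) (g := fun x : X => a x)
    (fun x _ => mem_univ _)]
  refine Finset.sum_congr rfl fun r _ => ?_
  rw [Finset.sum_congr rfl (g := fun _ => (ZMod.stdAddChar (r * t) : ℂ))
    (fun x hx => by rw [(mem_filter.1 hx).2]), Finset.sum_const, nsmul_eq_mul]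

/-- the second moment -/
theorem EX_second {X : Type} [Fintype X] (a : X → ZMod p) (D : ℝ)
    (hD : ∀ r, ((univ.filter (fun x : X => a x = r)).card : ℝ) * p ≤ D * Fintype.card X) :
    ∑ t : ZMod p, ‖EX a t‖ ^ 2 ≤ D * (Fintype.card X : ℝ) ^ 2 := by
  have hp := (Fact.out : p.Prime)
  have hp0 : (0 : ℝ) < p := by exact_mod_cast hp.pos
  simp_rw [EX_eq]
  rw [parseval, Finset.mul_sum]
  have h1 : ∀ r : ZMod p, (p : ℝ) * ‖((univ.filter (fun x : X => a x = r)).card : ℂ)‖ ^ 2 ≤
      D * Fintype.card X * ((univ.filter (fun x : X => a x = r)).card : ℝ) := by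
    intro r
    rw [Complex.norm_natCast, pow_two]
    have h2 : (0 : ℝ) ≤ ((univ.filter (fun x : X => a x = r)).card : ℝ) := Nat.cast_nonneg _
    calc (p : ℝ) * (((univ.filter (fun x : X => a x = r)).card : ℝ) *
          ((univ.filter (fun x : X => a x = r)).card : ℝ)) =
          (((univ.filter (fun x : X => a x = r)).card : ℝ) * p) *
            ((univ.filter (fun x : X => a x = r)).card : ℝ) := by ring
      _ ≤ _ := mul_le_mul_of_nonneg_right (hD r) h2
  refine (Finset.sum_le_sum fun r _ => h1 r).trans ?_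
  rw [← Finset.mul_sum]
  have h4 : ∑ r : ZMod p, (univ.filter (fun x : X => a x = r)).card = Fintype.card X := by
    rw [← Finset.card_eq_sum_card_fiberwise (f := fun x : X => a x) (s := univ) (t := univ)
      (fun x _ => by simp), card_univ]
  have h5 : ∑ r : ZMod p, ((univ.filter (fun x : X => a x = r)).card : ℝ) = Fintype.card X := by
    exact_mod_cast h4
  rw [h5]
  apply le_of_eq
  ring

/-- the number of the solutions of `a x + b y + c w = r` -/
theorem three_conv {X Y W : Type} [Fintype X] [Fintype Y] [Fintype W] (a : X → ZMod p) (b : Y → ZMod p)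
    (c : W → ZMod p) (Da Db K : ℝ) (hDa0 : 0 ≤ Da) (hDb0 : 0 ≤ Db) (hK0 : 0 ≤ K)
    (hDa : ∀ r, ((univ.filter (fun x : X => a x = r)).card : ℝ) * p ≤ Da * Fintype.card X)
    (hDb : ∀ r, ((univ.filter (fun x : Y => b x = r)).card : ℝ) * p ≤ Db * Fintype.card Y)
    (hK : ∀ t : ZMod p, t ≠ 0 → ‖EX c t‖ ≤ K) (r : ZMod p) :
    |(p : ℝ) * ((univ.filter (fun z : X × Y × W => a z.1 + b z.2.1 + c z.2.2 = r)).card : ℝ) -
      (Fintype.card X : ℝ) * Fintype.card Y * Fintype.card W| ≤
      (Da + Db) * K * Fintype.card X * Fintype.card Y := by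
  have hp := (Fact.out : p.Prime)
  have hp0 : (0 : ℝ) < p := by exact_mod_cast hp.pos
  have hprim : (ZMod.stdAddChar (N := p)).IsPrimitive := ZMod.isPrimitive_stdAddChar p
  have h1 : (p : ℂ) * ((univ.filter (fun z : X × Y × W => a z.1 + b z.2.1 + c z.2.2 = r)).card : ℂ) =
      ∑ t : ZMod p, ZMod.stdAddChar (-r * t) * (EX a t * EX b t * EX c t) := by
    have h2 : ∀ t : ZMod p, ZMod.stdAddChar (-r * t) * (EX a t * EX b t * EX c t) =
        ∑ z : X × Y × W, (ZMod.stdAddChar (t * (a z.1 + b z.2.1 + c z.2.2 - r)) : ℂ) := by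
      intro t
      unfold EX
      rw [Finset.sum_mul_sum, Finset.sum_mul, Finset.mul_sum, Fintype.sum_prod_type]
      refine Finset.sum_congr rfl fun x _ => ?_
      rw [Finset.sum_mul_sum, Finset.mul_sum, Fintype.sum_prod_type]
      refine Finset.sum_congr rfl fun y _ => ?_
      rw [Finset.mul_sum]
      refine Finset.sum_congr rfl fun w _ => ?_
      rw [← AddChar.map_add_eq_mul, ← AddChar.map_add_eq_mul, ← AddChar.map_add_eq_mul]
      congr 1
      ring
    simp_rw [h2]
    rw [Finset.sum_comm]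
    have h3 : ∀ z : X × Y × W, ∑ t : ZMod p, (ZMod.stdAddChar (t * (a z.1 + b z.2.1 + c z.2.2 - r)) : ℂ) =
        if a z.1 + b z.2.1 + c z.2.2 = r then (p : ℂ) else 0 := by
      intro z
      rw [AddChar.sum_mulShift _ hprim]
      by_cases h : a z.1 + b z.2.1 + c z.2.2 = r
      · rw [if_pos h, if_pos (sub_eq_zero.2 h), ZMod.card]
      · rw [if_neg h, if_neg (fun h' => h (sub_eq_zero.1 h')), Nat.cast_zero]
    simp_rw [h3]
    rw [← Finset.sum_filter, Finset.sum_const, nsmul_eq_mul]
    ring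
  have hzero : ∀ {V : Type} [Fintype V] (g : V → ZMod p), EX g 0 = Fintype.card V := by
    intro V _ g
    unfold EX
    simp
  have h4 : (p : ℂ) * ((univ.filter (fun z : X × Y × W => a z.1 + b z.2.1 + c z.2.2 = r)).card : ℂ) -
      (Fintype.card X : ℂ) * Fintype.card Y * Fintype.card W =
      ∑ t ∈ univ.erase (0 : ZMod p), ZMod.stdAddChar (-r * t) * (EX a t * EX b t * EX c t) := by
    rw [h1, ← Finset.add_sum_erase univ _ (mem_univ (0 : ZMod p)), hzero, hzero, hzero, mul_zero,
      AddChar.map_zero_eq_one, one_mul]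
    ring
  have h5 : ‖(p : ℂ) * ((univ.filter (fun z : X × Y × W => a z.1 + b z.2.1 + c z.2.2 = r)).card : ℂ) -
      (Fintype.card X : ℂ) * Fintype.card Y * Fintype.card W‖ ≤
      K * ∑ t : ZMod p, ‖EX a t‖ * ‖EX b t‖ := by
    rw [h4]
    refine (norm_sum_le _ _).trans ?_
    rw [Finset.mul_sum]
    refine le_trans ?_ (Finset.sum_le_sum_of_subset_of_nonneg (erase_subset 0 univ)
      (fun t _ _ => by positivity))
    refine Finset.sum_le_sum fun t ht => ?_
    rw [norm_mul, norm_std, one_mul, norm_mul, norm_mul, mul_comm]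
    exact mul_le_mul_of_nonneg_right (hK t (ne_of_mem_erase ht)) (by positivity)
  have h6 : ∑ t : ZMod p, ‖EX a t‖ * ‖EX b t‖ ≤ (Da + Db) * Fintype.card X * Fintype.card Y := by
    have h7 := Finset.sum_mul_sq_le_sq_mul_sq (univ : Finset (ZMod p)) (fun t => ‖EX a t‖) (fun t => ‖EX b t‖)
    have h8 := EX_second a Da hDa
    have h9 := EX_second b Db hDb
    have h10 : (∑ t : ZMod p, ‖EX a t‖ * ‖EX b t‖) ^ 2 ≤
        ((Da + Db) * Fintype.card X * Fintype.card Y) ^ 2 := by
      refine h7.trans ((mul_le_mul h8 h9 (Finset.sum_nonneg fun _ _ => by positivity) (by positivity)).trans ?_)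
      have h11 : Da * Db ≤ (Da + Db) ^ 2 := by nlinarith
      calc Da * (Fintype.card X : ℝ) ^ 2 * (Db * (Fintype.card Y : ℝ) ^ 2) =
            (Da * Db) * ((Fintype.card X : ℝ) ^ 2 * (Fintype.card Y : ℝ) ^ 2) := by ring
        _ ≤ (Da + Db) ^ 2 * ((Fintype.card X : ℝ) ^ 2 * (Fintype.card Y : ℝ) ^ 2) :=
            mul_le_mul_of_nonneg_right h11 (by positivity)
        _ = _ := by ring
    exact (pow_le_pow_iff_left₀ (Finset.sum_nonneg fun _ _ => by positivity) (by positivity) two_ne_zero).1 h10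
  have h12 : ‖(p : ℂ) * ((univ.filter (fun z : X × Y × W => a z.1 + b z.2.1 + c z.2.2 = r)).card : ℂ) -
      (Fintype.card X : ℂ) * Fintype.card Y * Fintype.card W‖ =
      |(p : ℝ) * ((univ.filter (fun z : X × Y × W => a z.1 + b z.2.1 + c z.2.2 = r)).card : ℝ) -
      (Fintype.card X : ℝ) * Fintype.card Y * Fintype.card W| := by
    rw [← Real.norm_eq_abs, ← Complex.norm_real]
    push_cast
    rfl
  rw [← h12]
  refine h5.trans ((mul_le_mul_of_nonneg_left h6 hK0).trans (le_of_eq ?_))
  ring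

end

end Pool.Agent.Y837.SV
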