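import Pool.Agent.Y837.SV.WtOne3

set_option autoImplicit false
set_option linter.unusedSectionVars false
set_option linter.unusedVariables false

/-! # Weyl sums modulo a prime and sums of three polynomials (project SV, helper837) -/

namespace Pool.Agent.Y837.SV

open Finset Filter

open scoped Classical

section

variable {p : ℕ} [Fact p.Prime]

theorem conj_std (a : ZMod p) : (starRingEnd ℂ) (ZMod.stdAddChar a) = ZMod.stdAddChar (-a) := by
  rw [AddChar.map_neg_eq_inv, Complex.inv_eq_conj]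
  rw [ZMod.stdAddChar_apply]
  exact Circle.norm_coe _

theorem norm_std (a : ZMod p) : ‖(ZMod.stdAddChar a : ℂ)‖ = 1 := by
  rw [ZMod.stdAddChar_apply]
  exact Circle.norm_coe _

/-- the difference of a polynomial of degree `k` has degree `k - 1` -/
theorem diff_natDegree (f : Polynomial (ZMod p)) (k : ℕ) (hk : f.natDegree = k + 1) (hkp : k + 1 < p)
    (h : ZMod p) (hh : h ≠ 0) : (Polynomial.taylor h f - f).natDegree = k := by
  have hf0 : f ≠ 0 := by
    intro h0
    rw [h0, Polynomial.natDegree_zero] at hk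
    omega
  have h1 : (Polynomial.taylor h f - f).degree < f.degree := by
    exact Polynomial.degree_sub_lt_right (Polynomial.degree_taylor f h) hf0 (Polynomial.leadingCoeff_taylor _ _)
  have h3 : (Polynomial.taylor h f - f).natDegree ≤ k := by
    by_cases h0 : Polynomial.taylor h f - f = 0
    · rw [h0, Polynomial.natDegree_zero]
      omega
    · have := Polynomial.natDegree_lt_natDegree h0 h1
      omega
  refine le_antisymm h3 ?_
  apply Polynomial.le_natDegree_of_ne_zero
  rw [Polynomial.coeff_sub, Polynomial.taylor_coeff]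
  have h4 : (Polynomial.hasseDeriv k f).natDegree ≤ 1 := by
    refine (Polynomial.natDegree_hasseDeriv_le f k).trans ?_
    omega
  rw [Polynomial.eval_eq_sum_range' (Nat.lt_succ_of_le h4), Finset.sum_range_succ, Finset.sum_range_one,
    Polynomial.hasseDeriv_coeff, Polynomial.hasseDeriv_coeff]
  have h5 : (1 + k).choose k = k + 1 := by
    rw [add_comm]
    exact Nat.choose_succ_self_right k
  rw [h5, zero_add, Nat.choose_self, add_comm 1 k]
  have h6 : ((1 : ℕ) : ZMod p) * f.coeff k * h ^ 0 + ((k + 1 : ℕ) : ZMod p) * f.coeff (k + 1) * h ^ 1 - f.coeff k =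
      ((k + 1 : ℕ) : ZMod p) * f.coeff (k + 1) * h := by
    push_cast
    ring
  rw [h6]
  refine mul_ne_zero (mul_ne_zero ?_ ?_) hh
  · intro h0
    rw [ZMod.natCast_eq_zero_iff] at h0
    have := Nat.le_of_dvd (Nat.succ_pos k) h0
    omega
  · rw [← hk]
    exact Polynomial.leadingCoeff_ne_zero.2 hf0

/-- Weyl differencing -/
theorem weyl_step (f : ZMod p → ZMod p) :
    ‖∑ x : ZMod p, (ZMod.stdAddChar (f x) : ℂ)‖ ^ 2 ≤
      ∑ h : ZMod p, ‖∑ x : ZMod p, (ZMod.stdAddChar (f (x + h) - f x) : ℂ)‖ := by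
  have h1 : ((‖∑ x : ZMod p, (ZMod.stdAddChar (f x) : ℂ)‖ ^ 2 : ℝ) : ℂ) =
      ∑ h : ZMod p, ∑ x : ZMod p, (ZMod.stdAddChar (f (x + h) - f x) : ℂ) := by
    rw [← Complex.normSq_eq_norm_sq, ← Complex.mul_conj, map_sum, Finset.sum_mul_sum, Finset.sum_comm]
    rw [Finset.sum_comm (s := (univ : Finset (ZMod p))) (t := (univ : Finset (ZMod p)))
      (f := fun h x => (ZMod.stdAddChar (f (x + h) - f x) : ℂ))]
    refine Finset.sum_congr rfl fun x _ => ?_
    refine (Fintype.sum_equiv (Equiv.addLeft x) _ _ fun h => ?_).symm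
    rw [conj_std, ← AddChar.map_add_eq_mul]
    congr 1
    simp only [Equiv.coe_addLeft]
    ring
  have h2 : ‖((‖∑ x : ZMod p, (ZMod.stdAddChar (f x) : ℂ)‖ ^ 2 : ℝ) : ℂ)‖ =
      ‖∑ x : ZMod p, (ZMod.stdAddChar (f x) : ℂ)‖ ^ 2 := by
    rw [Complex.norm_real, Real.norm_eq_abs, abs_of_nonneg (by positivity)]
  rw [← h2, h1]
  exact norm_sum_le _ _

/-- **Weyl's inequality modulo a prime** -/
theorem weyl_one (k : ℕ) : ∀ f : Polynomial (ZMod p), f.natDegree = k + 1 → k + 1 < p →
    ‖∑ x : ZMod p, (ZMod.stdAddChar (f.eval x) : ℂ)‖ ≤ 2 * (p : ℝ) ^ (1 - (1 / 2 : ℝ) ^ k) := by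
  have hp := (Fact.out : p.Prime)
  have hp0 : (0 : ℝ) < p := by exact_mod_cast hp.pos
  have hp1 : (1 : ℝ) ≤ p := by exact_mod_cast hp.one_lt.le
  have hprim : (ZMod.stdAddChar (N := p)).IsPrimitive := ZMod.isPrimitive_stdAddChar p
  induction k with
  | zero =>
    intro f hf hkp
    have h1 : ∀ x : ZMod p, f.eval x = f.coeff 1 * x + f.coeff 0 := by
      intro x
      rw [Polynomial.eval_eq_sum_range' (n := 2) (by omega), Finset.sum_range_succ, Finset.sum_range_one]
      ring
    have hc : f.coeff 1 ≠ 0 := by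
      have hf0 : f ≠ 0 := by
        intro h0
        rw [h0, Polynomial.natDegree_zero] at hf
        omega
      have := Polynomial.leadingCoeff_ne_zero.2 hf0
      rw [Polynomial.leadingCoeff, hf] at this
      exact this
    have h2 : ∑ x : ZMod p, (ZMod.stdAddChar (f.eval x) : ℂ) = 0 := by
      simp_rw [h1, AddChar.map_add_eq_mul]
      rw [← Finset.sum_mul]
      have h3 := AddChar.sum_mulShift (f.coeff 1) hprim
      rw [if_neg hc, Nat.cast_zero] at h3
      have h4 : ∑ x : ZMod p, (ZMod.stdAddChar (f.coeff 1 * x) : ℂ) = 0 := by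
        rw [← h3]
        refine Finset.sum_congr rfl fun x _ => ?_
        rw [mul_comm]
      rw [h4, zero_mul]
    rw [h2, norm_zero]
    positivity
  | succ k ih =>
    intro f hf hkp
    have h1 := weyl_step (fun x => f.eval x)
    have h2 : ∀ h : ZMod p, ‖∑ x : ZMod p, (ZMod.stdAddChar (f.eval (x + h) - f.eval x) : ℂ)‖ ≤
        if h = 0 then (p : ℝ) else 2 * (p : ℝ) ^ (1 - (1 / 2 : ℝ) ^ k) := by
      intro h
      split_ifs with h0
      · refine (norm_sum_le _ _).trans ?_
        simp_rw [norm_std]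
        rw [Finset.sum_const, card_univ, ZMod.card, nsmul_eq_mul, mul_one]
      · have h3 := ih (Polynomial.taylor h f - f) (diff_natDegree f (k + 1) hf hkp h h0) (by omega)
        simp_rw [Polynomial.eval_sub, Polynomial.taylor_eval] at h3
        exact h3
    have h3 : ∑ h : ZMod p, (if h = 0 then (p : ℝ) else 2 * (p : ℝ) ^ (1 - (1 / 2 : ℝ) ^ k)) ≤
        p + p * (2 * (p : ℝ) ^ (1 - (1 / 2 : ℝ) ^ k)) := by
      have h4 : ∀ h : ZMod p, (if h = 0 then (p : ℝ) else 2 * (p : ℝ) ^ (1 - (1 / 2 : ℝ) ^ k)) ≤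
          (if h = 0 then (p : ℝ) else 0) + 2 * (p : ℝ) ^ (1 - (1 / 2 : ℝ) ^ k) := by
        intro h
        have : 0 ≤ 2 * (p : ℝ) ^ (1 - (1 / 2 : ℝ) ^ k) := by positivity
        split_ifs <;> linarith
      refine (Finset.sum_le_sum fun h _ => h4 h).trans ?_
      rw [Finset.sum_add_distrib, Finset.sum_const, card_univ, ZMod.card, nsmul_eq_mul,
        Finset.sum_ite_eq' univ (0 : ZMod p), if_pos (mem_univ _)]
    have h5 := (h1.trans (Finset.sum_le_sum fun h _ => h2 h)).trans h3
    have hhalf : (0 : ℝ) < (1 / 2 : ℝ) ^ k := by positivity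
    have hhalf1 : (1 / 2 : ℝ) ^ k ≤ 1 := pow_le_one₀ (by norm_num) (by norm_num)
    have e1 : (p : ℝ) ≤ (p : ℝ) ^ (2 - (1 / 2 : ℝ) ^ k) := by
      calc (p : ℝ) = (p : ℝ) ^ (1 : ℝ) := (Real.rpow_one _).symm
        _ ≤ _ := Real.rpow_le_rpow_of_exponent_le hp1 (by linarith)
    have e2 : (p : ℝ) * (2 * (p : ℝ) ^ (1 - (1 / 2 : ℝ) ^ k)) = 2 * (p : ℝ) ^ (2 - (1 / 2 : ℝ) ^ k) := by
      have : (p : ℝ) ^ (2 - (1 / 2 : ℝ) ^ k) = (p : ℝ) ^ (1 : ℝ) * (p : ℝ) ^ (1 - (1 / 2 : ℝ) ^ k) := by
        rw [← Real.rpow_add hp0]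
        congr 1
        ring
      rw [this, Real.rpow_one]
      ring
    have e3 : ((p : ℝ) ^ (1 - (1 / 2 : ℝ) ^ (k + 1))) ^ 2 = (p : ℝ) ^ (2 - (1 / 2 : ℝ) ^ k) := by
      rw [← Real.rpow_natCast, ← Real.rpow_mul hp0.le]
      congr 1
      push_cast
      rw [pow_succ]
      ring
    have h6 : ‖∑ x : ZMod p, (ZMod.stdAddChar (f.eval x) : ℂ)‖ ^ 2 ≤
        (2 * (p : ℝ) ^ (1 - (1 / 2 : ℝ) ^ (k + 1))) ^ 2 := by
      rw [mul_pow, e3]
      rw [e2] at h5
      have : 0 ≤ (p : ℝ) ^ (2 - (1 / 2 : ℝ) ^ k) := by positivity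
      linarith
    exact (pow_le_pow_iff_left₀ (norm_nonneg _) (by positivity) two_ne_zero).1 h6

/-- **Exponential sums of polynomials in several variables modulo a prime** -/
theorem weyl_several (D : ℕ) (hD : 1 ≤ D) (hDp : D < p) (m : ℕ) :
    ∀ Q : MvPolynomial (Fin m) (ZMod p), Q.totalDegree ≤ D → (∀ c, Q ≠ MvPolynomial.C c) →
    ‖∑ x : Fin m → ZMod p, (ZMod.stdAddChar (MvPolynomial.eval x Q) : ℂ)‖ ≤
      ((D : ℝ) + 2) * (p : ℝ) ^ m * (p : ℝ) ^ (-(1 / 2 : ℝ) ^ D) := by
  have hp := (Fact.out : p.Prime)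
  have hp0 : (0 : ℝ) < p := by exact_mod_cast hp.pos
  have hp1 : (1 : ℝ) ≤ p := by exact_mod_cast hp.one_lt.le
  induction m with
  | zero =>
    intro Q hQ hQc
    exfalso
    apply hQc (MvPolynomial.constantCoeff Q)
    rw [MvPolynomial.constantCoeff_eq]
    exact (MvPolynomial.eq_C_of_isEmpty Q)
  | succ n ih =>
    intro Q hQ hQc
    obtain ⟨P, hP⟩ : ∃ P, P = MvPolynomial.finSuccEquiv (ZMod p) n Q := ⟨_, rfl⟩
    have hsum : ∑ x : Fin (n + 1) → ZMod p, (ZMod.stdAddChar (MvPolynomial.eval x Q) : ℂ) =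
        ∑ z : Fin n → ZMod p, ∑ y : ZMod p,
          (ZMod.stdAddChar (Polynomial.eval y (Polynomial.map (MvPolynomial.eval z) P)) : ℂ) := by
      rw [← Finset.sum_product', Finset.univ_product_univ]
      refine (Fintype.sum_equiv ((Equiv.prodComm _ _).trans (Fin.consEquiv (fun _ => ZMod p))) _ _
        fun z => ?_).symm
      rw [hP, ← MvPolynomial.eval_eq_eval_mv_eval']
      rfl
    by_cases hk : P.natDegree = 0
    · -- the first variable does not occur
      have hPC : P = Polynomial.C (P.coeff 0) := Polynomial.eq_C_of_natDegree_eq_zero hk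
      have hne : ∀ c, P.coeff 0 ≠ MvPolynomial.C c := by
        intro c hc
        apply hQc c
        apply (MvPolynomial.finSuccEquiv (ZMod p) n).injective
        rw [← hP, hPC, hc]
        exact ((MvPolynomial.finSuccEquiv (ZMod p) n).commutes c).symm
      have hdeg : (P.coeff 0).totalDegree ≤ D := by
        have h0 : (MvPolynomial.finSuccEquiv (ZMod p) n Q).coeff 0 ≠ 0 := by
          rw [← hP]
          intro h0
          apply hne 0
          rw [h0, map_zero]
        have := MvPolynomial.totalDegree_coeff_finSuccEquiv_add_le Q 0 h0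
        rw [← hP, add_zero] at this
        exact this.trans hQ
      have h1 := ih (P.coeff 0) hdeg hne
      have h2 : ∀ z : Fin n → ZMod p, ∑ y : ZMod p,
          (ZMod.stdAddChar (Polynomial.eval y (Polynomial.map (MvPolynomial.eval z) P)) : ℂ) =
          p * (ZMod.stdAddChar (MvPolynomial.eval z (P.coeff 0)) : ℂ) := by
        intro z
        have h3 : ∀ y : ZMod p, Polynomial.eval y (Polynomial.map (MvPolynomial.eval z) P) =
            MvPolynomial.eval z (P.coeff 0) := by
          intro y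
          conv_lhs => rw [hPC]
          rw [Polynomial.map_C, Polynomial.eval_C]
        simp_rw [h3]
        rw [Finset.sum_const, card_univ, ZMod.card, nsmul_eq_mul]
      rw [hsum]
      simp_rw [h2]
      rw [← Finset.mul_sum, norm_mul, Complex.norm_natCast]
      calc (p : ℝ) * ‖∑ x : Fin n → ZMod p, (ZMod.stdAddChar (MvPolynomial.eval x (P.coeff 0)) : ℂ)‖
          ≤ p * (((D : ℝ) + 2) * (p : ℝ) ^ n * (p : ℝ) ^ (-(1 / 2 : ℝ) ^ D)) :=
            mul_le_mul_of_nonneg_left h1 hp0.le
        _ = _ := by rw [pow_succ]; ring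
    · obtain ⟨k, hk'⟩ : ∃ k, P.natDegree = k + 1 := Nat.exists_eq_succ_of_ne_zero hk
      have hP0 : P ≠ 0 := by
        intro h0
        rw [h0] at hk
        exact hk Polynomial.natDegree_zero
      have hkD : k + 1 ≤ D := by
        rw [← hk', hP, MvPolynomial.natDegree_finSuccEquiv]
        exact (MvPolynomial.degreeOf_le_totalDegree Q 0).trans hQ
      have hL0 : P.leadingCoeff ≠ 0 := Polynomial.leadingCoeff_ne_zero.2 hP0
      have hLdeg : P.leadingCoeff.totalDegree ≤ D := by
        have := MvPolynomial.totalDegree_coeff_finSuccEquiv_add_le Q P.natDegree (by rw [← hP]; exact hL0)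
        rw [← hP] at this
        exact (Nat.le_add_right _ _).trans (this.trans hQ)
      -- the slices
      have hgood : ∀ z : Fin n → ZMod p, MvPolynomial.eval z P.leadingCoeff ≠ 0 →
          ‖∑ y : ZMod p, (ZMod.stdAddChar (Polynomial.eval y (Polynomial.map (MvPolynomial.eval z) P)) : ℂ)‖ ≤
            2 * (p : ℝ) ^ (1 - (1 / 2 : ℝ) ^ D) := by
        intro z hz
        have h1 : (Polynomial.map (MvPolynomial.eval z) P).natDegree = k + 1 := by
          rw [← hk']
          exact Polynomial.natDegree_map_of_leadingCoeff_ne_zero _ hz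
        refine (weyl_one k _ h1 (by omega)).trans ?_
        apply mul_le_mul_of_nonneg_left _ (by norm_num)
        apply Real.rpow_le_rpow_of_exponent_le hp1
        have : (1 / 2 : ℝ) ^ D ≤ (1 / 2 : ℝ) ^ k :=
          pow_le_pow_of_le_one (by norm_num) (by norm_num) (by omega)
        linarith
      have hbad : ∀ z : Fin n → ZMod p,
          ‖∑ y : ZMod p, (ZMod.stdAddChar (Polynomial.eval y (Polynomial.map (MvPolynomial.eval z) P)) : ℂ)‖ ≤
            p := by
        intro z
        refine (norm_sum_le _ _).trans ?_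
        simp_rw [norm_std]
        rw [Finset.sum_const, card_univ, ZMod.card, nsmul_eq_mul, mul_one]
      have hcount : ((univ.filter (fun z : Fin n → ZMod p => MvPolynomial.eval z P.leadingCoeff = 0)).card : ℝ) * p ≤
          D * (p : ℝ) ^ n := by
        have h1 := MvPolynomial.schwartz_zippel_totalDegree hL0 (univ : Finset (ZMod p))
        rw [card_univ, ZMod.card] at h1
        have h2 : (Fintype.piFinset (fun _ : Fin n => (univ : Finset (ZMod p)))).filter
            (fun f => MvPolynomial.eval f P.leadingCoeff = 0) =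
            univ.filter (fun x : Fin n → ZMod p => MvPolynomial.eval x P.leadingCoeff = 0) := by
          ext x
          simp
        have hpQ : (0 : ℚ≥0) < p := by exact_mod_cast hp.pos
        rw [div_le_div_iff₀ (by positivity) hpQ] at h1
        have h3 : (((Fintype.piFinset (fun _ : Fin n => (univ : Finset (ZMod p)))).filter
            (fun f => MvPolynomial.eval f P.leadingCoeff = 0)).card) * p ≤ P.leadingCoeff.totalDegree * p ^ n := by
          exact_mod_cast h1
        rw [h2] at h3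
        have h4 := h3.trans (Nat.mul_le_mul_right _ hLdeg)
        exact_mod_cast h4
      rw [hsum]
      have h5 : ‖∑ z : Fin n → ZMod p, ∑ y : ZMod p,
          (ZMod.stdAddChar (Polynomial.eval y (Polynomial.map (MvPolynomial.eval z) P)) : ℂ)‖ ≤
          ∑ z : Fin n → ZMod p, (2 * (p : ℝ) ^ (1 - (1 / 2 : ℝ) ^ D) +
            if MvPolynomial.eval z P.leadingCoeff = 0 then (p : ℝ) else 0) := by
        refine (norm_sum_le _ _).trans (Finset.sum_le_sum fun z _ => ?_)
        split_ifs with hz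
        · have := hbad z
          have h6 : 0 ≤ 2 * (p : ℝ) ^ (1 - (1 / 2 : ℝ) ^ D) := by positivity
          linarith
        · rw [add_zero]
          exact hgood z hz
      refine h5.trans ?_
      rw [Finset.sum_add_distrib, Finset.sum_const, ← Finset.sum_filter, Finset.sum_const, card_univ,
        Fintype.card_fun, ZMod.card, Fintype.card_fin, nsmul_eq_mul, nsmul_eq_mul]
      have e1 : (p : ℝ) ^ (1 - (1 / 2 : ℝ) ^ D) = p * (p : ℝ) ^ (-(1 / 2 : ℝ) ^ D) := by
        rw [sub_eq_add_neg, Real.rpow_add hp0, Real.rpow_one]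
      have e2 : (1 : ℝ) ≤ p * (p : ℝ) ^ (-(1 / 2 : ℝ) ^ D) := by
        rw [← e1]
        apply Real.one_le_rpow hp1
        have : (1 / 2 : ℝ) ^ D ≤ 1 := pow_le_one₀ (by norm_num) (by norm_num)
        linarith
      have e3 : (0 : ℝ) ≤ (p : ℝ) ^ n := by positivity
      push_cast
      calc (p : ℝ) ^ n * (2 * (p : ℝ) ^ (1 - (1 / 2 : ℝ) ^ D)) +
            ((univ.filter (fun z : Fin n → ZMod p => MvPolynomial.eval z P.leadingCoeff = 0)).card : ℝ) * p
          ≤ (p : ℝ) ^ n * (2 * (p * (p : ℝ) ^ (-(1 / 2 : ℝ) ^ D))) + D * (p : ℝ) ^ n := by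
            rw [e1]
            linarith
        _ ≤ (p : ℝ) ^ n * (2 * (p * (p : ℝ) ^ (-(1 / 2 : ℝ) ^ D))) +
            D * (p : ℝ) ^ n * (p * (p : ℝ) ^ (-(1 / 2 : ℝ) ^ D)) := by
            have h7 : (0 : ℝ) ≤ D * (p : ℝ) ^ n := by positivity
            nlinarith
        _ = ((D : ℝ) + 2) * (p : ℝ) ^ (n + 1) * (p : ℝ) ^ (-(1 / 2 : ℝ) ^ D) := by
            rw [pow_succ]; ring

end

end Pool.Agent.Y837.SV
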